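import Pool.Agent.H.MP_59b15d_al.lin.Lantern

/-!
Two identities for the twists of three and four consecutive handles.
-/

set_option autoImplicit false
set_option linter.unusedSimpArgs false

namespace Pool.Agent.H.MP_59b15d_al.Deg

open Pool.MP_59b15d_al.H24T Pool.MP_59b15d_al.H76R Pool.MP_59b15d_al.H73E
open Pool.MP_59b15d_al.H60G Pool.MP_59b15d_al.H40L

section

variable {m : ℕ} {G : Type*} [Group G] {a b : Fin m → G}

/-- The twist joining the handles `i` and `k = i + 2`. -/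
noncomputable def KK (h : IsSurf a b) (i j k : Fin m) (hij : (j : ℕ) = i + 1)
    (hjk : (k : ℕ) = j + 1) : MulAut G :=
  SW h j k hjk * CC h i j hij * (SW h j k hjk)⁻¹

variable (h : IsSurf a b) {i j k : Fin m} (hij : (j : ℕ) = i + 1) (hjk : (k : ℕ) = j + 1)

/-- The commutator of the handle `j`. -/
def cj (a b : Fin m → G) (j : Fin m) : G := a j * b j * (a j)⁻¹ * (b j)⁻¹

/-- The curve of `KK`. -/
def ck (a b : Fin m → G) (i j k : Fin m) : G :=
  b i * (a i)⁻¹ * (b i)⁻¹ * cj a b j * a k * (cj a b j)⁻¹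

theorem KK_ai : KK h i j k hij hjk (a i) = a i := by
  have n1 := ne_of_succ hij
  have n2 := ne_of_succ hjk
  have n3 := ne_ik hij hjk
  rw [KK, MulAut.mul_apply, MulAut.mul_apply, SWi_a_ne h hjk n1.symm n3.symm, CC_ai,
    SW_a_ne h hjk n1.symm n3.symm]

theorem KK_bi : KK h i j k hij hjk (b i) = ck a b i j k * b i := by
  have n1 := ne_of_succ hij
  have n2 := ne_of_succ hjk
  have n3 := ne_ik hij hjk
  rw [KK, MulAut.mul_apply, MulAut.mul_apply, SWi_b_ne h hjk n1.symm n3.symm, CC_bi, cv]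
  simp only [map_mul, map_inv, SW_a_ne h hjk n1.symm n3.symm, SW_b_ne h hjk n1.symm n3.symm,
    SW_ai, ck, cj]
  group

theorem KK_aj : KK h i j k hij hjk (a j) = a j := by
  have n1 := ne_of_succ hij
  have n2 := ne_of_succ hjk
  have n3 := ne_ik hij hjk
  rw [KK, MulAut.mul_apply, MulAut.mul_apply, SWi_ai, CC_a_ne h hij n3 n2, SW_aj]

theorem KK_bj : KK h i j k hij hjk (b j) = b j := by
  have n1 := ne_of_succ hij
  have n2 := ne_of_succ hjk
  have n3 := ne_ik hij hjk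
  rw [KK, MulAut.mul_apply, MulAut.mul_apply, SWi_bi, CC_b_ne h hij n3 n2, SW_bj]

theorem KK_ak : KK h i j k hij hjk (a k) =
    (cj a b j)⁻¹ * ck a b i j k * cj a b j * a k * (cj a b j)⁻¹ * (ck a b i j k)⁻¹ *
      cj a b j := by
  have n1 := ne_of_succ hij
  have n2 := ne_of_succ hjk
  have n3 := ne_ik hij hjk
  rw [KK, MulAut.mul_apply, MulAut.mul_apply, SWi_aj]
  simp only [map_mul, map_inv, CC_a_ne h hij n3 n2, CC_b_ne h hij n3 n2, CC_aj, cv,
    SW_a_ne h hjk n1.symm n3.symm, SW_b_ne h hjk n1.symm n3.symm, SW_ai, SW_aj, SW_bj, ck, cj]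
  group

theorem KK_bk : KK h i j k hij hjk (b k) =
    b k * (cj a b j)⁻¹ * (ck a b i j k)⁻¹ * cj a b j := by
  have n1 := ne_of_succ hij
  have n2 := ne_of_succ hjk
  have n3 := ne_ik hij hjk
  rw [KK, MulAut.mul_apply, MulAut.mul_apply, SWi_bj]
  simp only [map_mul, map_inv, CC_a_ne h hij n3 n2, CC_b_ne h hij n3 n2, CC_bj, cv,
    SW_a_ne h hjk n1.symm n3.symm, SW_b_ne h hjk n1.symm n3.symm, SW_ai, SW_bi, SW_aj, SW_bj, ck,
    cj]
  group

theorem KK_cj : KK h i j k hij hjk (cj a b j) = cj a b j := by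
  rw [cj]
  simp only [map_mul, map_inv, KK_aj, KK_bj]

theorem KK_ck : KK h i j k hij hjk (ck a b i j k) = ck a b i j k := by
  have e : ck a b i j k = b i * (a i)⁻¹ * (b i)⁻¹ * cj a b j * a k * (cj a b j)⁻¹ := rfl
  conv_lhs => rw [e]
  simp only [map_mul, map_inv, KK_bi, KK_ai, KK_cj, KK_ak]
  rw [e]
  group

theorem KKi_ai : (KK h i j k hij hjk)⁻¹ (a i) = a i := by
  conv_lhs => rw [← KK_ai h hij hjk]
  rw [MulAut.inv_apply_self]

theorem KKi_bi : (KK h i j k hij hjk)⁻¹ (b i) = (ck a b i j k)⁻¹ * b i := by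
  have h1 : KK h i j k hij hjk ((ck a b i j k)⁻¹ * b i) = b i := by
    rw [map_mul, map_inv, KK_ck, KK_bi]
    group
  conv_lhs => rw [← h1]
  rw [MulAut.inv_apply_self]

theorem KKi_aj : (KK h i j k hij hjk)⁻¹ (a j) = a j := by
  conv_lhs => rw [← KK_aj h hij hjk]
  rw [MulAut.inv_apply_self]

theorem KKi_bj : (KK h i j k hij hjk)⁻¹ (b j) = b j := by
  conv_lhs => rw [← KK_bj h hij hjk]
  rw [MulAut.inv_apply_self]

theorem KKi_ak : (KK h i j k hij hjk)⁻¹ (a k) =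
    (cj a b j)⁻¹ * (ck a b i j k)⁻¹ * cj a b j * a k * (cj a b j)⁻¹ * ck a b i j k *
      cj a b j := by
  have h1 : KK h i j k hij hjk ((cj a b j)⁻¹ * (ck a b i j k)⁻¹ * cj a b j * a k *
      (cj a b j)⁻¹ * ck a b i j k * cj a b j) = a k := by
    simp only [map_mul, map_inv, KK_ck, KK_cj, KK_ak]
    group
  conv_lhs => rw [← h1]
  rw [MulAut.inv_apply_self]

theorem KKi_bk : (KK h i j k hij hjk)⁻¹ (b k) = b k * (cj a b j)⁻¹ * ck a b i j k *
    cj a b j := by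
  have h1 : KK h i j k hij hjk (b k * (cj a b j)⁻¹ * ck a b i j k * cj a b j) = b k := by
    simp only [map_mul, map_inv, KK_ck, KK_cj, KK_bk]
    group
  conv_lhs => rw [← h1]
  rw [MulAut.inv_apply_self]

/-- The word `T_2 T_3 T_1 T_2` of the chain. -/
noncomputable def UU : MulAut G :=
  TB h j * CC h i j hij * (TA h j)⁻¹ * TB h j

theorem UU_ai : UU h hij (a i) = a i := by
  have n1 := ne_of_succ hij
  simp only [UU, MulAut.mul_apply, TB_a_ne h n1.symm, TAi_a, CC_ai]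

theorem UU_bi : UU h hij (b i) = b i * (a i)⁻¹ * (b i)⁻¹ * a j * b j * b i := by
  have n1 := ne_of_succ hij
  simp only [UU, MulAut.mul_apply, TB_b, TAi_b_ne h n1.symm, CC_bi, cv, map_mul, map_inv, TB_a,
    TB_a_ne h n1.symm]
  group

theorem UU_aj : UU h hij (a j) = b i * (a i)⁻¹ * (b i)⁻¹ * a j * b j * b i * a i * (b i)⁻¹ *
    (a j)⁻¹ * (b j)⁻¹ * (a j)⁻¹ * b i * a i * (b i)⁻¹ := by
  have n1 := ne_of_succ hij
  simp only [UU, MulAut.mul_apply, TB_b, TAi_b, TAi_a, CC_bi, CC_aj, CC_bj, cv, map_mul, map_inv,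
    TB_a, TB_a_ne h n1.symm]
  group

theorem UU_bj : UU h hij (b j) = (a j)⁻¹ * (b j)⁻¹ * (a j)⁻¹ * b i * a i * (b i)⁻¹ := by
  have n1 := ne_of_succ hij
  simp only [UU, MulAut.mul_apply, TB_b, TAi_b, TAi_a, CC_bi, CC_aj, CC_bj, cv, map_mul, map_inv,
    TB_a, TB_a_ne h n1.symm]
  group

theorem UU_ne {l : Fin m} (h1 : l ≠ i) (h2 : l ≠ j) :
    UU h hij (a l) = a l ∧ UU h hij (b l) = b l := by
  constructor
  · simp only [UU, MulAut.mul_apply, TB_a_ne h h2, TAi_a, CC_a_ne h hij h1 h2]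
  · simp only [UU, MulAut.mul_apply, TB_b, TAi_b_ne h h2, CC_b_ne h hij h1 h2]

/-- The inverse of the conjugating element. -/
noncomputable def GG : MulAut G :=
  (TB h i)⁻¹ * (TA h i)⁻¹ * (KK h i j k hij hjk)⁻¹ * (CC h i j hij)⁻¹

theorem GG_ai : GG h hij hjk (a i) = a i * (b i)⁻¹ := by
  simp only [GG, MulAut.mul_apply, CCi_ai, KKi_ai, TAi_a, TBi_a]

theorem GG_bi : GG h hij hjk (b i) =
    b j * (a j)⁻¹ * (b j)⁻¹ * (a k)⁻¹ * b j * a j * (b j)⁻¹ * (a j)⁻¹ * b i * a i *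
      (b i)⁻¹ := by
  have n1 := ne_of_succ hij
  have n2 := ne_of_succ hjk
  have n3 := ne_ik hij hjk
  simp only [GG, MulAut.mul_apply, CCi_bi, cv, map_mul, map_inv, KKi_bi, KKi_ai, KKi_aj, ck, cj,
    TAi_a, TAi_b, TAi_b_ne h n1, TAi_b_ne h n3, TBi_a, TBi_b, TBi_a_ne h n1, TBi_a_ne h n3]
  group

theorem GG_aj : GG h hij hjk (a j) =
    b j * (a j)⁻¹ * (b j)⁻¹ * (a k)⁻¹ * b j * a j * (b j)⁻¹ * (a j)⁻¹ * b i * a i *
    (b i)⁻¹ * (b i)⁻¹ * a j * b j * (a j)⁻¹ * (b j)⁻¹ * a k * b j * a j * (b j)⁻¹ * a j *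
    b j * (a j)⁻¹ * (b j)⁻¹ * (a k)⁻¹ * b j * a j * (b j)⁻¹ * (a j)⁻¹ * b i * b i *
    (a i)⁻¹ * (b i)⁻¹ * a j * b j * (a j)⁻¹ * (b j)⁻¹ * a k * b j * a j * (b j)⁻¹ := by
  have n1 := ne_of_succ hij
  have n2 := ne_of_succ hjk
  have n3 := ne_ik hij hjk
  simp only [GG, MulAut.mul_apply, CCi_aj, cv, map_mul, map_inv, KKi_bi, KKi_ai, KKi_aj, ck, cj,
    TAi_a, TAi_b, TAi_b_ne h n1, TAi_b_ne h n3, TBi_a, TBi_b, TBi_a_ne h n1, TBi_a_ne h n3]
  group

theorem GG_bj : GG h hij hjk (b j) =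
    b j * a j * b j * (a j)⁻¹ * (b j)⁻¹ * (a k)⁻¹ * b j * a j * (b j)⁻¹ * (a j)⁻¹ * b i *
    b i * (a i)⁻¹ * (b i)⁻¹ * a j * b j * (a j)⁻¹ * (b j)⁻¹ * a k * b j * a j *
    (b j)⁻¹ := by
  have n1 := ne_of_succ hij
  have n2 := ne_of_succ hjk
  have n3 := ne_ik hij hjk
  simp only [GG, MulAut.mul_apply, CCi_bj, cv, map_mul, map_inv, KKi_bi, KKi_ai, KKi_aj, KKi_bj,
    ck, cj, TAi_a, TAi_b, TAi_b_ne h n1, TAi_b_ne h n3, TBi_a, TBi_b, TBi_a_ne h n1,
    TBi_a_ne h n3]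
  group

theorem GG_ak : GG h hij hjk (a k) =
    (a k)⁻¹ * b j * a j * (b j)⁻¹ * (a j)⁻¹ * b i * a i * (b i)⁻¹ * (b i)⁻¹ * a j * b j *
    (a j)⁻¹ * (b j)⁻¹ * a k * b j * a j * (b j)⁻¹ * (a j)⁻¹ * b i * b i * (a i)⁻¹ *
    (b i)⁻¹ * a j * b j * (a j)⁻¹ * (b j)⁻¹ * a k := by
  have n1 := ne_of_succ hij
  have n2 := ne_of_succ hjk
  have n3 := ne_ik hij hjk
  simp only [GG, MulAut.mul_apply, CCi_a_ne h hij n3 n2, map_mul, map_inv, KKi_ak, ck, cj,
    TAi_a, TAi_b, TAi_b_ne h n1, TAi_b_ne h n3, TBi_a, TBi_b, TBi_a_ne h n1,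
    TBi_a_ne h n3]
  group

theorem GG_bk : GG h hij hjk (b k) =
    b k * b j * a j * (b j)⁻¹ * (a j)⁻¹ * b i * b i * (a i)⁻¹ * (b i)⁻¹ * a j * b j *
    (a j)⁻¹ * (b j)⁻¹ * a k := by
  have n1 := ne_of_succ hij
  have n2 := ne_of_succ hjk
  have n3 := ne_ik hij hjk
  simp only [GG, MulAut.mul_apply, CCi_b_ne h hij n3 n2, map_mul, map_inv, KKi_bk, ck, cj,
    TAi_a, TAi_b, TAi_b_ne h n1, TAi_b_ne h n3, TBi_a, TBi_b, TBi_a_ne h n1,
    TBi_a_ne h n3]
  group

theorem GG_ne {l : Fin m} (h1 : l ≠ i) (h2 : l ≠ j) (h3 : l ≠ k) :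
    GG h hij hjk (a l) = a l ∧ GG h hij hjk (b l) = b l := by
  have e1 : (KK h i j k hij hjk)⁻¹ (a l) = a l := by
    have : KK h i j k hij hjk (a l) = a l := by
      simp only [KK, MulAut.mul_apply, SWi_a_ne h hjk h2 h3, CC_a_ne h hij h1 h2,
        SW_a_ne h hjk h2 h3]
    conv_lhs => rw [← this]
    rw [MulAut.inv_apply_self]
  have e2 : (KK h i j k hij hjk)⁻¹ (b l) = b l := by
    have : KK h i j k hij hjk (b l) = b l := by
      simp only [KK, MulAut.mul_apply, SWi_b_ne h hjk h2 h3, CC_b_ne h hij h1 h2,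
        SW_b_ne h hjk h2 h3]
    conv_lhs => rw [← this]
    rw [MulAut.inv_apply_self]
  constructor
  · simp only [GG, MulAut.mul_apply, CCi_a_ne h hij h1 h2, e1, TAi_a, TBi_a_ne h h1]
  · simp only [GG, MulAut.mul_apply, CCi_b_ne h hij h1 h2, e2, TAi_b_ne h h1, TBi_b]

theorem alpha_aux :
    CC h j k hjk * (UU h hij * GG h hij hjk) = UU h hij * GG h hij hjk * TB h i := by
  have n1 := ne_of_succ hij
  have n2 := ne_of_succ hjk
  have n3 := ne_ik hij hjk
  have u1 := (UU_ne h hij n3 n2).1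
  have u2 := (UU_ne h hij n3 n2).2
  have c1 := CC_a_ne h hjk n1.symm n3.symm
  have c2 := CC_b_ne h hjk n1.symm n3.symm
  apply aut_ext h
  · intro l
    by_cases hi : l = i
    · subst hi
      simp only [MulAut.mul_apply, TB_a, GG_ai, GG_bi, map_mul, map_inv, UU_ai, UU_bi, UU_aj,
        UU_bj, u1, u2, CC_ai, CC_bi, c1, c2, CC_aj, CC_bj, cv]
      group
    · by_cases hj : l = j
      · subst hj
        simp only [MulAut.mul_apply, TB_a_ne h n1, GG_aj, map_mul, map_inv, UU_ai, UU_bi, UU_aj,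
          UU_bj, u1, u2, CC_ai, CC_bi, c1, c2, CC_aj, CC_bj, cv]
        group
      · by_cases hk : l = k
        · subst hk
          simp only [MulAut.mul_apply, TB_a_ne h n3, GG_ak, map_mul, map_inv, UU_ai, UU_bi,
            UU_aj, UU_bj, u1, u2, CC_ai, CC_bi, c1, c2, CC_aj, CC_bj, cv]
          group
        · simp only [MulAut.mul_apply, TB_a_ne h hi, (GG_ne h hij hjk hi hj hk).1,
            (UU_ne h hij hi hj).1, CC_a_ne h hjk hj hk]
  · intro l
    by_cases hi : l = i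
    · subst hi
      simp only [MulAut.mul_apply, TB_b, GG_ai, GG_bi, map_mul, map_inv, UU_ai, UU_bi, UU_aj,
        UU_bj, u1, u2, CC_ai, CC_bi, c1, c2, CC_aj, CC_bj, cv]
      group
    · by_cases hj : l = j
      · subst hj
        simp only [MulAut.mul_apply, TB_b, GG_bj, map_mul, map_inv, UU_ai, UU_bi, UU_aj,
          UU_bj, u1, u2, CC_ai, CC_bi, c1, c2, CC_aj, CC_bj, cv]
        group
      · by_cases hk : l = k
        · subst hk
          simp only [MulAut.mul_apply, TB_b, GG_bk, map_mul, map_inv, UU_ai, UU_bi,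
            UU_aj, UU_bj, u1, u2, CC_ai, CC_bi, c1, c2, CC_aj, CC_bj, cv]
          group
        · simp only [MulAut.mul_apply, TB_b, (GG_ne h hij hjk hi hj hk).2,
            (UU_ne h hij hi hj).2, CC_b_ne h hjk hj hk]

/-- **Fact (alpha).** -/
theorem alpha : (UU h hij)⁻¹ * CC h j k hjk * UU h hij =
    GG h hij hjk * TB h i * (GG h hij hjk)⁻¹ := by
  have h1 := alpha_aux h hij hjk
  rw [mul_assoc, inv_mul_eq_iff_eq_mul, ← mul_assoc, ← mul_assoc, eq_mul_inv_iff_mul_eq]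
  rw [← h1]
  group

/-- **Fact (beta).** -/
theorem SSC' : SW h i j hij * SW h j k hjk * CC h i j hij =
    CC h j k hjk * SW h i j hij * SW h j k hjk := by
  have n1 := ne_of_succ hij
  have n2 := ne_of_succ hjk
  have n3 := ne_ik hij hjk
  have s1 := SW_a_ne h hjk n1.symm n3.symm
  have s2 := SW_b_ne h hjk n1.symm n3.symm
  have s3 := SW_a_ne h hij n3 n2
  have s4 := SW_b_ne h hij n3 n2
  have c1 := CC_a_ne h hjk n1.symm n3.symm
  have c2 := CC_b_ne h hjk n1.symm n3.symm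
  have c3 := CC_a_ne h hij n3 n2
  have c4 := CC_b_ne h hij n3 n2
  apply aut_ext h
  · intro l
    by_cases hi : l = i
    · subst hi
      simp only [MulAut.mul_apply, CC_ai, CC_bi, CC_aj, CC_bj, cv, map_mul, map_inv, SW_ai,
        SW_bi, SW_aj, SW_bj, s1, s2, s3, s4, c1, c2, c3, c4]
    · by_cases hj : l = j
      · subst hj
        simp only [MulAut.mul_apply, CC_ai, CC_bi, CC_aj, CC_bj, cv, map_mul, map_inv, SW_ai,
          SW_bi, SW_aj, SW_bj, s1, s2, s3, s4, c1, c2, c3, c4]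
        group
      · by_cases hk : l = k
        · subst hk
          simp only [MulAut.mul_apply, CC_ai, CC_bi, CC_aj, CC_bj, cv, map_mul, map_inv, SW_ai,
            SW_bi, SW_aj, SW_bj, s1, s2, s3, s4, c1, c2, c3, c4]
        · simp only [MulAut.mul_apply, CC_a_ne h hij hi hj, SW_a_ne h hjk hj hk,
            SW_a_ne h hij hi hj, CC_a_ne h hjk hj hk]
  · intro l
    by_cases hi : l = i
    · subst hi
      simp only [MulAut.mul_apply, CC_ai, CC_bi, CC_aj, CC_bj, cv, map_mul, map_inv, SW_ai,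
        SW_bi, SW_aj, SW_bj, s1, s2, s3, s4, c1, c2, c3, c4]
      group
    · by_cases hj : l = j
      · subst hj
        simp only [MulAut.mul_apply, CC_ai, CC_bi, CC_aj, CC_bj, cv, map_mul, map_inv, SW_ai,
          SW_bi, SW_aj, SW_bj, s1, s2, s3, s4, c1, c2, c3, c4]
        group
      · by_cases hk : l = k
        · subst hk
          simp only [MulAut.mul_apply, CC_ai, CC_bi, CC_aj, CC_bj, cv, map_mul, map_inv, SW_ai,
            SW_bi, SW_aj, SW_bj, s1, s2, s3, s4, c1, c2, c3, c4]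
        · simp only [MulAut.mul_apply, CC_b_ne h hij hi hj, SW_b_ne h hjk hj hk,
            SW_b_ne h hij hi hj, CC_b_ne h hjk hj hk]

theorem SSC : SW h j k hjk * SW h i j hij * CC h j k hjk =
    CC h i j hij * SW h j k hjk * SW h i j hij := by
  have n1 := ne_of_succ hij
  have n2 := ne_of_succ hjk
  have n3 := ne_ik hij hjk
  have s1 := SW_a_ne h hjk n1.symm n3.symm
  have s2 := SW_b_ne h hjk n1.symm n3.symm
  have s3 := SW_a_ne h hij n3 n2
  have s4 := SW_b_ne h hij n3 n2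
  have c1 := CC_a_ne h hjk n1.symm n3.symm
  have c2 := CC_b_ne h hjk n1.symm n3.symm
  have c3 := CC_a_ne h hij n3 n2
  have c4 := CC_b_ne h hij n3 n2
  apply aut_ext h
  · intro l
    by_cases hi : l = i
    · subst hi
      simp only [MulAut.mul_apply, CC_ai, CC_bi, CC_aj, CC_bj, cv, map_mul, map_inv, SW_ai,
        SW_bi, SW_aj, SW_bj, s1, s2, s3, s4, c1, c2, c3, c4]
      group
    · by_cases hj : l = j
      · subst hj
        simp only [MulAut.mul_apply, CC_ai, CC_bi, CC_aj, CC_bj, cv, map_mul, map_inv, SW_ai,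
          SW_bi, SW_aj, SW_bj, s1, s2, s3, s4, c1, c2, c3, c4]
      · by_cases hk : l = k
        · subst hk
          simp only [MulAut.mul_apply, CC_ai, CC_bi, CC_aj, CC_bj, cv, map_mul, map_inv, SW_ai,
            SW_bi, SW_aj, SW_bj, s1, s2, s3, s4, c1, c2, c3, c4]
        · simp only [MulAut.mul_apply, CC_a_ne h hij hi hj, SW_a_ne h hjk hj hk,
            SW_a_ne h hij hi hj, CC_a_ne h hjk hj hk]
  · intro l
    by_cases hi : l = i
    · subst hi
      simp only [MulAut.mul_apply, CC_ai, CC_bi, CC_aj, CC_bj, cv, map_mul, map_inv, SW_ai,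
        SW_bi, SW_aj, SW_bj, s1, s2, s3, s4, c1, c2, c3, c4]
      group
    · by_cases hj : l = j
      · subst hj
        simp only [MulAut.mul_apply, CC_ai, CC_bi, CC_aj, CC_bj, cv, map_mul, map_inv, SW_ai,
          SW_bi, SW_aj, SW_bj, s1, s2, s3, s4, c1, c2, c3, c4]
      · by_cases hk : l = k
        · subst hk
          simp only [MulAut.mul_apply, CC_ai, CC_bi, CC_aj, CC_bj, cv, map_mul, map_inv, SW_ai,
            SW_bi, SW_aj, SW_bj, s1, s2, s3, s4, c1, c2, c3, c4]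
        · simp only [MulAut.mul_apply, CC_b_ne h hij hi hj, SW_b_ne h hjk hj hk,
            SW_b_ne h hij hi hj, CC_b_ne h hjk hj hk]

end

end Pool.Agent.H.MP_59b15d_al.Deg
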