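import Pool.Agent.H.MP_59b15d_al.lin.Lantern

/-!
The partner of the twist of a handle in the bounding pair of genus one.
-/

set_option autoImplicit false
set_option linter.unusedSimpArgs false

namespace Pool.Agent.H.MP_59b15d_al.Deg

open Pool.MP_59b15d_al.H24T Pool.MP_59b15d_al.H76R Pool.MP_59b15d_al.H73E
open Pool.MP_59b15d_al.H60G Pool.MP_59b15d_al.H40L

section

variable {m : ℕ} {G : Type*} [Group G] {a b : Fin m → G}

/-- The curve parallel to `a j` on the other side of the handle `i`. -/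
def cx (a b : Fin m → G) (i j : Fin m) : G := a i * b i * (a i)⁻¹ * (b i)⁻¹ * a j

/-- The chain of the handle `i` and the twist `CC`. -/
noncomputable def YY (h : IsSurf a b) {i j : Fin m} (hij : (j : ℕ) = i + 1) : MulAut G :=
  (TA h i)⁻¹ * TB h i * CC h i j hij

/-- The twist about the curve `cx`. -/
noncomputable def BT (h : IsSurf a b) {i j : Fin m} (hij : (j : ℕ) = i + 1) : MulAut G :=
  TA h j * (YY h hij * YY h hij * (YY h hij * YY h hij))

variable (h : IsSurf a b) {i j : Fin m} (hij : (j : ℕ) = i + 1)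

theorem BT_chain : TA h j * ((TA h i)⁻¹ * TB h i * CC h i j hij) ^ 4 = BT h hij := by
  rw [BT, YY]
  simp only [pow_succ, pow_zero, one_mul, mul_assoc]

theorem YY_ai : YY h hij (a i) = a i * b i * (a i)⁻¹ := by
  have n1 := ne_of_succ hij
  simp only [YY, MulAut.mul_apply, CC_ai, TB_a, map_mul, TAi_a, TAi_b]
  group

theorem YY_bi : YY h hij (b i) = (b i)⁻¹ * a j * b i * (a i)⁻¹ := by
  have n1 := ne_of_succ hij
  simp only [YY, MulAut.mul_apply, CC_bi, cv, TB_a, TB_b, TB_a_ne h n1, map_mul, map_inv, TAi_a,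
    TAi_b]
  group

theorem YY_aj : YY h hij (a j) = (b i)⁻¹ * a j * b i := by
  have n1 := ne_of_succ hij
  simp only [YY, MulAut.mul_apply, CC_aj, cv, TB_a, TB_b, TB_a_ne h n1, map_mul, map_inv, TAi_a,
    TAi_b]
  group

theorem YY_bj : YY h hij (b j) = b j * (a j)⁻¹ * b i := by
  have n1 := ne_of_succ hij
  simp only [YY, MulAut.mul_apply, CC_bj, cv, TB_a, TB_b, TB_a_ne h n1, map_mul, map_inv, TAi_a,
    TAi_b, TAi_b_ne h n1]
  group

theorem YY_ne {l : Fin m} (h1 : l ≠ i) (h2 : l ≠ j) :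
    YY h hij (a l) = a l ∧ YY h hij (b l) = b l := by
  constructor
  · simp only [YY, MulAut.mul_apply, CC_a_ne h hij h1 h2, TB_a_ne h h1, TAi_a]
  · simp only [YY, MulAut.mul_apply, CC_b_ne h hij h1 h2, TB_b, TAi_b_ne h h1]

theorem BT_ai : BT h hij (a i) = cx a b i j * a i * (cx a b i j)⁻¹ := by
  have n1 := ne_of_succ hij
  simp only [BT, MulAut.mul_apply, YY_ai, YY_bi, YY_aj, YY_bj, map_mul, map_inv, TA_a,
    TA_b_ne h n1.symm, cx]
  group

theorem BT_bi : BT h hij (b i) = cx a b i j * b i * (cx a b i j)⁻¹ := by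
  have n1 := ne_of_succ hij
  simp only [BT, MulAut.mul_apply, YY_ai, YY_bi, YY_aj, YY_bj, map_mul, map_inv, TA_a,
    TA_b_ne h n1.symm, cx]
  group

theorem BT_aj : BT h hij (a j) = cx a b i j * a j * (cx a b i j)⁻¹ := by
  have n1 := ne_of_succ hij
  simp only [BT, MulAut.mul_apply, YY_ai, YY_bi, YY_aj, YY_bj, map_mul, map_inv, TA_a,
    TA_b_ne h n1.symm, cx]
  group

theorem BT_bj : BT h hij (b j) = b j * (cx a b i j)⁻¹ := by
  have n1 := ne_of_succ hij
  simp only [BT, MulAut.mul_apply, YY_ai, YY_bi, YY_aj, YY_bj, map_mul, map_inv, TA_a, TA_b,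
    TA_b_ne h n1.symm, cx]
  group

theorem BT_ne {l : Fin m} (h1 : l ≠ i) (h2 : l ≠ j) :
    BT h hij (a l) = a l ∧ BT h hij (b l) = b l := by
  have e := YY_ne h hij h1 h2
  constructor
  · simp only [BT, MulAut.mul_apply, e.1, TA_a]
  · simp only [BT, MulAut.mul_apply, e.2, TA_b_ne h h2]

theorem BT_cx : BT h hij (cx a b i j) = cx a b i j := by
  have e : cx a b i j = a i * b i * (a i)⁻¹ * (b i)⁻¹ * a j := rfl
  conv_lhs => rw [e]
  simp only [map_mul, map_inv, BT_ai, BT_bi, BT_aj]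
  rw [e]
  group

/-- The element moving the curve `a j` to the curve `cx`. -/
noncomputable def PH (h : IsSurf a b) {i j : Fin m} (hij : (j : ℕ) = i + 1) : MulAut G :=
  (TB h j)⁻¹ * (RR h j * BT h hij * (RR h j)⁻¹)

theorem PH_ai : PH h hij (a i) =
    (cx a b i j * b j * (a j)⁻¹) * a i * (cx a b i j * b j * (a j)⁻¹)⁻¹ := by
  have n1 := ne_of_succ hij
  have r1 := RRi_a_ne h n1.symm
  have r2 := RRi_b_ne h n1.symm
  have r3 := RR_a_ne h n1.symm
  have r4 := RR_b_ne h n1.symm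
  simp only [PH, MulAut.mul_apply, r1, r2, r3, r4, BT_ai, BT_bi, BT_aj, BT_bj, RR_a, RR_b,
    RRi_a, RRi_b, map_mul, map_inv, TBi_a, TBi_b, TBi_a_ne h n1.symm, cx]
  group

theorem PH_bi : PH h hij (b i) =
    (cx a b i j * b j * (a j)⁻¹) * b i * (cx a b i j * b j * (a j)⁻¹)⁻¹ := by
  have n1 := ne_of_succ hij
  have r1 := RRi_a_ne h n1.symm
  have r2 := RRi_b_ne h n1.symm
  have r3 := RR_a_ne h n1.symm
  have r4 := RR_b_ne h n1.symm
  simp only [PH, MulAut.mul_apply, r1, r2, r3, r4, BT_ai, BT_bi, BT_aj, BT_bj, RR_a, RR_b,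
    RRi_a, RRi_b, map_mul, map_inv, TBi_a, TBi_b, TBi_a_ne h n1.symm, cx]
  group

theorem PH_aj : PH h hij (a j) = cx a b i j := by
  have n1 := ne_of_succ hij
  have r1 := RRi_a_ne h n1.symm
  have r2 := RRi_b_ne h n1.symm
  have r3 := RR_a_ne h n1.symm
  have r4 := RR_b_ne h n1.symm
  simp only [PH, MulAut.mul_apply, r1, r2, r3, r4, BT_ai, BT_bi, BT_aj, BT_bj, RR_a, RR_b,
    RRi_a, RRi_b, map_mul, map_inv, TBi_a, TBi_b, TBi_a_ne h n1.symm, cx]
  group

theorem PH_bj : PH h hij (b j) = b j := by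
  have n1 := ne_of_succ hij
  have r1 := RRi_a_ne h n1.symm
  have r2 := RRi_b_ne h n1.symm
  have r3 := RR_a_ne h n1.symm
  have r4 := RR_b_ne h n1.symm
  simp only [PH, MulAut.mul_apply, r1, r2, r3, r4, BT_ai, BT_bi, BT_aj, BT_bj, RR_a, RR_b,
    RRi_a, RRi_b, map_mul, map_inv, TBi_a, TBi_b, TBi_a_ne h n1.symm, cx]
  group

theorem PH_ne {l : Fin m} (h1 : l ≠ i) (h2 : l ≠ j) :
    PH h hij (a l) = a l ∧ PH h hij (b l) = b l := by
  have e := BT_ne h hij h1 h2
  constructor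
  · simp only [PH, MulAut.mul_apply, RRi_a_ne h h2, e.1, RR_a_ne h h2, TBi_a_ne h h2]
  · simp only [PH, MulAut.mul_apply, RRi_b_ne h h2, e.2, RR_b_ne h h2, TBi_b]

theorem PH_TA : PH h hij * (TA h j)⁻¹ = BT h hij * PH h hij := by
  have n1 := ne_of_succ hij
  apply aut_ext h
  · intro l
    by_cases h1 : l = i
    · subst h1
      simp only [MulAut.mul_apply, TAi_a, PH_ai, map_mul, map_inv, BT_cx, BT_ai, BT_aj, BT_bj]
      group
    · by_cases h2 : l = j
      · subst h2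
        simp only [MulAut.mul_apply, TAi_a, PH_aj, BT_cx]
      · simp only [MulAut.mul_apply, TAi_a, (PH_ne h hij h1 h2).1, (BT_ne h hij h1 h2).1]
  · intro l
    by_cases h1 : l = i
    · subst h1
      simp only [MulAut.mul_apply, TAi_b_ne h n1.symm, PH_bi, map_mul, map_inv, BT_cx, BT_bi,
        BT_aj, BT_bj]
      group
    · by_cases h2 : l = j
      · subst h2
        simp only [MulAut.mul_apply, TAi_b, map_mul, map_inv, PH_bj, PH_aj, BT_bj]
      · simp only [MulAut.mul_apply, TAi_b_ne h h2, (PH_ne h hij h1 h2).2,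
          (BT_ne h hij h1 h2).2]

/-- The element exchanging the two handles and moving `a i` to the curve `cx`. -/
noncomputable def HH (h : IsSurf a b) {i j : Fin m} (hij : (j : ℕ) = i + 1) : MulAut G :=
  PH h hij * (SW h i j hij)⁻¹

theorem HH_ai : HH h hij (a i) = cx a b i j := by
  rw [HH, MulAut.mul_apply, SWi_ai, PH_aj]

theorem HH_bi : HH h hij (b i) = b j := by
  rw [HH, MulAut.mul_apply, SWi_bi, PH_bj]

theorem HH_aj : HH h hij (a j) =
    b j * (cx a b i j * (a j)⁻¹) * a i * (b j * (cx a b i j * (a j)⁻¹))⁻¹ := by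
  rw [HH, MulAut.mul_apply, SWi_aj]
  simp only [map_mul, map_inv, PH_ai, PH_aj, PH_bj, cx]
  group

theorem HH_bj : HH h hij (b j) =
    b j * (cx a b i j * (a j)⁻¹) * b i * (b j * (cx a b i j * (a j)⁻¹))⁻¹ := by
  rw [HH, MulAut.mul_apply, SWi_bj]
  simp only [map_mul, map_inv, PH_bi, PH_aj, PH_bj, cx]
  group

theorem HH_ne {l : Fin m} (h1 : l ≠ i) (h2 : l ≠ j) :
    HH h hij (a l) = a l ∧ HH h hij (b l) = b l := by
  constructor
  · rw [HH, MulAut.mul_apply, SWi_a_ne h hij h1 h2, (PH_ne h hij h1 h2).1]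
  · rw [HH, MulAut.mul_apply, SWi_b_ne h hij h1 h2, (PH_ne h hij h1 h2).2]

end

end Pool.Agent.H.MP_59b15d_al.Deg
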