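import Pool.Agent.H.MP_59b15d_al.deg.End1
import Pool.Agent.H.MP_59b15d_al.lin.Blk
import Pool.Agent.H.MP_59b15d_al.pk.Eta2

/-!
The bounding pairs of the handles: from the pairs of genus `q` and `q + 1` to genus one.
-/

set_option autoImplicit false
set_option linter.unusedSimpArgs false

namespace Pool.Agent.H.MP_59b15d_al.Deg

open Pool.MP_59b15d_al.H24T Pool.MP_59b15d_al.H76R Pool.MP_59b15d_al.H73E
open Pool.MP_59b15d_al.H60G Pool.MP_59b15d_al.H40L

section

variable {m : ℕ} {G : Type*} [Group G] {a b : Fin m → G}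
variable (h : IsSurf a b) {i j : Fin m} (hij : (j : ℕ) = i + 1)

theorem RR_mem2 (i : Fin m) : RR h i ∈ MR h i (i + 1) := by
  rw [RR]
  exact mul_mem (mul_mem (inv_mem (TA_mem h i le_rfl (Nat.lt_succ_self _)))
    (TB_mem h i le_rfl (Nat.lt_succ_self _))) (inv_mem (TA_mem h i le_rfl (Nat.lt_succ_self _)))

theorem CC_mem2 : CC h i j hij ∈ MR h i (i + 2) := by
  have h1 := MR_mono h (le_refl (i : ℕ)) (by omega : (i : ℕ) + 1 ≤ i + 2) (RR_mem2 h i)
  rw [CC]
  exact mul_mem (mul_mem (inv_mem h1) (TC_mem h i j hij le_rfl (by omega))) h1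

theorem YY_mem : YY h hij ∈ MR h i (i + 2) := by
  rw [YY]
  exact mul_mem (mul_mem (inv_mem (TA_mem h i le_rfl (by omega)))
    (TB_mem h i le_rfl (by omega))) (CC_mem2 h hij)

theorem BT_mem : BT h hij ∈ MR h i (i + 2) := by
  have h1 := YY_mem h hij
  rw [BT]
  exact mul_mem (TA_mem h j (by omega) (by omega)) (mul_mem (mul_mem h1 h1) (mul_mem h1 h1))

theorem PH_mem : PH h hij ∈ MR h i (i + 2) := by
  have h1 := MR_mono h (by omega : (i : ℕ) ≤ j) (by omega : (j : ℕ) + 1 ≤ i + 2) (RR_mem2 h j)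
  rw [PH]
  exact mul_mem (inv_mem (TB_mem h j (by omega) (by omega)))
    (mul_mem (mul_mem h1 (BT_mem h hij)) (inv_mem h1))

theorem HH_mem : HH h hij ∈ MR h i (i + 2) :=
  mul_mem (PH_mem h hij) (inv_mem (SW_mem h hij))

theorem SW_TAj : SW h i j hij * TA h j = TA h i * SW h i j hij := by
  have n1 := ne_of_succ hij
  apply aut_ext h
  · intro l
    by_cases h1 : l = i
    · subst h1
      simp only [MulAut.mul_apply, TA_a, SW_ai, map_mul, map_inv, TA_b, TA_b_ne h n1]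
      group
    · by_cases h2 : l = j
      · subst h2
        simp only [MulAut.mul_apply, TA_a, SW_aj]
      · simp only [MulAut.mul_apply, TA_a, SW_a_ne h hij h1 h2]
  · intro l
    by_cases h1 : l = i
    · subst h1
      simp only [MulAut.mul_apply, TA_a, SW_bi, map_mul, map_inv, TA_b, TA_b_ne h n1,
        TA_b_ne h n1.symm]
      group
    · by_cases h2 : l = j
      · subst h2
        simp only [MulAut.mul_apply, TA_b, map_mul, SW_aj, SW_bj]
      · simp only [MulAut.mul_apply, TA_b_ne h h1, TA_b_ne h h2, SW_b_ne h hij h1 h2]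

theorem PH_TA' : PH h hij * TA h j = (BT h hij)⁻¹ * PH h hij := by
  have h1 := PH_TA h hij
  rw [eq_inv_mul_iff_mul_eq, ← mul_assoc, ← h1, inv_mul_cancel_right]

theorem HH_TA : HH h hij * TA h i * (HH h hij)⁻¹ = (BT h hij)⁻¹ := by
  have h1 := SW_TAj h hij
  have h2 := PH_TA' h hij
  have h3 : (SW h i j hij)⁻¹ * TA h i = TA h j * (SW h i j hij)⁻¹ := by
    rw [inv_mul_eq_iff_eq_mul, ← mul_assoc, h1, mul_inv_cancel_right]
  rw [mul_inv_eq_iff_eq_mul, HH, mul_assoc, h3, ← mul_assoc, h2, mul_assoc]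

/-- The transport of the bounding pairs. -/
theorem BT_transport {k : Fin m} (hjk : (k : ℕ) = j + 1) :
    (SW h j k hjk * SW h i j hij) * BT h hjk = BT h hij * (SW h j k hjk * SW h i j hij) := by
  have n1 := ne_of_succ hij
  have n2 := ne_of_succ hjk
  have n3 := ne_ik hij hjk
  have s1 := SW_a_ne h hjk n1.symm n3.symm
  have s2 := SW_b_ne h hjk n1.symm n3.symm
  have s3 := SW_a_ne h hij n3 n2
  have s4 := SW_b_ne h hij n3 n2
  have b1 := (BT_ne h hjk n1.symm n3.symm).1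
  have b2 := (BT_ne h hjk n1.symm n3.symm).2
  have b3 := (BT_ne h hij n3 n2).1
  have b4 := (BT_ne h hij n3 n2).2
  apply aut_ext h
  · intro l
    by_cases h1 : l = i
    · subst h1
      simp only [MulAut.mul_apply, b1, b2, b3, b4, s1, s2, s3, s4, BT_ai, BT_bi, BT_aj, BT_bj, cx,
        SW_ai, SW_bi, SW_aj, SW_bj, map_mul, map_inv]
      group
    · by_cases h2 : l = j
      · subst h2
        simp only [MulAut.mul_apply, b1, b2, b3, b4, s1, s2, s3, s4, BT_ai, BT_bi, BT_aj, BT_bj,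
          cx, SW_ai, SW_bi, SW_aj, SW_bj, map_mul, map_inv]
      · by_cases h3 : l = k
        · subst h3
          simp only [MulAut.mul_apply, b1, b2, b3, b4, s1, s2, s3, s4, BT_ai, BT_bi, BT_aj, BT_bj,
            cx, SW_ai, SW_bi, SW_aj, SW_bj, map_mul, map_inv]
        · simp only [MulAut.mul_apply, (BT_ne h hjk h2 h3).1, SW_a_ne h hij h1 h2,
            SW_a_ne h hjk h2 h3, (BT_ne h hij h1 h2).1]
  · intro l
    by_cases h1 : l = i
    · subst h1
      simp only [MulAut.mul_apply, b1, b2, b3, b4, s1, s2, s3, s4, BT_ai, BT_bi, BT_aj, BT_bj, cx,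
        SW_ai, SW_bi, SW_aj, SW_bj, map_mul, map_inv]
      group
    · by_cases h2 : l = j
      · subst h2
        simp only [MulAut.mul_apply, b1, b2, b3, b4, s1, s2, s3, s4, BT_ai, BT_bi, BT_aj, BT_bj,
          cx, SW_ai, SW_bi, SW_aj, SW_bj, map_mul, map_inv]
      · by_cases h3 : l = k
        · subst h3
          simp only [MulAut.mul_apply, b1, b2, b3, b4, s1, s2, s3, s4, BT_ai, BT_bi, BT_aj, BT_bj,
            cx, SW_ai, SW_bi, SW_aj, SW_bj, map_mul, map_inv]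
        · simp only [MulAut.mul_apply, (BT_ne h hjk h2 h3).2, SW_b_ne h hij h1 h2,
            SW_b_ne h hjk h2 h3, (BT_ne h hij h1 h2).2]

theorem TA_transport {k : Fin m} (hjk : (k : ℕ) = j + 1) :
    (SW h j k hjk * SW h i j hij) * TA h k = TA h j * (SW h j k hjk * SW h i j hij) := by
  have n1 := ne_of_succ hij
  have n2 := ne_of_succ hjk
  have n3 := ne_ik hij hjk
  have h1 : SW h i j hij * TA h k = TA h k * SW h i j hij := by
    exact Pool.Agent.H.MP_59b15d_al.Lin.MR_comm h (by omega : (i : ℕ) + 2 ≤ k) (SW_mem h hij)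
      (TA_mem h k le_rfl (Nat.lt_succ_self _))
  rw [mul_assoc, h1, ← mul_assoc, SW_TAj, mul_assoc]

/-- The values of the twist about the curve `c = DD q * a q`. -/
structure TqV (a b : Fin m → G) (q : Fin m) (T : MulAut G) : Prop where
  al : ∀ l : Fin m, (l : ℕ) < q → T (a l) = DD a b q * a q * a l * (DD a b q * a q)⁻¹
  bl : ∀ l : Fin m, (l : ℕ) < q → T (b l) = DD a b q * a q * b l * (DD a b q * a q)⁻¹
  aq : T (a q) = DD a b q * a q * (DD a b q)⁻¹
  bq : T (b q) = b q * (DD a b q * a q)⁻¹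
  ar : ∀ l : Fin m, (q : ℕ) < l → T (a l) = a l
  br : ∀ l : Fin m, (q : ℕ) < l → T (b l) = b l

theorem TqV.DD {q : Fin m} {T : MulAut G} (hT : TqV a b q T) :
    T (DD a b q) = DD a b q * a q * DD a b q * (DD a b q * a q)⁻¹ := by
  refine DD_conj (f := T) (c := Pool.MP_59b15d_al.H60G.DD a b q * a q) q fun l hl => ?_
  have hlm : l < m := lt_trans hl q.2
  rw [ex_lt a hlm, ex_lt b hlm]
  exact ⟨hT.al ⟨l, hlm⟩ hl, hT.bl ⟨l, hlm⟩ hl⟩

theorem TqV.c {q : Fin m} {T : MulAut G} (hT : TqV a b q T) :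
    T (Pool.MP_59b15d_al.H60G.DD a b q * a q) = Pool.MP_59b15d_al.H60G.DD a b q * a q := by
  rw [map_mul, hT.DD, hT.aq]
  group

/-- The first twist is the twist of the first handle. -/
theorem TqV_zero (h0 : 0 < m) : TqV a b ⟨0, h0⟩ (TA h ⟨0, h0⟩)⁻¹ where
  al l hl := absurd hl (Nat.not_lt_zero _)
  bl l hl := absurd hl (Nat.not_lt_zero _)
  aq := by
    rw [TAi_a]
    simp only [DD_zero, one_mul, inv_one, mul_one]
  bq := by
    rw [TAi_b]
    simp only [DD_zero, one_mul]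
  ar l hl := TAi_a h _ _
  br l hl := TAi_b_ne h (fun h1 => by rw [h1] at hl; exact lt_irrefl _ hl)

/-- Two automorphisms with the same values are equal. -/
theorem TqV.unique (h : IsSurf a b) {q : Fin m} {T T' : MulAut G} (hT : TqV a b q T) (hT' : TqV a b q T') :
    T = T' := by
  apply aut_ext h
  · intro l
    rcases lt_trichotomy (l : ℕ) q with h1 | h1 | h1
    · rw [hT.al l h1, hT'.al l h1]
    · have : l = q := Fin.ext h1
      rw [this, hT.aq, hT'.aq]
    · rw [hT.ar l h1, hT'.ar l h1]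
  · intro l
    rcases lt_trichotomy (l : ℕ) q with h1 | h1 | h1
    · rw [hT.bl l h1, hT'.bl l h1]
    · have : l = q := Fin.ext h1
      rw [this, hT.bq, hT'.bq]
    · rw [hT.br l h1, hT'.br l h1]

theorem HH_DD : HH h hij (DD a b i) = DD a b i := by
  refine DD_fix (f := HH h hij) i fun l hl => ?_
  have hlm : l < m := lt_trans hl i.2
  rw [ex_lt a hlm, ex_lt b hlm]
  exact HH_ne h hij (fun h1 => by rw [Fin.ext_iff] at h1; simp only at h1; omega)
    (fun h1 => by rw [Fin.ext_iff] at h1; simp only at h1; omega)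

include hij in
theorem DD_j : DD a b j * a j = DD a b i * cx a b i j := by
  have h1 : DD a b j = DD a b i * (a i * b i * (a i)⁻¹ * (b i)⁻¹) := by
    have h2 : DD a b (j : ℕ) = DD a b ((i : ℕ) + 1) := by rw [hij]
    rw [h2, DD_succ, cm, ex_val, ex_val]
  rw [h1, cx]
  group

/-- The conjugate by `HH` is the next twist. -/
theorem TqV.succ {T : MulAut G} (hT : TqV a b i T) :
    TqV a b j (HH h hij * T * (HH h hij)⁻¹) := by
  have n1 := ne_of_succ hij
  obtain ⟨D, hD⟩ : ∃ D, D = Pool.MP_59b15d_al.H60G.DD a b i := ⟨_, rfl⟩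
  obtain ⟨X, hX⟩ : ∃ X, X = a i * b i * (a i)⁻¹ * (b i)⁻¹ := ⟨_, rfl⟩
  obtain ⟨e, he⟩ : ∃ e, e = Pool.MP_59b15d_al.H60G.DD a b j * a j := ⟨_, rfl⟩
  have ex1 : cx a b i j = X * a j := by rw [hX]; rfl
  have e1 : e = D * (X * a j) := by rw [he, hD, DD_j hij, ex1]
  have eD : Pool.MP_59b15d_al.H60G.DD a b j = D * X := by
    have h1 : Pool.MP_59b15d_al.H60G.DD a b j = e * (a j)⁻¹ := by rw [he]; group
    rw [h1, e1]; group
  have hHD : HH h hij D = D := by rw [hD]; exact HH_DD h hij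
  obtain ⟨T', hT'⟩ : ∃ T', T' = HH h hij * T * (HH h hij)⁻¹ := ⟨_, rfl⟩
  have key : ∀ y, T' (HH h hij y) = HH h hij (T y) := by
    intro y
    rw [hT', MulAut.mul_apply, MulAut.mul_apply, MulAut.inv_apply_self]
  rw [← hT']
  have hHc : HH h hij (D * a i) = e := by rw [map_mul, hHD, HH_ai, ex1, e1]
  have tA : T (a i) = D * a i * D⁻¹ := by rw [hD]; exact hT.aq
  have tB : T (b i) = b i * (D * a i)⁻¹ := by rw [hD]; exact hT.bq
  have tl : ∀ l : Fin m, (l : ℕ) < i → T (a l) = D * a i * a l * (D * a i)⁻¹ ∧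
      T (b l) = D * a i * b l * (D * a i)⁻¹ := by
    intro l hl
    rw [hD]
    exact ⟨hT.al l hl, hT.bl l hl⟩
  have H1 : HH h hij (D * a i * D⁻¹) = e * D⁻¹ := by
    rw [map_mul (HH h hij) (D * a i), hHc, map_inv, hHD]
  have H2 : HH h hij (b i * (D * a i)⁻¹) = b j * e⁻¹ := by
    rw [map_mul (HH h hij) (b i), map_inv, hHc, HH_bi]
  have H3 : ∀ y, HH h hij (D * a i * y * (D * a i)⁻¹) = e * HH h hij y * e⁻¹ := by
    intro y
    rw [map_mul (HH h hij) (D * a i * y), map_mul (HH h hij) (D * a i), map_inv, hHc]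
  have k1 : T' (X * a j) = e * D⁻¹ := by
    have h1 := key (a i)
    rw [HH_ai, ex1, tA, H1] at h1
    exact h1
  have k2 : T' (b j) = b j * e⁻¹ := by
    have h1 := key (b i)
    rw [HH_bi, tB, H2] at h1
    exact h1
  have hw : cx a b i j * (a j)⁻¹ = X := by rw [ex1]; group
  have hji : (i : ℕ) < j := by omega
  have k3 : T' (b j * X * a i * (b j * X)⁻¹) = b j * X * a i * (b j * X)⁻¹ := by
    have h1 := key (a j)
    rw [HH_aj, hw, hT.ar j hji, HH_aj, hw] at h1
    exact h1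
  have k4 : T' (b j * X * b i * (b j * X)⁻¹) = b j * X * b i * (b j * X)⁻¹ := by
    have h1 := key (b j)
    rw [HH_bj, hw, hT.br j hji, HH_bj, hw] at h1
    exact h1
  obtain ⟨Z, hZ⟩ : ∃ Z, Z = T' X := ⟨_, rfl⟩
  have k5 : T' (a i) = (e⁻¹ * Z)⁻¹ * (X * a i * X⁻¹) * (e⁻¹ * Z) := by
    rw [map_mul, map_inv, map_mul, map_mul, k2, ← hZ] at k3
    calc T' (a i) = (e⁻¹ * Z)⁻¹ * (b j)⁻¹ * (b j * e⁻¹ * Z * T' (a i) *
        (b j * e⁻¹ * Z)⁻¹) * b j * (e⁻¹ * Z) := by group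
      _ = _ := by rw [k3]; group
  have k6 : T' (b i) = (e⁻¹ * Z)⁻¹ * (X * b i * X⁻¹) * (e⁻¹ * Z) := by
    rw [map_mul, map_inv, map_mul, map_mul, k2, ← hZ] at k4
    calc T' (b i) = (e⁻¹ * Z)⁻¹ * (b j)⁻¹ * (b j * e⁻¹ * Z * T' (b i) *
        (b j * e⁻¹ * Z)⁻¹) * b j * (e⁻¹ * Z) := by group
      _ = _ := by rw [k4]; group
  have k7 : Z = (e⁻¹ * Z)⁻¹ * X * (e⁻¹ * Z) := by
    have h1 : T' X = (e⁻¹ * Z)⁻¹ * X * (e⁻¹ * Z) := by
      conv_lhs => rw [hX]
      simp only [map_mul, map_inv, k5, k6]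
      rw [hX]
      group
    rw [← hZ] at h1
    exact h1
  have k8 : Z = e * X * e⁻¹ := by
    calc Z = e * (e⁻¹ * Z) * Z * (e⁻¹ * Z)⁻¹ * e⁻¹ := by group
      _ = e * (e⁻¹ * Z) * ((e⁻¹ * Z)⁻¹ * X * (e⁻¹ * Z)) * (e⁻¹ * Z)⁻¹ * e⁻¹ := by
        rw [← k7]
      _ = _ := by group
  have k9 : T' (a i) = e * a i * e⁻¹ := by rw [k5, k8]; group
  have k10 : T' (b i) = e * b i * e⁻¹ := by rw [k6, k8]; group
  have kl : ∀ l : Fin m, (l : ℕ) < i → T' (a l) = e * a l * e⁻¹ ∧ T' (b l) = e * b l * e⁻¹ := by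
    intro l hl
    have h1 : l ≠ i := fun h1 => by rw [h1] at hl; exact lt_irrefl _ hl
    have h2 : l ≠ j := fun h2 => by rw [h2] at hl; omega
    have h3 := key (a l)
    have h4 := key (b l)
    rw [(HH_ne h hij h1 h2).1, (tl l hl).1, H3, (HH_ne h hij h1 h2).1] at h3
    rw [(HH_ne h hij h1 h2).2, (tl l hl).2, H3, (HH_ne h hij h1 h2).2] at h4
    exact ⟨h3, h4⟩
  have kr : ∀ l : Fin m, (j : ℕ) < l → T' (a l) = a l ∧ T' (b l) = b l := by
    intro l hl
    have h1 : l ≠ i := fun h1 => by rw [h1] at hl; omega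
    have h2 : l ≠ j := fun h2 => by rw [h2] at hl; exact lt_irrefl _ hl
    have h3 := key (a l)
    have h4 := key (b l)
    rw [(HH_ne h hij h1 h2).1, hT.ar l (by omega), (HH_ne h hij h1 h2).1] at h3
    rw [(HH_ne h hij h1 h2).2, hT.br l (by omega), (HH_ne h hij h1 h2).2] at h4
    exact ⟨h3, h4⟩
  refine ⟨fun l hl => ?_, fun l hl => ?_, ?_, ?_, fun l hl => (kr l hl).1,
    fun l hl => (kr l hl).2⟩
  · rw [← he]
    rcases Nat.lt_or_ge (l : ℕ) i with h1 | h1
    · exact (kl l h1).1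
    · have : l = i := Fin.ext (by omega)
      rw [this]
      exact k9
  · rw [← he]
    rcases Nat.lt_or_ge (l : ℕ) i with h1 | h1
    · exact (kl l h1).2
    · have : l = i := Fin.ext (by omega)
      rw [this]
      exact k10
  · rw [← he, eD]
    have h1 : T' (a j) = (T' X)⁻¹ * T' (X * a j) := by rw [map_mul]; group
    rw [h1, ← hZ, k8, k1]
    group
  · rw [← he]
    exact k2

/-- The twists `T'_q` exist in the mapping class group. -/
theorem exists_Tq (q : Fin m) : ∃ T ∈ MMs h, TqV a b q T := by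
  have key : ∀ n : ℕ, ∀ hn : n < m, ∃ T ∈ MMs h, TqV a b ⟨n, hn⟩ T := by
    intro n
    induction n with
    | zero =>
      intro hn
      exact ⟨(TA h ⟨0, hn⟩)⁻¹, inv_mem (Subgroup.subset_closure (Or.inr (Or.inl ⟨_, rfl⟩))),
        TqV_zero h hn⟩
    | succ n ih =>
      intro hn
      obtain ⟨T, h1, h2⟩ := ih (by omega)
      have h3 := MR_le_MMs h _ _ (HH_mem h (i := ⟨n, by omega⟩) (j := ⟨n + 1, hn⟩) rfl)
      exact ⟨_, mul_mem (mul_mem h3 h1) (inv_mem h3),
        TqV.succ h (i := ⟨n, by omega⟩) (j := ⟨n + 1, hn⟩) rfl h2⟩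
  exact key q q.2

/-- **From the bounding pairs of genus `q` and `q + 1` to all standard pairs of genus one.** -/
theorem BT_all (K : Subgroup (MulAut G)) (hK : ∀ ψ ∈ MMs h, ∀ x ∈ K, ψ * x * ψ⁻¹ ∈ K)
    {q q' : Fin m} (hq : (q' : ℕ) = q + 1) {T T' : MulAut G} (hT : TqV a b q T)
    (hT' : TqV a b q' T') (h1 : TA h q * T ∈ K) (h2 : TA h q' * T' ∈ K) :
    ∀ (i j : Fin m) (hij : (j : ℕ) = i + 1), BT h hij * TA h j ∈ K := by
  have tA : ∀ i : Fin m, TA h i ∈ MMs h := fun i =>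
    Subgroup.subset_closure (Or.inr (Or.inl ⟨_, rfl⟩))
  have base : BT h hq * TA h q' ∈ K := by
    have h3 := MR_le_MMs h _ _ (HH_mem h hq)
    have h4 := hK _ h3 _ h1
    have h5 : HH h hq * (TA h q * T) * (HH h hq)⁻¹ = (BT h hq)⁻¹ * T' := by
      rw [← (TqV.succ h hq hT).unique h hT', ← HH_TA h hq]
      group
    rw [h5] at h4
    have h6 := mul_mem h4 (inv_mem h2)
    have h7 := hK _ (inv_mem (tA q')) _ (inv_mem h6)
    have h8 : (TA h q')⁻¹ * ((BT h hq)⁻¹ * T' * (TA h q' * T')⁻¹)⁻¹ * (TA h q')⁻¹⁻¹ =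
        BT h hq * TA h q' := by group
    rwa [h8] at h7
  -- transport
  have step : ∀ (i j k : Fin m) (hij : (j : ℕ) = i + 1) (hjk : (k : ℕ) = j + 1),
      BT h hij * TA h j ∈ K ↔ BT h hjk * TA h k ∈ K := by
    intro i j k hij hjk
    have m1 : SW h j k hjk * SW h i j hij ∈ MMs h :=
      mul_mem (MR_le_MMs h _ _ (SW_mem h hjk)) (MR_le_MMs h _ _ (SW_mem h hij))
    have e1 := BT_transport h hij hjk
    have e2 := TA_transport h hij hjk
    obtain ⟨τ, hτ⟩ : ∃ τ, τ = SW h j k hjk * SW h i j hij := ⟨_, rfl⟩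
    rw [← hτ] at e1 e2 m1
    have e3 : τ * (BT h hjk * TA h k) * τ⁻¹ = BT h hij * TA h j := by
      rw [← mul_assoc, e1, mul_assoc (BT h hij), e2, ← mul_assoc, mul_inv_cancel_right]
    constructor
    · intro h3
      have h4 := hK _ (inv_mem m1) _ h3
      rw [← e3] at h4
      have h5 : τ⁻¹ * (τ * (BT h hjk * TA h k) * τ⁻¹) * τ⁻¹⁻¹ = BT h hjk * TA h k := by group
      rwa [h5] at h4
    · intro h3
      rw [← e3]
      exact hK _ m1 _ h3
  -- all pairs
  have down : ∀ n : ℕ, ∀ (i j : Fin m) (hij : (j : ℕ) = i + 1), (i : ℕ) + n = q →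
      BT h hij * TA h j ∈ K := by
    intro n
    induction n with
    | zero =>
      intro i j hij hi
      have e1 : i = q := Fin.ext (by omega)
      subst e1
      have e2 : j = q' := Fin.ext (by omega)
      subst e2
      exact base
    | succ n ih =>
      intro i j hij hi
      have hk : (j : ℕ) + 1 < m := by have := q'.2; omega
      exact (step i j ⟨j + 1, hk⟩ hij rfl).2 (ih j ⟨j + 1, hk⟩ rfl (by omega))
  have up : ∀ n : ℕ, ∀ (i j : Fin m) (hij : (j : ℕ) = i + 1), (i : ℕ) = q + n →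
      BT h hij * TA h j ∈ K := by
    intro n
    induction n with
    | zero =>
      intro i j hij hi
      exact down 0 i j hij (by omega)
    | succ n ih =>
      intro i j hij hi
      have hi2 := i.2
      have e1 : (i : ℕ) = (⟨i - 1, by omega⟩ : Fin m) + 1 := by simp only; omega
      exact (step ⟨i - 1, by omega⟩ i j e1 hij).1 (ih _ i e1 (by simp only; omega))
  intro i j hij
  rcases Nat.le_total (i : ℕ) q with h3 | h3
  · exact down (q - i) i j hij (by omega)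
  · exact up (i - q) i j hij (by omega)

end

section last

variable {n : ℕ} {G : Type*} [Group G] {a b : Fin (n + 1) → G}

/-- The twist `BT` of the last pair, in terms of `PK.gw`. -/
theorem BT_gw (h : IsSurf a b) {i : Fin n} (hi : (i : ℕ) + 1 = n)
    (hl : ((Fin.last n : Fin (n + 1)) : ℕ) = i.castSucc + 1) :
    Pool.Agent.H.MP_59b15d_al.PK.gw h i hl * TA h (Fin.last n) *
      (Pool.Agent.H.MP_59b15d_al.PK.gw h i hl)⁻¹ = (BT h hl)⁻¹ := by
  obtain ⟨v1, v2, v3, v4⟩ := Pool.Agent.H.MP_59b15d_al.PK.gw_vals h hl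
  have hg := Pool.Agent.H.MP_59b15d_al.PK.gw_mem h hi hl
  have hA : TA h (Fin.last n) ∈ MR h (n - 1) (n + 1) :=
    Pool.Agent.H.MP_59b15d_al.PK.TAl_mem2 h
  have hy := mul_mem (mul_mem hg hA) (inv_mem hg)
  obtain ⟨y, hy'⟩ : ∃ y, y = Pool.Agent.H.MP_59b15d_al.PK.gw h i hl * TA h (Fin.last n) *
    (Pool.Agent.H.MP_59b15d_al.PK.gw h i hl)⁻¹ := ⟨_, rfl⟩
  rw [← hy'] at v1 v2 v3 v4 hy ⊢
  have hB : BT h hl ∈ MR h (n - 1) (n + 1) := by
    have h1 := BT_mem h hl
    have e1 : ((i.castSucc : Fin (n + 1)) : ℕ) = n - 1 := by rw [Fin.val_castSucc]; omega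
    have e2 : n - 1 + 2 = n + 1 := by omega
    rwa [e1, e2] at h1
  rw [eq_inv_iff_mul_eq_one]
  refine Pool.Agent.H.MP_59b15d_al.PK.ext_last h (mul_mem hy hB) (one_mem _) fun k hk => ?_
  rcases Pool.Agent.H.MP_59b15d_al.PK.mem_two hi hk with rfl | rfl
  · constructor
    · simp only [MulAut.mul_apply, MulAut.one_apply, BT_ai, cx, map_mul, map_inv, v1, v2, v3, v4]
      group
    · simp only [MulAut.mul_apply, MulAut.one_apply, BT_bi, cx, map_mul, map_inv, v1, v2, v3, v4]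
      group
  · constructor
    · simp only [MulAut.mul_apply, MulAut.one_apply, BT_aj, cx, map_mul, map_inv, v1, v2, v3, v4]
      group
    · simp only [MulAut.mul_apply, MulAut.one_apply, BT_bj, cx, map_mul, map_inv, v1, v2, v3, v4]
      group

end last

end Pool.Agent.H.MP_59b15d_al.Deg
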