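import Pool.Agent.H.MP_59b15d_al.h52e.DegX

/-!
The degree bound with one more group, whose commutator subgroup need not be perfect, of which the
representations of dimension one are trivial on the commutator subgroup.
-/

set_option autoImplicit false

namespace Pool.Agent.H.MP_59b15d_al.Lft

universe u v w

open Module Pool.Agent.H.MP_59b15d_al.Lin Pool.Agent.H.MP_59b15d_al.H52E

/-- One more group. -/
def Gx {ι : Type*} (R : Type w) (G : ι → Type w) : Option ι → Type w
  | none => R
  | some i => G i

instance instGx {ι : Type*} {R : Type w} [Group R] {G : ι → Type w} [∀ i, Group (G i)] :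
    ∀ o, Group (Gx R G o)
  | none => inferInstanceAs (Group R)
  | some i => inferInstanceAs (Group (G i))

section

variable {F : Type u} [Field F] {ι : Type*} {R : Type w} [Group R] {G : ι → Type w}
  [∀ i, Group (G i)] {V : Type v} [AddCommGroup V] [Module F V]

/-- One more representation. -/
def rx (τ : R →* Module.End F V) (ρ : ∀ i, G i →* Module.End F V) :
    ∀ o, Gx R G o →* Module.End F V
  | none => τ
  | some i => ρ i

/-- One more dimension. -/
def dx (e : ℕ) (d : ι → ℕ) : Option ι → ℕ
  | none => e
  | some i => d i

/-- The one dimensional representations of every group are trivial on the commutator subgroup. -/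
theorem minDimC_two (R : Type w) [Group R] : MinDimC.{u, v, w} F R 2 := by
  intro W _ _ _ σ hW x hx
  have hcomm : ∀ a b : Module.End F W, a * b = b * a := by
    intro a b
    have hs : ∀ a : Module.End F W, ∃ c : F, ∀ w, a w = c • w := by
      intro a
      rcases subsingleton_or_nontrivial W with hW' | hW'
      · exact ⟨0, fun w => Subsingleton.elim _ _⟩
      · have h1 : finrank F W = 1 := by
          have := finrank_pos (R := F) (M := W)
          omega
        obtain ⟨e, he, hs⟩ := finrank_eq_one_iff'.1 h1
        obtain ⟨c, hc⟩ := hs (a e)
        refine ⟨c, fun w => ?_⟩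
        obtain ⟨t, rfl⟩ := hs w
        rw [map_smul, ← hc, smul_comm]
    obtain ⟨c, hc⟩ := hs a
    obtain ⟨e, he⟩ := hs b
    ext w
    rw [Module.End.mul_apply, Module.End.mul_apply, hc, he, hc, he, smul_comm]
  have h1 : commutator R ≤ σ.ker := by
    rw [commutator_def, Subgroup.commutator_le]
    intro a _ b _
    rw [MonoidHom.mem_ker, commutatorElement_def, map_mul, map_mul, map_mul, hcomm (σ a) (σ b),
      ← map_mul, ← map_mul, ← map_mul, show b * a * a⁻¹ * b⁻¹ = 1 by group, map_one]
  exact h1 hx

/-- The kernel of the representation of a product group. -/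
theorem px_zero_one [IsAlgClosed F] {d : ι → ℕ} (hd : ∀ i, MinDimC.{u, v, w} F (G i) (d i))
    (hG : ∀ i, ∀ x : commutator (G i), x ∈ commutator (commutator (G i)))
    (l : List ι) (hl : l.Nodup) (hmem : ∀ i, i ∈ l) :
    ∀ (n : ℕ) (V : Type v) [AddCommGroup V] [Module F V] [FiniteDimensional F V]
      (ρ : ∀ i, G i →* Module.End F V) (τ : R →* Module.End F V),
      (∀ i j, i ≠ j → ∀ x y, ρ i x * ρ j y = ρ j y * ρ i x) →
      (∀ i x y, τ x * ρ i y = ρ i y * τ x) → finrank F V = n →
      n < 2 * (l.map d).prod → ∀ r ∈ commutator R, ∀ L : List (Σ i, commutator (G i)),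
        L.map Sigma.fst = l → (τ r - 1) * px ρ L = 0 := by
  classical
  intro n
  induction n using Nat.strong_induction_on with
  | _ n ih =>
    intro V _ _ _ ρ τ hcomm hcR hn hlt r hr L hL
    by_cases hirr : ∀ U : Submodule F V, (∀ i x, ∀ u ∈ U, ρ i x u ∈ U) →
        (∀ x, ∀ u ∈ U, τ x u ∈ U) → U = ⊥ ∨ U = ⊤
    · rcases subsingleton_or_nontrivial V with hV | hV
      · ext v
        exact Subsingleton.elim _ _
      · by_cases h1 : ∀ i ∈ l.toFinset, ∃ x ∈ commutator (G i), ρ i x ≠ 1
        · by_cases h0 : ∃ x ∈ commutator R, τ x ≠ 1
          · exfalso
            have hd' : ∀ o : Option ι, MinDimC.{u, v, w} F (Gx R G o) (dx 2 d o)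
              | none => minDimC_two R
              | some i => hd i
            have h2 := irr_boundC (G := Gx R G) (d := dx 2 d) hd'
              (insert none (l.toFinset.map ⟨some, Option.some_injective ι⟩)) V (rx τ ρ) (by
                rintro (_ | i) (_ | j) hij x y
                · exact absurd rfl hij
                · exact hcR j x y
                · exact (hcR i y x).symm
                · exact hcomm i j (fun h => hij (congrArg some h)) x y) (by
                intro U hU
                refine hirr U (fun i x u hu => ?_) fun x u hu => ?_
                · exact hU (some i) (by simp [hmem]) x u hu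
                · exact hU none (by simp) x u hu) (by
                rintro (_ | i) hi
                · exact h0
                · refine h1 i ?_
                  simpa using hi)
            rw [Finset.prod_insert (by simp), Finset.prod_map] at h2
            have h3 : ∏ i ∈ l.toFinset, dx 2 d ((⟨some, Option.some_injective ι⟩ :
                ι ↪ Option ι) i) = (l.map d).prod := List.prod_toFinset d hl
            rw [h3, hn] at h2
            exact absurd hlt (not_lt.2 h2)
          · push Not at h0
            rw [h0 r hr, sub_self, zero_mul]
        · push Not at h1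
          obtain ⟨i, hi, h1⟩ := h1
          rw [List.mem_toFinset, ← hL, List.mem_map] at hi
          obtain ⟨p, hp, rfl⟩ := hi
          have h2 : px ρ L = 0 := by
            apply List.prod_eq_zero
            rw [List.mem_map]
            refine ⟨p, hp, ?_⟩
            rw [h1 _ p.2.2, sub_self]
          rw [h2, mul_zero]
    · push Not at hirr
      obtain ⟨U, hU, hUt, hU1, hU2⟩ := hirr
      have hsum := Submodule.finrank_quotient_add_finrank U
      have hpos1 : 0 < finrank F U := by
        have : Nontrivial U := (Submodule.nontrivial_iff_ne_bot).2 hU1
        exact Module.finrank_pos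
      have hlt1 : finrank F U < finrank F V := Submodule.finrank_lt hU2
      have cU : ∀ i j, i ≠ j → ∀ x y, resRep (ρ i) U (hU i) x * resRep (ρ j) U (hU j) y =
          resRep (ρ j) U (hU j) y * resRep (ρ i) U (hU i) x := by
        intro i j hij x y
        apply LinearMap.ext
        intro u
        apply Subtype.ext
        exact LinearMap.congr_fun (hcomm i j hij x y) (u : V)
      have cQ : ∀ i j, i ≠ j → ∀ x y, quotRep (ρ i) U (hU i) x * quotRep (ρ j) U (hU j) y =
          quotRep (ρ j) U (hU j) y * quotRep (ρ i) U (hU i) x := by
        intro i j hij x y
        apply LinearMap.ext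
        intro u
        induction u using Submodule.Quotient.induction_on with
        | _ u =>
          have h1 := LinearMap.congr_fun (hcomm i j hij x y) u
          exact congrArg (Submodule.Quotient.mk (p := U)) h1
      -- the operators which commute with `τ r - 1`
      have hcomm' : ∀ X ∈ pxS ρ l, (τ r - 1) * X = X * (τ r - 1) := by
        let Φ : Submodule F (Module.End F V) :=
          { carrier := {X | (τ r - 1) * X = X * (τ r - 1)}
            add_mem' := by
              intro A B hA hB
              change (τ r - 1) * (A + B) = (A + B) * (τ r - 1)
              have hA' : (τ r - 1) * A = A * (τ r - 1) := hA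
              have hB' : (τ r - 1) * B = B * (τ r - 1) := hB
              rw [mul_add, add_mul, hA', hB']
            zero_mem' := by
              change (τ r - 1) * 0 = 0 * (τ r - 1)
              rw [mul_zero, zero_mul]
            smul_mem' := by
              intro c A hA
              change (τ r - 1) * (c • A) = (c • A) * (τ r - 1)
              have hA' : (τ r - 1) * A = A * (τ r - 1) := hA
              rw [mul_smul_comm, smul_mul_assoc, hA'] }
        have h0 : ∀ L : List (Σ i, commutator (G i)),
            (τ r - 1) * px ρ L = px ρ L * (τ r - 1) := by
          intro L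
          induction L with
          | nil => rw [px_nil, mul_one, one_mul]
          | cons p L ihL =>
            have h2 : (τ r - 1) * (ρ p.1 p.2 - 1) = (ρ p.1 p.2 - 1) * (τ r - 1) := by
              simp only [sub_mul, mul_sub, hcR p.1 r p.2, one_mul, mul_one]
              abel
            rw [px_cons, ← mul_assoc, h2, mul_assoc, ihL, mul_assoc]
        have h1 : pxS ρ l ≤ Φ := pxS_le ρ l Φ fun L _ => h0 L
        exact fun X hX => h1 hX
      -- products
      have key : ∀ Φ₁ Φ₂ : Submodule F (Module.End F V),
          (∀ L : List (Σ i, commutator (G i)), L.map Sigma.fst = l → px ρ L ∈ Φ₁) →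
          (∀ L : List (Σ i, commutator (G i)), L.map Sigma.fst = l → px ρ L ∈ Φ₂) →
          (∀ X₁ ∈ pxS ρ l, ∀ X₂ ∈ pxS ρ l, X₁ ∈ Φ₁ → X₂ ∈ Φ₂ → (τ r - 1) * (X₁ * X₂) = 0) →
          (τ r - 1) * px ρ L = 0 := by
        intro Φ₁ Φ₂ h1 h2 h3
        have h4 : px ρ L ∈ pxS ρ l * pxS ρ l :=
          pxS_idem ρ hcomm hG l hl (hL ▸ px_mem ρ L)
        let Ψ : Submodule F (Module.End F V) :=
          { carrier := {X | (τ r - 1) * X = 0}
            add_mem' := by
              intro A B hA hB
              change (τ r - 1) * (A + B) = 0
              have hA' : (τ r - 1) * A = 0 := hA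
              have hB' : (τ r - 1) * B = 0 := hB
              rw [mul_add, hA', hB', add_zero]
            zero_mem' := mul_zero _
            smul_mem' := by
              intro c A hA
              change (τ r - 1) * (c • A) = 0
              have hA' : (τ r - 1) * A = 0 := hA
              rw [mul_smul_comm, hA', smul_zero] }
        have h5 : pxS ρ l * pxS ρ l ≤ Ψ := by
          rw [Submodule.mul_le]
          intro X₁ hX₁ X₂ hX₂
          exact h3 X₁ hX₁ X₂ hX₂ (pxS_le ρ l Φ₁ h1 hX₁) (pxS_le ρ l Φ₂ h2 hX₂)
        exact h5 h4
      rcases Nat.lt_or_ge (finrank F U) (l.map d).prod with hs | hs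
      · -- `px` kills `U`
        have i1 := px_zero hd hG l hl hmem (finrank F U) U (fun i => resRep (ρ i) U (hU i)) cU
          rfl hs
        have i2 := ih (finrank F (V ⧸ U)) (by omega) (V ⧸ U) (fun i => quotRep (ρ i) U (hU i))
          (quotRep τ U hUt) cQ (by
            intro i x y
            apply LinearMap.ext
            intro u
            induction u using Submodule.Quotient.induction_on with
            | _ u =>
              have h1 := LinearMap.congr_fun (hcR i x y) u
              exact congrArg (Submodule.Quotient.mk (p := U)) h1) rfl (by omega) r hr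
        let Φ₁ : Submodule F (Module.End F V) :=
          { carrier := {X | ∀ u ∈ U, X u = 0}
            add_mem' := fun {A B} hA hB u hu => by
              rw [LinearMap.add_apply, hA u hu, hB u hu, add_zero]
            zero_mem' := fun u _ => rfl
            smul_mem' := fun c A hA u hu => by rw [LinearMap.smul_apply, hA u hu, smul_zero] }
        let Φ₂ : Submodule F (Module.End F V) :=
          { carrier := {X | ∀ v, (τ r - 1) (X v) ∈ U}
            add_mem' := fun {A B} hA hB v => by
              rw [LinearMap.add_apply, map_add]
              exact U.add_mem (hA v) (hB v)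
            zero_mem' := fun v => by
              rw [LinearMap.zero_apply, map_zero]
              exact U.zero_mem
            smul_mem' := fun c A hA v => by
              rw [LinearMap.smul_apply, map_smul]
              exact U.smul_mem c (hA v) }
        refine key Φ₁ Φ₂ (fun L hL u hu => ?_) (fun L hL v => ?_) ?_
        · have h3 := congrArg Subtype.val (LinearMap.congr_fun (i1 L hL) ⟨u, hu⟩)
          rw [px_res] at h3
          exact h3
        · have h3 := LinearMap.congr_fun (i2 L hL) (Submodule.Quotient.mk v)
          rw [Module.End.mul_apply, px_quot, LinearMap.sub_apply, quotRep_mk,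
            Module.End.one_apply, ← Submodule.Quotient.mk_sub, LinearMap.zero_apply,
            Submodule.Quotient.mk_eq_zero] at h3
          exact h3
        · intro X₁ hX₁ X₂ hX₂ h1 h2
          rw [← mul_assoc, hcomm' X₁ hX₁, mul_assoc]
          ext v
          exact h1 _ (h2 v)
      · -- `px` maps to `U`
        have i1 := ih (finrank F U) (by omega) U (fun i => resRep (ρ i) U (hU i))
          (resRep τ U hUt) cU (by
            intro i x y
            apply LinearMap.ext
            intro u
            apply Subtype.ext
            exact LinearMap.congr_fun (hcR i x y) (u : V)) rfl (by omega) r hr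
        have i2 := px_zero hd hG l hl hmem (finrank F (V ⧸ U)) (V ⧸ U)
          (fun i => quotRep (ρ i) U (hU i)) cQ rfl (by omega)
        let Φ₁ : Submodule F (Module.End F V) :=
          { carrier := {X | ∀ u ∈ U, (τ r - 1) (X u) = 0}
            add_mem' := fun {A B} hA hB u hu => by
              rw [LinearMap.add_apply, map_add, hA u hu, hB u hu, add_zero]
            zero_mem' := fun u _ => by rw [LinearMap.zero_apply, map_zero]
            smul_mem' := fun c A hA u hu => by
              rw [LinearMap.smul_apply, map_smul, hA u hu, smul_zero] }
        let Φ₂ : Submodule F (Module.End F V) :=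
          { carrier := {X | ∀ v, X v ∈ U}
            add_mem' := fun {A B} hA hB v => by
              rw [LinearMap.add_apply]
              exact U.add_mem (hA v) (hB v)
            zero_mem' := fun v => U.zero_mem
            smul_mem' := fun c A hA v => by
              rw [LinearMap.smul_apply]
              exact U.smul_mem c (hA v) }
        refine key Φ₁ Φ₂ (fun L hL u hu => ?_) (fun L hL v => ?_) ?_
        · have h3 := congrArg Subtype.val (LinearMap.congr_fun (i1 L hL) ⟨u, hu⟩)
          rw [Module.End.mul_apply] at h3
          have h4 : (((resRep τ U hUt r - 1) (px (fun i => resRep (ρ i) U (hU i)) L ⟨u, hu⟩) : U) :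
              V) = (τ r - 1) (px ρ L u) := by
            rw [LinearMap.sub_apply, LinearMap.sub_apply, Module.End.one_apply,
              Module.End.one_apply, Submodule.coe_sub, resRep_apply, px_res]
          rw [h4] at h3
          exact h3
        · have h3 := LinearMap.congr_fun (i2 L hL) (Submodule.Quotient.mk v)
          rw [px_quot, LinearMap.zero_apply, Submodule.Quotient.mk_eq_zero] at h3
          exact h3
        · intro X₁ hX₁ X₂ hX₂ h1 h2
          ext v
          exact h1 _ (h2 v)

end

end Pool.Agent.H.MP_59b15d_al.Lft
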