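import Pool.Agent.H.MP_59b15d_al.deg.FullA
import Pool.Agent.H.MP_59b15d_al.h98p.MixA

/-!
In dimension less than `2 ^ g` the product of the operators `ρ (A i) - 1` over half of the handles
vanishes.
-/

set_option autoImplicit false

namespace Pool.Agent.H.MP_59b15d_al.Lft

universe u v w

open Module Pool.MP_59b15d_al.H95E Pool.MP_59b15d_al.H93E Pool.MP_59b15d_al.H47E
  Pool.MP_59b15d_al.H11D Pool.MP_59b15d_al.H95P Pool.Agent.H.MP_59b15d_al.Lin
  Pool.Agent.H.MP_59b15d_al.H52E Pool.MP_59b15d_al.H98P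
open scoped commutatorElement

/-- **Degree bound** with one more group. -/
theorem prodC_one {F : Type u} [Field F] (K : Type u) [Field K] [Algebra F K] [IsAlgClosed K]
    {Γ : Type w} [Group Γ] {V : Type v} [AddCommGroup V] [Module F V] [FiniteDimensional F V]
    (ρ : Γ →* Module.End F V) {r : ℕ} {G : Fin r → Type w} [∀ i, Group (G i)] {d : Fin r → ℕ}
    {R : Type w} [Group R]
    (hd : ∀ i, MinDimC.{u, max v u, w} K (G i) (d i))
    (hG : ∀ i, ∀ x : commutator (G i), x ∈ commutator (commutator (G i)))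
    (f : ∀ i, G i →* Γ) (hf : ∀ i j, i ≠ j → ∀ x y, f i x * f j y = f j y * f i x)
    (f₀ : R →* Γ) (hf₀ : ∀ i x y, f₀ x * f i y = f i y * f₀ x)
    (hdim : finrank F V < 2 * ∏ i, d i) (x : ∀ i, G i) (hx : ∀ i, x i ∈ commutator (G i))
    (z : R) (hz : z ∈ commutator R) :
    (ρ (f₀ z) - 1) * (List.ofFn fun i => ρ (f i (x i)) - 1).prod = 0 := by
  let σ : ∀ i, G i →* Module.End K (TensorProduct F K V) := fun i => (bc K ρ).comp (f i)
  have h1 := px_zero_one hd hG (List.finRange r) (List.nodup_finRange r) (List.mem_finRange)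
    (finrank K (TensorProduct F K V)) (TensorProduct F K V) σ ((bc K ρ).comp f₀) (by
      intro i j hij x y
      change bc K ρ (f i x) * bc K ρ (f j y) = bc K ρ (f j y) * bc K ρ (f i x)
      rw [← map_mul, ← map_mul, hf i j hij]) (by
      intro i x y
      change bc K ρ (f₀ x) * bc K ρ (f i y) = bc K ρ (f i y) * bc K ρ (f₀ x)
      rw [← map_mul, ← map_mul, hf₀ i]) rfl
    (by
      rw [Module.finrank_baseChange, ← List.ofFn_eq_map, List.prod_ofFn]
      exact hdim) z hz
    ((List.finRange r).map fun i => ⟨i, ⟨x i, hx i⟩⟩) (by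
      rw [List.map_map]
      exact List.map_id _)
  have h2 : ∀ (l : List (Fin r)) (v : V),
      px σ (l.map fun i => ⟨i, ⟨x i, hx i⟩⟩) ((1 : K) ⊗ₜ[F] v) =
        (1 : K) ⊗ₜ[F] ((l.map fun i => ρ (f i (x i)) - 1).prod v) := by
    intro l v
    induction l with
    | nil => rfl
    | cons i l ih =>
      rw [List.map_cons, List.map_cons, px_cons, List.prod_cons, Module.End.mul_apply,
        Module.End.mul_apply, ih, LinearMap.sub_apply, LinearMap.sub_apply, Module.End.one_apply,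
        Module.End.one_apply, TensorProduct.tmul_sub]
      rfl
  rw [List.ofFn_eq_map]
  ext v
  have h3 := h2 (List.finRange r) v
  have h4 := LinearMap.congr_fun h1 ((1 : K) ⊗ₜ[F] v)
  rw [Module.End.mul_apply, h3, LinearMap.zero_apply, LinearMap.sub_apply,
    Module.End.one_apply] at h4
  apply Module.FaithfullyFlat.tensorProduct_mk_injective (A := F) (B := K) V
  change (1 : K) ⊗ₜ[F] _ = (1 : K) ⊗ₜ[F] _
  rw [LinearMap.zero_apply, TensorProduct.tmul_zero, Module.End.mul_apply, LinearMap.sub_apply,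
    Module.End.one_apply, TensorProduct.tmul_sub]
  exact h4

variable {Γ : Type w} [Group Γ] {A B C S : ℕ → Γ} {g : ℕ}

/-- `A⁻¹ B` is a commutator in the group of the handle. -/
theorem ab_mem {lo hi i : ℕ} (h : A i * B i * A i = B i * A i * B i) (h1 : lo ≤ i)
    (h2 : i < hi) : (A i)⁻¹ * B i ∈ ⁅Bk A B C lo hi, Bk A B C lo hi⁆ := by
  have ha : A i ∈ Bk A B C lo hi := A_mem h1 h2
  have hb : B i ∈ Bk A B C lo hi := B_mem h1 h2
  have e : (A i)⁻¹ * B i = ⁅(A i)⁻¹, A i * B i⁆ := by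
    rw [commutatorElement_def]
    have h3 : B i = (A i * B i) * A i * (A i * B i)⁻¹ := by
      rw [h, mul_inv_rev]
      group
    calc (A i)⁻¹ * B i = (A i)⁻¹ * ((A i * B i) * A i * (A i * B i)⁻¹) := by rw [← h3]
      _ = _ := by group
  rw [e]
  exact Subgroup.commutator_mem_commutator (inv_mem ha) (mul_mem ha hb)

/-- Blocks of two handles. -/
theorem deg_two (L : Lk g A B C S) (R : Ln g A B C S) {F : Type u} [Field F] {t : ℕ}
    (hm : 2 * t ≤ g) {V : Type v} [AddCommGroup V] [Module F V] [FiniteDimensional F V]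
    (ρ : Γ →* Module.End F V) (hdim : finrank F V < 4 ^ t) :
    ((List.range t).map fun k => ρ ((A (2 * k))⁻¹ * B (2 * k)) - 1).prod = 0 := by
  have h1 := deg_mixedA L R (t := t) (s := 0) (by omega) ρ (by rw [pow_zero, mul_one]; exact hdim)
    (fun k => (A (2 * k))⁻¹ * B (2 * k)) (fun k hk => by
      have hk' : k < t := hk
      have e1 : lb t k = 2 * k := if_pos hk'
      have e2 : nb t k = 2 := if_pos hk'
      rw [e1, e2]
      exact ab_mem (L.brA _) le_rfl (by omega))
  exact h1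

/-- Blocks of two handles and one more handle. -/
theorem deg_one (L : Lk g A B C S) (R : Ln g A B C S) {F : Type u} [Field F] {t : ℕ}
    (hm : 2 * t ≤ g) {V : Type v} [AddCommGroup V] [Module F V] [FiniteDimensional F V]
    (ρ : Γ →* Module.End F V) (hdim : finrank F V < 2 * 4 ^ t) :
    (ρ ((A (2 * t))⁻¹ * B (2 * t)) - 1) *
      ((List.range t).map fun k => ρ ((A (2 * k))⁻¹ * B (2 * k)) - 1).prod = 0 := by
  let G : Fin t → Type w := fun k => Bk A B C (2 * k) (2 * k + 2)
  let f : ∀ k : Fin t, Bk A B C (2 * (k : ℕ)) (2 * k + 2) →* Γ := fun k =>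
    (Bk A B C (2 * (k : ℕ)) (2 * k + 2)).subtype
  have hex : ∀ k : Fin t, ∃ y ∈ commutator (Bk A B C (2 * (k : ℕ)) (2 * k + 2)),
      f k y = (A (2 * (k : ℕ)))⁻¹ * B (2 * (k : ℕ)) := by
    intro k
    have h1 := ab_mem (C := C) (lo := 2 * (k : ℕ)) (hi := 2 * k + 2) (L.brA (2 * (k : ℕ))) le_rfl
      (by omega)
    rw [← map_comm_sub] at h1
    exact h1
  choose y hy hyx using hex
  obtain ⟨z, hz, hzx⟩ : ∃ z ∈ commutator (Bk A B C (2 * t) (2 * t + 1)),
      (Bk A B C (2 * t) (2 * t + 1)).subtype z = (A (2 * t))⁻¹ * B (2 * t) := by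
    have h1 := ab_mem (C := C) (lo := 2 * t) (hi := 2 * t + 1) (L.brA (2 * t)) le_rfl (by omega)
    rw [← map_comm_sub] at h1
    exact h1
  have hblk := fun k : Fin t => blk_all.{u, max v u, w} (lo := 2 * (k : ℕ)) L R (n := 2)
    (Or.inl rfl) (by have := k.2; omega) (AlgebraicClosure F)
  have h1 := prodC_one (AlgebraicClosure F) ρ (d := fun _ => 4) (fun k => (hblk k).1)
    (fun k => (hblk k).2) f (by
      intro i j hij z w
      have hij' : (i : ℕ) ≠ j := fun h => hij (Fin.ext h)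
      rcases Nat.lt_or_gt_of_ne hij' with hlt | hlt
      · exact Bk_comm L (by omega) z.2 w.2
      · exact (Bk_comm L (by omega) w.2 z.2).symm)
    (Bk A B C (2 * t) (2 * t + 1)).subtype (by
      intro i z w
      have := i.2
      exact (Bk_comm L (by omega) w.2 z.2).symm) (by
      rw [Finset.prod_const, Finset.card_univ, Fintype.card_fin]
      exact hdim) y hy z hz
  rw [List.ofFn_eq_map, hzx] at h1
  rw [← h1, ← List.map_coe_finRange_eq_range, List.map_map]
  congr 2
  refine List.map_congr_left fun k _ => ?_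
  rw [Function.comp_apply, hyx k]

section tree

variable {H : Type w} [Group H] {tA tB tC : ℕ → H}

/-- A homomorphism of a perfect tree group of genus three with the same value at the two twists of
a handle is trivial. -/
theorem kill_tree_ab (T : TreeGrp 3 tA tB tC)
    (hgen : Subgroup.closure (Set.range (tt tA tB tC : Ix 3 → H)) = ⊤)
    (hperf : ∀ x : H, x ∈ commutator H) {Q : Type*} [Group Q] (σ : H →* Q) {j : ℕ} (hj : j < 3)
    (h0 : σ (tA j) = σ (tB j)) (x : H) : σ x = 1 := by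
  have cmm : ∀ {x y : H}, Commute x y → Commute (σ x) (σ y) := fun hc => hc.map σ
  have brd : ∀ {x y : H}, x * y * x = y * x * y → σ x * σ y * σ x = σ y * σ x * σ y := by
    intro x y hb
    rw [← map_mul, ← map_mul, ← map_mul, ← map_mul]
    exact congrArg σ hb
  -- it is enough to have the same values at the `A` of the first two handles
  have fin : σ (tA 1) = σ (tA 0) → σ x = 1 := fun h => kill_tree T hgen hperf σ h x
  rcases (by omega : j = 0 ∨ j = 1 ∨ j = 2) with rfl | rfl | rfl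
  · -- `A 0 = B 0`
    have c0 : σ (tC 0) = σ (tB 0) := braid_eq' (brd (T.BC 0 (by omega))) (by
      rw [← h0]; exact cmm (T.cAC 0 0 (by omega) (by omega)).symm)
    have b1 : σ (tB 1) = σ (tC 0) := braid_eq' (brd (T.CB 0 (by omega))) (by
      rw [c0, ← h0]; exact cmm (T.cAB 0 1 (by omega) (by omega) (by omega)).symm)
    have a1 : σ (tA 1) = σ (tB 1) := braid_eq' (brd (T.AB 1 (by omega))).symm (by
      rw [b1, c0, ← h0]; exact cmm (T.cAA 1 0 (by omega) (by omega)))
    exact fin (by rw [a1, b1, c0, h0])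
  · -- `A 1 = B 1`
    have c0 : σ (tC 0) = σ (tB 1) := braid_eq' (brd (T.CB 0 (by omega))).symm (by
      rw [← h0]; exact cmm (T.cAC 1 0 (by omega) (by omega)).symm)
    have b0 : σ (tB 0) = σ (tC 0) := braid_eq' (brd (T.BC 0 (by omega))).symm (by
      rw [c0, ← h0]; exact cmm (T.cAB 1 0 (by omega) (by omega) (by omega)).symm)
    have a0 : σ (tA 0) = σ (tB 0) := braid_eq' (brd (T.AB 0 (by omega))).symm (by
      rw [b0, c0, ← h0]; exact cmm (T.cAA 0 1 (by omega) (by omega)))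
    exact fin (by rw [a0, b0, c0, h0])
  · -- `A 2 = B 2`
    have c1 : σ (tC 1) = σ (tB 2) := braid_eq' (brd (T.CB 1 (by omega))).symm (by
      rw [← h0]; exact cmm (T.cAC 2 1 (by omega) (by omega)).symm)
    have b1 : σ (tB 1) = σ (tC 1) := braid_eq' (brd (T.BC 1 (by omega))).symm (by
      rw [c1, ← h0]; exact cmm (T.cAB 2 1 (by omega) (by omega) (by omega)).symm)
    have a1 : σ (tA 1) = σ (tB 1) := braid_eq' (brd (T.AB 1 (by omega))).symm (by
      rw [b1, c1, ← h0]; exact cmm (T.cAA 1 2 (by omega) (by omega)))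
    have c0 : σ (tC 0) = σ (tB 1) := braid_eq' (brd (T.CB 0 (by omega))).symm (by
      rw [← a1]; exact cmm (T.cAC 1 0 (by omega) (by omega)).symm)
    have b0 : σ (tB 0) = σ (tC 0) := braid_eq' (brd (T.BC 0 (by omega))).symm (by
      rw [c0, ← a1]; exact cmm (T.cAB 1 0 (by omega) (by omega) (by omega)).symm)
    have a0 : σ (tA 0) = σ (tB 0) := braid_eq' (brd (T.AB 0 (by omega))).symm (by
      rw [b0, c0, ← a1]; exact cmm (T.cAA 0 1 (by omega) (by omega)))
    exact fin (by rw [a0, b0, c0, a1])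

end tree

section repl

variable {F : Type u} [Field F] {V : Type v} [AddCommGroup V] [Module F V]

/-- Let `P` and `Q` commute with the block of three handles. If `P (x - 1) Q = 0` for
`x = A⁻¹ B` of one of its handles, then `P (x - 1) Q = 0` for all `x` in the block. -/
theorem repl_ab (L : Lk g A B C S) (R : Ln g A B C S) (ρ : Γ →* Module.End F V) {lo i : ℕ}
    (hlo : lo + 3 ≤ g) (h1 : lo ≤ i) (h2 : i < lo + 3) (P Q : Module.End F V)
    (hP : ∀ x ∈ Bk A B C lo (lo + 3), Commute P (ρ x))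
    (hQ : ∀ x ∈ Bk A B C lo (lo + 3), Commute Q (ρ x))
    (h0 : P * (ρ ((A i)⁻¹ * B i) - 1) * Q = 0) (x : Γ)
    (hx : x ∈ Bk A B C lo (lo + 3)) : P * (ρ x - 1) * Q = 0 := by
  let ι : Bk A B C lo (lo + 3) →* Γ := (Bk A B C lo (lo + 3)).subtype
  let N : Subgroup (Bk A B C lo (lo + 3)) :=
    { carrier := {y | P * (ρ (ι y) - 1) * Q = 0}
      mul_mem' := by
        intro y z hy hz
        have hy' : P * (ρ (ι y) - 1) * Q = 0 := hy
        have hz' : P * (ρ (ι z) - 1) * Q = 0 := hz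
        change P * (ρ (ι (y * z)) - 1) * Q = 0
        have e1 : P * (ρ (ι (y * z)) - 1) * Q =
            P * ρ (ι y) * (ρ (ι z) - 1) * Q + P * (ρ (ι y) - 1) * Q := by
          rw [map_mul, map_mul]
          noncomm_ring
        rw [e1, hy', (hP (ι y) y.2).eq, mul_assoc (ρ (ι y)), mul_assoc (ρ (ι y)), hz', mul_zero,
          add_zero]
      one_mem' := by
        change P * (ρ (ι 1) - 1) * Q = 0
        rw [map_one, map_one, sub_self, mul_zero, zero_mul]
      inv_mem' := by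
        intro y hy
        have hy' : P * (ρ (ι y) - 1) * Q = 0 := hy
        change P * (ρ (ι y⁻¹) - 1) * Q = 0
        have e0 : ρ (ι y⁻¹) * ρ (ι y) = 1 := by
          rw [← map_mul, ← map_mul, inv_mul_cancel, map_one, map_one]
        have e1 : ρ (ι y⁻¹) - 1 = -(ρ (ι y⁻¹) * (ρ (ι y) - 1)) := by
          rw [mul_sub, e0, mul_one, neg_sub]
        rw [e1, mul_neg, neg_mul, ← mul_assoc, (hP (ι y⁻¹) y⁻¹.2).eq, mul_assoc (ρ (ι y⁻¹)),
          mul_assoc (ρ (ι y⁻¹)), hy', mul_zero, neg_zero] }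
  have hN : N.Normal := by
    constructor
    intro y hy z
    have hy' : P * (ρ (ι y) - 1) * Q = 0 := hy
    change P * (ρ (ι (z * y * z⁻¹)) - 1) * Q = 0
    have e0 : ρ (ι z) * ρ (ι z⁻¹) = 1 := by
      rw [← map_mul, ← map_mul, mul_inv_cancel, map_one, map_one]
    have e1 : ρ (ι (z * y * z⁻¹)) - 1 = ρ (ι z) * (ρ (ι y) - 1) * ρ (ι z⁻¹) := by
      rw [map_mul, map_mul, map_mul, map_mul, mul_sub, sub_mul, mul_one, e0]
    calc P * (ρ (ι (z * y * z⁻¹)) - 1) * Q
        = (P * ρ (ι z)) * (ρ (ι y) - 1) * (ρ (ι z⁻¹) * Q) := by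
          rw [e1]
          noncomm_ring
      _ = ρ (ι z) * (P * (ρ (ι y) - 1) * Q) * ρ (ι z⁻¹) := by
          rw [(hP (ι z) z.2).eq, ← (hQ (ι z⁻¹) z⁻¹.2).eq]
          noncomm_ring
      _ = 0 := by rw [hy', mul_zero, zero_mul]
  obtain ⟨j, rfl⟩ : ∃ j, i = lo + j := ⟨i - lo, by omega⟩
  have hj : j < 3 := by omega
  have h3 := kill_tree_ab (tree_w (lo := lo) L hlo) gen_w (perf_w L R hlo)
    (QuotientGroup.mk' N) hj (by
    rw [QuotientGroup.mk'_apply, QuotientGroup.mk'_apply, QuotientGroup.eq]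
    change P * (ρ (ι (_⁻¹ * _)) - 1) * Q = 0
    have e2 : ι ((wA A B C lo j)⁻¹ * wB A B C lo j) = (A (lo + j))⁻¹ * B (lo + j) := by
      rw [map_mul, map_inv]
      change (wA A B C lo j : Γ)⁻¹ * (wB A B C lo j : Γ) = _
      rw [wA_lt hj, wB_lt hj]
    rw [e2]
    exact h0) ⟨x, hx⟩
  rw [QuotientGroup.mk'_apply, QuotientGroup.eq_one_iff] at h3
  exact h3

/-- Conjugation of the product. -/
theorem prA_conj (ρ : Γ →* Module.End F V) (y : ℕ → Γ) (s : Γ) (n : ℕ) :
    prA ρ (fun k => s * y k * s⁻¹) 0 n = ρ s * prA ρ y 0 n * ρ s⁻¹ := by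
  have e0 : ρ s * ρ s⁻¹ = 1 := by rw [← map_mul, mul_inv_cancel, map_one]
  have e0' : ρ s⁻¹ * ρ s = 1 := by rw [← map_mul, inv_mul_cancel, map_one]
  have key : ∀ l : List ℕ, (l.map fun k => ρ (s * y (0 + k) * s⁻¹) - 1).prod =
      ρ s * (l.map fun k => ρ (y (0 + k)) - 1).prod * ρ s⁻¹ := by
    intro l
    induction l with
    | nil => rw [List.map_nil, List.map_nil, List.prod_nil, mul_one, e0]
    | cons k l ih =>
      rw [List.map_cons, List.map_cons, List.prod_cons, List.prod_cons, ih]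
      have e1 : ρ (s * y (0 + k) * s⁻¹) - 1 = ρ s * (ρ (y (0 + k)) - 1) * ρ s⁻¹ := by
        rw [map_mul, map_mul, mul_sub, sub_mul, mul_one, e0]
      rw [e1]
      calc ρ s * (ρ (y (0 + k)) - 1) * ρ s⁻¹ *
            (ρ s * (l.map fun k => ρ (y (0 + k)) - 1).prod * ρ s⁻¹) =
          ρ s * (ρ (y (0 + k)) - 1) * (ρ s⁻¹ * ρ s) *
            ((l.map fun k => ρ (y (0 + k)) - 1).prod * ρ s⁻¹) := by noncomm_ring
        _ = _ := by rw [e0', mul_one]; noncomm_ring
  exact key (List.range n)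

theorem prA_congr (ρ : Γ →* Module.End F V) {y y' : ℕ → Γ} {lo n : ℕ}
    (h : ∀ k, k < n → y (lo + k) = y' (lo + k)) : prA ρ y lo n = prA ρ y' lo n := by
  rw [prA, prA]
  congr 1
  refine List.map_congr_left fun k hk => ?_
  rw [h k (List.mem_range.1 hk)]

/-- Replacement of the element `y j` after the conjugation by `s`. -/
theorem repl_gen (L : Lk g A B C S) (R : Ln g A B C S) (ρ : Γ →* Module.End F V) {y : ℕ → Γ}
    {n j lo i : ℕ} (hj : j < n) (s : Γ) (hlo : lo + 3 ≤ g) (h1 : lo ≤ i) (h2 : i < lo + 3)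
    (hyj : s * y j * s⁻¹ = (A i)⁻¹ * B i)
    (hc : ∀ k, k < n → k ≠ j → ∀ b ∈ Bk A B C lo (lo + 3), Commute (s * y k * s⁻¹) b)
    (h0 : prA ρ y 0 n = 0) {w : Γ} (hw : s * w * s⁻¹ ∈ Bk A B C lo (lo + 3)) :
    prA ρ (fun k => if k = j then w else y k) 0 n = 0 := by
  obtain ⟨l, rfl⟩ : ∃ l, n = j + (1 + l) := ⟨n - j - 1, by omega⟩
  have h3 := prA_conj ρ y s (j + (1 + l))
  rw [h0, mul_zero, zero_mul, prA_split] at h3
  have h4 := repl_ab L R ρ hlo h1 h2 (prA ρ (fun k => s * y k * s⁻¹) 0 j)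
    (prA ρ (fun k => s * y k * s⁻¹) (j + 1) l)
    (fun x hx => prA_comm ρ fun k hk => hc (0 + k) (by omega) (by omega) x hx)
    (fun x hx => prA_comm ρ fun k hk => hc (j + 1 + k) (by omega) (by omega) x hx)
    (by rw [← hyj]; exact h3) _ hw
  have h5 : prA ρ (fun k => s * (if k = j then w else y k) * s⁻¹) 0 (j + (1 + l)) = 0 := by
    rw [prA_split, ← h4]
    congr 1
    · congr 1
      · exact prA_congr ρ fun k hk => by rw [if_neg (by omega)]
      · rw [if_pos rfl]
    · exact prA_congr ρ fun k hk => by rw [if_neg (by omega)]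
  rw [prA_conj] at h5
  have e0' : ρ s⁻¹ * ρ s = 1 := by rw [← map_mul, inv_mul_cancel, map_one]
  calc prA ρ (fun k => if k = j then w else y k) 0 (j + (1 + l)) =
      (ρ s⁻¹ * ρ s) * prA ρ (fun k => if k = j then w else y k) 0 (j + (1 + l)) *
        (ρ s⁻¹ * ρ s) := by rw [e0', one_mul, mul_one]
    _ = ρ s⁻¹ * (ρ s * prA ρ (fun k => if k = j then w else y k) 0 (j + (1 + l)) * ρ s⁻¹) *
        ρ s := by noncomm_ring
    _ = 0 := by rw [h5, mul_zero, zero_mul]

end repl

end Pool.Agent.H.MP_59b15d_al.Lft
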