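import Pool.Agent.H.MP_59b15d_al.deg.FullB

/-!
In dimension less than `2 ^ g` the product of the operators `ρ (A i) - 1` over half of the handles
vanishes.
-/

set_option autoImplicit false

namespace Pool.Agent.H.MP_59b15d_al.Lft

universe u v w

open Module Pool.MP_59b15d_al.H95E Pool.MP_59b15d_al.H93E Pool.MP_59b15d_al.H47E
  Pool.MP_59b15d_al.H11D Pool.MP_59b15d_al.H95P Pool.Agent.H.MP_59b15d_al.Lin
  Pool.Agent.H.MP_59b15d_al.H52E Pool.MP_59b15d_al.H98P

variable {Γ : Type w} [Group Γ] {A B C S : ℕ → Γ} {g : ℕ}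
variable {F : Type u} [Field F] {V : Type v} [AddCommGroup V] [Module F V]

/-- The quotient of the two twists of the handle `2 k`. -/
def ab (A B : ℕ → Γ) (k : ℕ) : Γ := (A (2 * k))⁻¹ * B (2 * k)

/-- After the first `j` replacements. -/
def zj (A B : ℕ → Γ) (j k : ℕ) : Γ := if 1 ≤ k ∧ k ≤ j then A (2 * k) else ab A B k

theorem A_mem1 (k : ℕ) : A (2 * k) ∈ Bk A B C (2 * k) (2 * k + 1) := A_mem le_rfl (by omega)

theorem ab_mem1 (k : ℕ) : ab A B k ∈ Bk A B C (2 * k) (2 * k + 1) :=
  mul_mem (inv_mem (A_mem1 k)) (B_mem le_rfl (by omega))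

theorem zj_mem (j k : ℕ) : zj A B j k ∈ Bk A B C (2 * k) (2 * k + 1) := by
  rw [zj]
  split_ifs
  · exact A_mem1 k
  · exact ab_mem1 k

section steps

variable (L : Lk g A B C S) (R : Ln g A B C S) (ρ : Γ →* Module.End F V)
include L R

/-- The handles with two neighbours. -/
theorem mid_steps (h0 : prA ρ (ab A B) 0 ((g + 1) / 2) = 0) : ∀ j, 2 * j + 2 ≤ g →
    prA ρ (zj A B j) 0 ((g + 1) / 2) = 0 := by
  intro j
  induction j with
  | zero =>
    intro _
    rw [← h0]
    refine prA_congr ρ fun k _ => ?_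
    rw [zj, if_neg (by omega)]
  | succ j ih =>
    intro hj
    have h1 := repl_gen L R ρ (y := zj A B j) (n := (g + 1) / 2) (j := j + 1) (lo := 2 * j + 1)
      (i := 2 * (j + 1)) (by omega) 1 (by omega) (by omega) (by omega) (by
        rw [one_mul, inv_one, mul_one, zj, if_neg (by omega), ab]) (by
        intro k hk hkj b hb
        rw [one_mul, inv_one, mul_one]
        have h2 : zj A B j k ∈ Bk A B C (2 * k) (2 * k + 1) := zj_mem j k
        rcases Nat.lt_or_ge k (j + 1) with h3 | h3
        · exact Bk_comm L (by omega) h2 hb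
        · exact (Bk_comm L (by omega) hb h2).symm) (ih (by omega)) (w := A (2 * (j + 1))) (by
        rw [one_mul, inv_one, mul_one]
        exact A_mem (by omega) (by omega))
    rw [← h1]
    refine prA_congr ρ fun k _ => ?_
    rw [zero_add, zj]
    by_cases hk : k = j + 1
    · rw [if_pos hk, if_pos (by omega), hk]
    · rw [if_neg hk, zj]
      by_cases hk' : 1 ≤ k ∧ k ≤ j
      · rw [if_pos hk', if_pos (by omega)]
      · rw [if_neg hk', if_neg (by omega)]

/-- The first handle. -/
theorem first_step (hg : 4 ≤ g) (h0 : prA ρ (zj A B ((g - 2) / 2)) 0 ((g + 1) / 2) = 0) :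
    prA ρ (fun k => if k = 0 then A 0 else zj A B ((g - 2) / 2) k) 0 ((g + 1) / 2) = 0 := by
  have cA : Commute (S 2) (A 0) := L.SAo 2 0 (by omega) (by omega)
  have cB : Commute (S 2) (B 0) := L.SBo 2 0 (by omega) (by omega)
  have hS : S 2 ∈ Bk A B C 2 4 := S_mem L le_rfl (by omega) (by omega)
  refine repl_gen L R ρ (y := zj A B ((g - 2) / 2)) (n := (g + 1) / 2) (j := 0) (lo := 0)
    (i := 0) (by omega) (S 2) (by omega) (by omega) (by omega) ?_ ?_ h0 (w := A 0) ?_
  · have h1 : Commute (S 2) ((A 0)⁻¹ * B 0) := cA.inv_right.mul_right cB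
    rw [zj, if_neg (by omega), ab, Nat.mul_zero, h1.eq, mul_inv_cancel_right]
  · intro k hk hk0 b hb
    have h2 : zj A B ((g - 2) / 2) k ∈ Bk A B C (2 * k) (2 * k + 1) := zj_mem _ k
    rcases Nat.lt_or_ge k 2 with h3 | h3
    · obtain rfl : k = 1 := by omega
      have h4 : zj A B ((g - 2) / 2) 1 = A 2 := by
        rw [zj, if_pos (by omega)]
      have h5 : S 2 * A 2 * (S 2)⁻¹ = A 3 := by
        rw [L.SA 2 (by omega), mul_inv_cancel_right]
      rw [h4, h5]
      have h6 : A 3 ∈ Bk A B C 3 4 := A_mem le_rfl (by omega)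
      exact (Bk_comm L (by omega) hb h6).symm
    · have h4 : Commute (S 2) (zj A B ((g - 2) / 2) k) := Bk_comm L (by omega) hS h2
      rw [h4.eq, mul_inv_cancel_right]
      exact (Bk_comm L (by omega) hb h2).symm
  · rw [cA.eq, mul_inv_cancel_right]
    exact A_mem (by omega) (by omega)

/-- The last handle. -/
theorem last_step {t : ℕ} (ht : 2 ≤ t) (hgt : g = 2 * t + 1) {y : ℕ → Γ}
    (hy : ∀ k, k < t → y k = A (2 * k)) (hyt : y t = ab A B t) (h0 : prA ρ y 0 (t + 1) = 0) :
    prA ρ (fun k => if k = t then A (2 * t) else y k) 0 (t + 1) = 0 := by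
  obtain ⟨i, rfl⟩ : ∃ i, t = i + 2 := ⟨t - 2, by omega⟩
  -- the exchange of the handles `2 i + 1` and `2 i + 2`
  have cA : Commute (S (2 * i + 1)) (A (2 * (i + 2))) := L.SAo _ _ (by omega) (by omega)
  have cB : Commute (S (2 * i + 1)) (B (2 * (i + 2))) := L.SBo _ _ (by omega) (by omega)
  refine repl_gen L R ρ (y := y) (n := i + 2 + 1) (j := i + 2) (lo := 2 * i + 2)
    (i := 2 * (i + 2)) (by omega) (S (2 * i + 1))⁻¹ (by omega) (by omega) (by omega) ?_ ?_ h0
    (w := A (2 * (i + 2))) ?_
  · have h1 : Commute (S (2 * i + 1)) ((A (2 * (i + 2)))⁻¹ * B (2 * (i + 2))) :=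
      cA.inv_right.mul_right cB
    rw [hyt, ab, h1.inv_left.eq, mul_inv_cancel_right]
  · intro k hk hkt b hb
    rw [hy k (by omega)]
    rcases Nat.lt_or_ge k (i + 1) with h3 | h3
    · have h4 : Commute (S (2 * i + 1)) (A (2 * k)) := L.SAo _ _ (by omega) (by omega)
      rw [h4.inv_left.eq, mul_inv_cancel_right]
      have h5 : A (2 * k) ∈ Bk A B C (2 * k) (2 * k + 1) := A_mem1 k
      exact Bk_comm L (by omega) h5 hb
    · obtain rfl : k = i + 1 := by omega
      have h5 : (S (2 * i + 1))⁻¹ * A (2 * (i + 1)) * (S (2 * i + 1))⁻¹⁻¹ = A (2 * i + 1) := by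
        have h6 : A (2 * (i + 1)) * S (2 * i + 1) = S (2 * i + 1) * A (2 * i + 1) :=
          (L.SA (2 * i + 1) (by omega)).symm
        rw [inv_inv, mul_assoc, h6, inv_mul_cancel_left]
      rw [h5]
      have h6 : A (2 * i + 1) ∈ Bk A B C (2 * i + 1) (2 * i + 2) := A_mem le_rfl (by omega)
      exact Bk_comm L (by omega) h6 hb
  · rw [cA.inv_left.eq, mul_inv_cancel_right]
    exact A_mem (by omega) (by omega)

variable [FiniteDimensional F V]

/-- **The degree bound `2 ^ g`.** -/
theorem full_deg (hg : 4 ≤ g) (hdim : finrank F V < 2 ^ g) :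
    np ρ ((List.range ((g + 1) / 2)).map A) = 0 := by
  -- the product of the quotients
  have h0 : prA ρ (ab A B) 0 ((g + 1) / 2) = 0 := by
    rcases Nat.even_or_odd' g with ⟨t, rfl | rfl⟩
    · have h1 := deg_two L R (t := t) le_rfl ρ (by rw [pow_mul] at hdim; exact hdim)
      rw [show (2 * t + 1) / 2 = t by omega, prA, ← h1]
      congr 1
      exact List.map_congr_left fun k _ => by rw [zero_add, ab]
    · have h1 := deg_one L R (t := t) (by omega) ρ (by
        rw [pow_succ, pow_mul, mul_comm] at hdim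
        exact hdim)
      have h2 : Commute (prA ρ (ab A B) 0 t) (ρ (ab A B t)) := by
        refine prA_comm ρ fun k hk => ?_
        have h3 : ab A B (0 + k) ∈ Bk A B C (2 * (0 + k)) (2 * (0 + k) + 1) := ab_mem1 _
        have h4 : ab A B t ∈ Bk A B C (2 * t) (2 * t + 1) := ab_mem1 _
        exact Bk_comm L (by omega) h3 h4
      have h5 : prA ρ (ab A B) 0 (t + (1 + 0)) = 0 := by
        rw [prA_split]
        have h6 : prA ρ (ab A B) (t + 1) 0 = 1 := by simp [prA]
        rw [h6, mul_one, (h2.sub_right (Commute.one_right _)).eq]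
        have h7 : prA ρ (ab A B) 0 t =
            ((List.range t).map fun k => ρ ((A (2 * k))⁻¹ * B (2 * k)) - 1).prod := by
          rw [prA]
          congr 1
          exact List.map_congr_left fun k _ => by rw [zero_add, ab]
        rw [h7]
        exact h1
      rw [show (2 * t + 1 + 1) / 2 = t + (1 + 0) by omega]
      exact h5
  have h1 := first_step L R ρ hg (mid_steps L R ρ h0 ((g - 2) / 2) (by omega))
  have h2 : prA ρ (fun k => A (2 * k)) 0 ((g + 1) / 2) = 0 := by
    rcases Nat.even_or_odd' g with ⟨t, ht | ht⟩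
    · rw [← h1]
      refine prA_congr ρ fun k hk => ?_
      rw [zero_add]
      by_cases hk0 : k = 0
      · rw [if_pos hk0, hk0]
      · rw [if_neg hk0, zj, if_pos (by omega)]
    · have hn : (g + 1) / 2 = t + 1 := by omega
      rw [hn] at h1 ⊢
      have h3 := last_step L R ρ (t := t) (by omega) ht
        (y := fun k => if k = 0 then A 0 else zj A B ((g - 2) / 2) k) (by
          intro k hk
          change (if k = 0 then A 0 else zj A B ((g - 2) / 2) k) = A (2 * k)
          by_cases hk0 : k = 0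
          · rw [if_pos hk0, hk0]
          · rw [if_neg hk0, zj, if_pos (by omega)]) (by
          change (if t = 0 then A 0 else zj A B ((g - 2) / 2) t) = ab A B t
          rw [if_neg (by omega), zj, if_neg (by omega)]) h1
      rw [← h3]
      refine prA_congr ρ fun k hk => ?_
      rw [zero_add]
      by_cases hkt : k = t
      · rw [if_pos hkt, hkt]
      · rw [if_neg hkt]
        by_cases hk0 : k = 0
        · rw [if_pos hk0, hk0]
        · rw [if_neg hk0, zj, if_pos (by omega)]
  -- the first handles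
  have h3 : np ρ (((List.range ((g + 1) / 2)).map fun k => 2 * k).map A) = 0 := by
    rw [← h2, prA, np, List.map_map, List.map_map]
    congr 1
    refine List.map_congr_left fun k _ => ?_
    rw [zero_add]
    rfl
  ext v
  exact np_all L (I := (List.range ((g + 1) / 2)).map fun k => 2 * k)
    (I' := List.range ((g + 1) / 2))
    (List.Nodup.map (fun a b hab => by simpa using hab) List.nodup_range) (by
    intro i hi
    obtain ⟨k, hk, rfl⟩ := List.mem_map.1 hi
    have := List.mem_range.1 hk
    change 2 * k < g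
    omega) (fun v => by rw [h3]; rfl) List.nodup_range (fun i hi => by
    have := List.mem_range.1 hi
    omega) (by rw [List.length_map]) v

end steps

end Pool.Agent.H.MP_59b15d_al.Lft
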