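import Pool.Agent.H.MP_59b15d_al.deg.Sw

/-!
The lantern of three consecutive handles.
-/

set_option autoImplicit false
set_option linter.unusedSimpArgs false

namespace Pool.Agent.H.MP_59b15d_al.Deg

open Pool.MP_59b15d_al.H24T Pool.MP_59b15d_al.H76R Pool.MP_59b15d_al.H73E
open Pool.MP_59b15d_al.H60G Pool.MP_59b15d_al.H40L

section

variable {m : ℕ} {G : Type*} [Group G] {a b : Fin m → G}
variable (h : IsSurf a b) {i j k : Fin m} (hij : (j : ℕ) = i + 1) (hjk : (k : ℕ) = j + 1)

/-- **(LAN)** -/
theorem LAN : CC h i j hij * (IO h j * CC h j k hjk * (IO h j)⁻¹) *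
    ((SW h j k hjk)⁻¹ * CC h i j hij * SW h j k hjk) =
    (TA h i)⁻¹ * (TA h j)⁻¹ * (TA h k)⁻¹ * CE h i j k hij hjk := by
  have h1 := lantern h hij hjk
  rw [CX_eq, CY] at h1
  exact h1

theorem CE_TBi : CE h i j k hij hjk * TB h i * CE h i j k hij hjk =
    TB h i * CE h i j k hij hjk * TB h i := by
  have n1 := ne_of_succ hij
  have n2 := ne_of_succ hjk
  have n3 := ne_ik hij hjk
  have t1 := TB_a_ne h n1
  have t2 := TB_a_ne h n3
  apply aut_ext h
  · intro l
    by_cases h1 : l = i
    · subst h1
      simp only [MulAut.mul_apply, CE_ai, CE_bi, CE_aj, CE_bj, CE_ak, CE_bk, TB_a, TB_b, t1, t2,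
        map_mul, map_inv]
      group
    · by_cases h2 : l = j
      · subst h2
        simp only [MulAut.mul_apply, CE_ai, CE_bi, CE_aj, CE_bj, CE_ak, CE_bk, TB_a, TB_b, t1,
          t2, map_mul, map_inv]
        group
      · by_cases h3 : l = k
        · subst h3
          simp only [MulAut.mul_apply, CE_ai, CE_bi, CE_aj, CE_bj, CE_ak, CE_bk, TB_a, TB_b, t1,
            t2, map_mul, map_inv]
          group
        · simp only [MulAut.mul_apply, TB_a_ne h h1, CE_a_ne h hij hjk h1 h2 h3]
  · intro l
    by_cases h1 : l = i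
    · subst h1
      simp only [MulAut.mul_apply, CE_ai, CE_bi, CE_aj, CE_bj, CE_ak, CE_bk, TB_a, TB_b, t1, t2,
        map_mul, map_inv]
      group
    · by_cases h2 : l = j
      · subst h2
        simp only [MulAut.mul_apply, CE_ai, CE_bi, CE_aj, CE_bj, CE_ak, CE_bk, TB_a, TB_b, t1,
          t2, map_mul, map_inv]
        group
      · by_cases h3 : l = k
        · subst h3
          simp only [MulAut.mul_apply, CE_ai, CE_bi, CE_aj, CE_bj, CE_ak, CE_bk, TB_a, TB_b, t1,
            t2, map_mul, map_inv]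
          group
        · simp only [MulAut.mul_apply, TB_b, CE_b_ne h hij hjk h1 h2 h3]

theorem CE_TBj : CE h i j k hij hjk * TB h j * CE h i j k hij hjk =
    TB h j * CE h i j k hij hjk * TB h j := by
  have n1 := ne_of_succ hij
  have n2 := ne_of_succ hjk
  have n3 := ne_ik hij hjk
  have t1 := TB_a_ne h n1.symm
  have t2 := TB_a_ne h n2
  apply aut_ext h
  · intro l
    by_cases h1 : l = i
    · subst h1
      simp only [MulAut.mul_apply, CE_ai, CE_bi, CE_aj, CE_bj, CE_ak, CE_bk, TB_a, TB_b, t1, t2,
        map_mul, map_inv]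
    · by_cases h2 : l = j
      · subst h2
        simp only [MulAut.mul_apply, CE_ai, CE_bi, CE_aj, CE_bj, CE_ak, CE_bk, TB_a, TB_b, t1,
          t2, map_mul, map_inv]
        group
      · by_cases h3 : l = k
        · subst h3
          simp only [MulAut.mul_apply, CE_ai, CE_bi, CE_aj, CE_bj, CE_ak, CE_bk, TB_a, TB_b, t1,
            t2, map_mul, map_inv]
          group
        · simp only [MulAut.mul_apply, TB_a_ne h h2, CE_a_ne h hij hjk h1 h2 h3]
  · intro l
    by_cases h1 : l = i
    · subst h1
      simp only [MulAut.mul_apply, CE_ai, CE_bi, CE_aj, CE_bj, CE_ak, CE_bk, TB_a, TB_b, t1, t2,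
        map_mul, map_inv]
      group
    · by_cases h2 : l = j
      · subst h2
        simp only [MulAut.mul_apply, CE_ai, CE_bi, CE_aj, CE_bj, CE_ak, CE_bk, TB_a, TB_b, t1,
          t2, map_mul, map_inv]
        group
      · by_cases h3 : l = k
        · subst h3
          simp only [MulAut.mul_apply, CE_ai, CE_bi, CE_aj, CE_bj, CE_ak, CE_bk, TB_a, TB_b, t1,
            t2, map_mul, map_inv]
          group
        · simp only [MulAut.mul_apply, TB_b, CE_b_ne h hij hjk h1 h2 h3]

theorem CE_TBk : CE h i j k hij hjk * TB h k * CE h i j k hij hjk =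
    TB h k * CE h i j k hij hjk * TB h k := by
  have n1 := ne_of_succ hij
  have n2 := ne_of_succ hjk
  have n3 := ne_ik hij hjk
  have t1 := TB_a_ne h n3.symm
  have t2 := TB_a_ne h n2.symm
  apply aut_ext h
  · intro l
    by_cases h1 : l = i
    · subst h1
      simp only [MulAut.mul_apply, CE_ai, CE_bi, CE_aj, CE_bj, CE_ak, CE_bk, TB_a, TB_b, t1, t2,
        map_mul, map_inv]
    · by_cases h2 : l = j
      · subst h2
        simp only [MulAut.mul_apply, CE_ai, CE_bi, CE_aj, CE_bj, CE_ak, CE_bk, TB_a, TB_b, t1,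
          t2, map_mul, map_inv]
        group
      · by_cases h3 : l = k
        · subst h3
          simp only [MulAut.mul_apply, CE_ai, CE_bi, CE_aj, CE_bj, CE_ak, CE_bk, TB_a, TB_b, t1,
            t2, map_mul, map_inv]
          group
        · simp only [MulAut.mul_apply, TB_a_ne h h3, CE_a_ne h hij hjk h1 h2 h3]
  · intro l
    by_cases h1 : l = i
    · subst h1
      simp only [MulAut.mul_apply, CE_ai, CE_bi, CE_aj, CE_bj, CE_ak, CE_bk, TB_a, TB_b, t1, t2,
        map_mul, map_inv]
      group
    · by_cases h2 : l = j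
      · subst h2
        simp only [MulAut.mul_apply, CE_ai, CE_bi, CE_aj, CE_bj, CE_ak, CE_bk, TB_a, TB_b, t1,
          t2, map_mul, map_inv]
        group
      · by_cases h3 : l = k
        · subst h3
          simp only [MulAut.mul_apply, CE_ai, CE_bi, CE_aj, CE_bj, CE_ak, CE_bk, TB_a, TB_b, t1,
            t2, map_mul, map_inv]
          group
        · simp only [MulAut.mul_apply, TB_b, CE_b_ne h hij hjk h1 h2 h3]

end

end Pool.Agent.H.MP_59b15d_al.Deg
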