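import Pool.Agent.H.MP_59b15d_al.lin.Blk
import Pool.Agent.H.MP_59b15d_al.lin.Tr

/-!
The twist about the curve `DD a b q * a q`: together with `TA q` a bounding pair which cuts off the
first `q` handles.
-/

set_option autoImplicit false
set_option linter.unusedSimpArgs false

namespace Pool.Agent.H.MP_59b15d_al.Deg

open Pool.MP_59b15d_al.H24T Pool.MP_59b15d_al.H76R Pool.MP_59b15d_al.H73E
open Pool.MP_59b15d_al.H60G Pool.MP_59b15d_al.H40L
open Pool.Agent.H.MP_59b15d_al.Lin

section

variable {m : ℕ} {G : Type*} [Group G] {a b : Fin m → G}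

/-- The curve of the twist. -/
def cp (a b : Fin m → G) (q : Fin m) : G := DD a b q * a q

theorem DD_conj_hom {f : G →* G} {c : G} (k : ℕ)
    (hf : ∀ j, j < k → f (ex a j) = c * ex a j * c⁻¹ ∧ f (ex b j) = c * ex b j * c⁻¹) :
    f (DD a b k) = c * DD a b k * c⁻¹ := by
  induction k with
  | zero => simp [DD]
  | succ k ih =>
    rw [DD_succ, map_mul, ih (fun j hj => hf j (by omega)), cm]
    simp only [map_mul, map_inv, (hf k (by omega)).1, (hf k (by omega)).2]
    group

theorem exists_Tp_aux (q : Fin m) {c : G} (hc : c = DD a b q * a q) (x : G)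
    (hx : x = c ∨ x = c⁻¹) (i : Fin m) :
    (if i ≤ q then x * a i * x⁻¹ else a i) *
      (if i < q then x * b i * x⁻¹ else if i = q then b i * x⁻¹ else b i) *
      (if i ≤ q then x * a i * x⁻¹ else a i)⁻¹ *
      (if i < q then x * b i * x⁻¹ else if i = q then b i * x⁻¹ else b i)⁻¹ =
    (if (i : ℕ) ≤ q then x * (DD a b i)⁻¹ * x⁻¹ * DD a b i else 1) *
      (a i * b i * (a i)⁻¹ * (b i)⁻¹) *
      (if (i : ℕ) + 1 ≤ q then x * (DD a b (i + 1))⁻¹ * x⁻¹ * DD a b (i + 1) else 1)⁻¹ := by
  rcases lt_trichotomy i q with h1 | h1 | h1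
  · have h2 : (i : ℕ) < q := h1
    rw [if_pos h1.le, if_pos h1, if_pos h2.le, if_pos (by omega : (i : ℕ) + 1 ≤ q), DD_succ, cm,
      ex_val, ex_val]
    group
  · subst h1
    rw [if_pos le_rfl, if_neg (lt_irrefl _), if_pos rfl, if_pos le_rfl,
      if_neg (by omega : ¬ (i : ℕ) + 1 ≤ i)]
    have h3 : DD a b i = c * (a i)⁻¹ := by rw [hc, mul_inv_cancel_right]
    rw [h3]
    rcases hx with rfl | rfl <;> group
  · have h2 : (q : ℕ) < i := h1
    rw [if_neg (not_le_of_gt h1), if_neg (not_lt_of_gt h1), if_neg h1.ne', if_neg (by omega),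
      if_neg (by omega)]
    group

theorem exists_Tp (h : IsSurf a b) (q : Fin m) : ∃ X : MulAut G,
    (∀ k, X (a k) = if k ≤ q then cp a b q * a k * (cp a b q)⁻¹ else a k) ∧
    (∀ k, X (b k) = if k < q then cp a b q * b k * (cp a b q)⁻¹ else
      if k = q then b k * (cp a b q)⁻¹ else b k) ∧
    (∀ k, X⁻¹ (a k) = if k ≤ q then (cp a b q)⁻¹ * a k * (cp a b q)⁻¹⁻¹ else a k) ∧
    (∀ k, X⁻¹ (b k) = if k < q then (cp a b q)⁻¹ * b k * (cp a b q)⁻¹⁻¹ else
      if k = q then b k * (cp a b q)⁻¹⁻¹ else b k) := by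
  have hqm := q.2
  have key : ∀ x : G, (x = cp a b q ∨ x = (cp a b q)⁻¹) → ∀ φ : G →* G,
      (∀ i, φ (a i) = if i ≤ q then x * a i * x⁻¹ else a i) →
      (∀ i, φ (b i) = if i < q then x * b i * x⁻¹ else if i = q then b i * x⁻¹ else b i) →
      φ x = x ∧ ∀ i, φ (if i ≤ q then x⁻¹ * a i * x⁻¹⁻¹ else a i) = a i ∧
        φ (if i < q then x⁻¹ * b i * x⁻¹⁻¹ else if i = q then b i * x⁻¹⁻¹ else b i) = b i := by
    intro x hx φ h1 h2
    have h3 : φ (DD a b q) = x * DD a b q * x⁻¹ := by
      refine DD_conj_hom q fun j hj => ?_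
      have hjm : j < m := by omega
      rw [ex_lt a hjm, ex_lt b hjm, h1, h2, if_pos (by rw [Fin.le_def]; exact hj.le),
        if_pos (by rw [Fin.lt_def]; exact hj)]
      exact ⟨rfl, rfl⟩
    have h4 : φ (cp a b q) = x * cp a b q * x⁻¹ := by
      rw [cp, map_mul, h3, h1, if_pos le_rfl]
      group
    have h5 : φ x = x := by
      rcases hx with rfl | rfl
      · rw [h4]; group
      · rw [map_inv, h4]; group
    refine ⟨h5, fun i => ⟨?_, ?_⟩⟩
    · by_cases hi : i ≤ q
      · rw [if_pos hi]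
        simp only [map_mul, map_inv, h5, h1, if_pos hi]
        group
      · rw [if_neg hi, h1, if_neg hi]
    · by_cases hi : i < q
      · rw [if_pos hi]
        simp only [map_mul, map_inv, h5, h2, if_pos hi]
        group
      · rw [if_neg hi]
        by_cases hi2 : i = q
        · rw [if_pos hi2]
          simp only [map_mul, map_inv, h5, h2, if_neg hi, if_pos hi2]
          group
        · rw [if_neg hi2, h2, if_neg hi, if_neg hi2]
  refine exists_aut h _ _ _ _
    (fun k => if k ≤ (q : ℕ) then cp a b q * (DD a b k)⁻¹ * (cp a b q)⁻¹ * DD a b k else 1)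
    (fun k => if k ≤ (q : ℕ) then (cp a b q)⁻¹ * (DD a b k)⁻¹ * (cp a b q)⁻¹⁻¹ * DD a b k else 1)
    ?_ ?_ (fun i => exists_Tp_aux q rfl _ (Or.inl rfl) i) ?_ ?_
    (fun i => exists_Tp_aux q rfl _ (Or.inr rfl) i) ?_ ?_
  · simp only [if_pos (Nat.zero_le _), DD_zero]
    group
  · rw [if_neg (by omega)]
  · simp only [if_pos (Nat.zero_le _), DD_zero]
    group
  · rw [if_neg (by omega)]
  · intro φ h1 h2
    exact (key _ (Or.inl rfl) φ h1 h2).2
  · intro φ h1 h2
    have h3 := (key _ (Or.inr rfl) φ h1 h2).2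
    simpa only [inv_inv] using h3

/-- The twist about the curve `DD a b q * a q`. -/
noncomputable def Tp (h : IsSurf a b) (q : Fin m) : MulAut G := (exists_Tp h q).choose

variable (h : IsSurf a b) {q : Fin m}

theorem Tp_a_le {k : Fin m} (hk : k ≤ q) : Tp h q (a k) = cp a b q * a k * (cp a b q)⁻¹ := by
  rw [Tp, (exists_Tp h q).choose_spec.1 k, if_pos hk]

theorem Tp_a_gt {k : Fin m} (hk : q < k) : Tp h q (a k) = a k := by
  rw [Tp, (exists_Tp h q).choose_spec.1 k, if_neg (not_le_of_gt hk)]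

theorem Tp_b_lt {k : Fin m} (hk : k < q) : Tp h q (b k) = cp a b q * b k * (cp a b q)⁻¹ := by
  rw [Tp, (exists_Tp h q).choose_spec.2.1 k, if_pos hk]

theorem Tp_b_self : Tp h q (b q) = b q * (cp a b q)⁻¹ := by
  rw [Tp, (exists_Tp h q).choose_spec.2.1 q, if_neg (lt_irrefl _), if_pos rfl]

theorem Tp_b_gt {k : Fin m} (hk : q < k) : Tp h q (b k) = b k := by
  rw [Tp, (exists_Tp h q).choose_spec.2.1 k, if_neg (not_lt_of_gt hk), if_neg hk.ne']

theorem Tp_DD : Tp h q (DD a b q) = cp a b q * DD a b q * (cp a b q)⁻¹ := by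
  refine DD_conj q fun j hj => ?_
  have hjm : j < m := by have := q.2; omega
  rw [ex_lt a hjm, ex_lt b hjm]
  exact ⟨Tp_a_le h (by rw [Fin.le_def]; exact hj.le), Tp_b_lt h (by rw [Fin.lt_def]; exact hj)⟩

theorem Tp_cp : Tp h q (cp a b q) = cp a b q := by
  have h1 : Tp h q (cp a b q) = cp a b q * cp a b q * (cp a b q)⁻¹ := by
    conv_lhs => rw [cp, map_mul, Tp_DD, Tp_a_le h le_rfl]
    rw [cp]
    group
  rw [h1, mul_inv_cancel_right]

/-- On the first handles the twist is a conjugation. -/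
theorem Tp_HS {x : G} (hx : x ∈ HS a b 0 q) : Tp h q x = cp a b q * x * (cp a b q)⁻¹ := by
  have hle : HS a b 0 q ≤ ((Tp h q).toMonoidHom.eqLocus (MulAut.conj (cp a b q)).toMonoidHom) := by
    refine (Subgroup.closure_le _).2 ?_
    rintro y ⟨k, -, hk, rfl | rfl⟩
    · have hkm : k < m := by have := q.2; omega
      change Tp h q (ex a k) = cp a b q * ex a k * (cp a b q)⁻¹
      rw [ex_lt a hkm]
      exact Tp_a_le h (by rw [Fin.le_def]; exact hk.le)
    · have hkm : k < m := by have := q.2; omega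
      change Tp h q (ex b k) = cp a b q * ex b k * (cp a b q)⁻¹
      rw [ex_lt b hkm]
      exact Tp_b_lt h (by rw [Fin.lt_def]; exact hk)
  exact hle hx

/-- The twist fixes the last handles. -/
theorem Tp_HS_hi {x : G} (hx : x ∈ HS a b (q + 1) m) : Tp h q x = x := by
  have hle : HS a b (q + 1) m ≤ (Tp h q).toMonoidHom.eqLocus (MonoidHom.id G) := by
    refine (Subgroup.closure_le _).2 ?_
    rintro y ⟨k, hk, hkm, rfl | rfl⟩
    · change Tp h q (ex a k) = ex a k
      rw [ex_lt a hkm]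
      exact Tp_a_gt h (by rw [Fin.lt_def]; exact hk)
    · change Tp h q (ex b k) = ex b k
      rw [ex_lt b hkm]
      exact Tp_b_gt h (by rw [Fin.lt_def]; exact hk)
  exact hle hx

theorem Tp_ex_q : Tp h q (ex a q) = cp a b q * ex a q * (cp a b q)⁻¹ ∧
    Tp h q (ex b q) = ex b q * (cp a b q)⁻¹ := by
  rw [ex_val, ex_val]
  exact ⟨Tp_a_le h le_rfl, Tp_b_self h⟩

/-- The twist commutes with the twists of the first handles. -/
theorem Tp_comm_lo {f : MulAut G} (hf : f ∈ MR h 0 q) : Commute (Tp h q) f := by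
  apply ext_ex h
  intro k hk
  have pf := MR_pres h 0 q hf
  have fq := MR_fix h hf q (Or.inr le_rfl)
  have fc : f (cp a b q) = cp a b q := by
    rw [cp, map_mul, MR_DD h hf (Or.inl le_rfl), ← ex_val a q, fq.1]
  by_cases hkq : k < q
  · have c1 : ∀ z ∈ HS a b 0 q, (Tp h q * f) z = (f * Tp h q) z := by
      intro z hz
      rw [MulAut.mul_apply, MulAut.mul_apply, Tp_HS h hz, Tp_HS h (pf.1 z hz)]
      simp only [map_mul, map_inv, fc]
    exact ⟨c1 _ (ex_a_mem (Nat.zero_le _) hkq), c1 _ (ex_b_mem (Nat.zero_le _) hkq)⟩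
  · rcases eq_or_lt_of_le (not_lt.1 hkq) with hkq2 | hkq2
    · rw [← hkq2]
      simp only [MulAut.mul_apply, fq.1, fq.2, (Tp_ex_q h).1, (Tp_ex_q h).2, map_mul, map_inv, fc,
        and_self]
    · have e1 := MR_fix h hf k (Or.inr hkq2.le)
      have e2 : ∀ z ∈ HS a b (q + 1) m, Tp h q z = z := fun z hz => Tp_HS_hi h hz
      have e3 := e2 _ (ex_a_mem (a := a) (b := b) hkq2 hk)
      have e4 := e2 _ (ex_b_mem (a := a) (b := b) hkq2 hk)
      simp only [MulAut.mul_apply, e1.1, e1.2, e3, e4, and_self]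

theorem cp_mem : cp a b q ∈ HS a b 0 (q + 1) := by
  have h1 : ∀ k, k ≤ (q : ℕ) → DD a b k ∈ HS a b 0 (q + 1) := by
    intro k
    induction k with
    | zero => intro _; exact one_mem _
    | succ k ih =>
      intro hk
      rw [DD_succ, cm]
      have m1 := ex_a_mem (a := a) (b := b) (Nat.zero_le k) (by omega : k < (q : ℕ) + 1)
      have m2 := ex_b_mem (a := a) (b := b) (Nat.zero_le k) (by omega : k < (q : ℕ) + 1)
      exact mul_mem (ih (by omega)) (mul_mem (mul_mem (mul_mem m1 m2) (inv_mem m1)) (inv_mem m2))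
  have h2 := ex_a_mem (a := a) (b := b) (Nat.zero_le (q : ℕ)) (Nat.lt_succ_self _)
  rw [ex_val] at h2
  exact mul_mem (h1 q le_rfl) h2

/-- The twist commutes with the twists of the last handles. -/
theorem Tp_comm_hi {f : MulAut G} (hf : f ∈ MR h (q + 1) m) : Commute (Tp h q) f := by
  apply ext_ex h
  intro k hk
  have pf := MR_pres h (q + 1) m hf
  have fx : ∀ z ∈ HS a b 0 (q + 1), f z = z := fun z hz => MR_fix_HS h (Or.inr le_rfl) hf hz
  have fc : f (cp a b q) = cp a b q := fx _ cp_mem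
  by_cases hkq : k < q + 1
  · have c1 := fx _ (ex_a_mem (a := a) (b := b) (Nat.zero_le k) hkq)
    have c2 := fx _ (ex_b_mem (a := a) (b := b) (Nat.zero_le k) hkq)
    rcases eq_or_lt_of_le (Nat.lt_succ_iff.1 hkq) with hkq2 | hkq2
    · subst hkq2
      simp only [MulAut.mul_apply, c1, c2, (Tp_ex_q h).1, (Tp_ex_q h).2, map_mul, map_inv, fc,
        and_self]
    · have e1 := Tp_HS h (ex_a_mem (a := a) (b := b) (Nat.zero_le k) hkq2)
      have e2 := Tp_HS h (ex_b_mem (a := a) (b := b) (Nat.zero_le k) hkq2)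
      simp only [MulAut.mul_apply, c1, c2, e1, e2, map_mul, map_inv, fc, and_self]
  · have c1 : ∀ z ∈ HS a b (q + 1) m, (Tp h q * f) z = (f * Tp h q) z := by
      intro z hz
      rw [MulAut.mul_apply, MulAut.mul_apply, Tp_HS_hi h hz, Tp_HS_hi h (pf.1 z hz)]
    exact ⟨c1 _ (ex_a_mem (not_lt.1 hkq) hk), c1 _ (ex_b_mem (not_lt.1 hkq) hk)⟩

/-- To check an identity with the twist on the first handles. -/
theorem fix_lo {f : MulAut G} (hf : ∀ k : Fin m, k < q → f (a k) = a k ∧ f (b k) = b k) {x : G}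
    (hx : x ∈ HS a b 0 q) : f x = x := by
  have hle : HS a b 0 q ≤ f.toMonoidHom.eqLocus (MonoidHom.id G) := by
    refine (Subgroup.closure_le _).2 ?_
    rintro y ⟨k, -, hk, rfl | rfl⟩
    · have hkm : k < m := by have := q.2; omega
      change f (ex a k) = ex a k
      rw [ex_lt a hkm]
      exact (hf _ (by rw [Fin.lt_def]; exact hk)).1
    · have hkm : k < m := by have := q.2; omega
      change f (ex b k) = ex b k
      rw [ex_lt b hkm]
      exact (hf _ (by rw [Fin.lt_def]; exact hk)).2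
  exact hle hx

theorem DD_mem : DD a b q ∈ HS a b 0 q := by
  have h1 : ∀ k, k ≤ (q : ℕ) → DD a b k ∈ HS a b 0 q := by
    intro k
    induction k with
    | zero => intro _; exact one_mem _
    | succ k ih =>
      intro hk
      rw [DD_succ, cm]
      have m1 := ex_a_mem (a := a) (b := b) (Nat.zero_le k) (by omega : k < (q : ℕ))
      have m2 := ex_b_mem (a := a) (b := b) (Nat.zero_le k) (by omega : k < (q : ℕ))
      exact mul_mem (ih (by omega)) (mul_mem (mul_mem (mul_mem m1 m2) (inv_mem m1)) (inv_mem m2))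
  exact h1 q le_rfl

theorem Tp_TA (l : Fin m) : Commute (Tp h q) (TA h l) := by
  rcases lt_trichotomy l q with h1 | h1 | h1
  · exact Tp_comm_lo h (TA_mem h l (Nat.zero_le _) h1)
  · subst h1
    have fD : TA h l (DD a b l) = DD a b l :=
      MR_DD h (TA_mem h l le_rfl (Nat.lt_succ_self _)) (Or.inr le_rfl)
    have fc : TA h l (cp a b l) = cp a b l := by rw [cp, map_mul, fD, TA_a]
    apply aut_ext h
    · intro k
      rcases le_or_gt k l with h2 | h2
      · simp only [MulAut.mul_apply, TA_a, Tp_a_le h h2, map_mul, map_inv, fc]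
      · simp only [MulAut.mul_apply, TA_a, Tp_a_gt h h2]
    · intro k
      rcases lt_trichotomy k l with h2 | h2 | h2
      · simp only [MulAut.mul_apply, TA_b_ne h h2.ne, Tp_b_lt h h2, map_mul, map_inv, fc]
      · subst h2
        simp only [MulAut.mul_apply, TA_b, Tp_b_self, Tp_a_le h le_rfl, map_mul, map_inv, fc]
        group
      · simp only [MulAut.mul_apply, TA_b_ne h h2.ne', Tp_b_gt h h2]
  · exact Tp_comm_hi h (TA_mem h l h1 l.2)

theorem Tp_TB {l : Fin m} (hl : l ≠ q) : Commute (Tp h q) (TB h l) := by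
  rcases lt_or_gt_of_ne hl with h1 | h1
  · exact Tp_comm_lo h (TB_mem h l (Nat.zero_le _) h1)
  · exact Tp_comm_hi h (TB_mem h l h1 l.2)

/-- The braid relation. -/
theorem Tp_TB_braid : Tp h q * TB h q * Tp h q = TB h q * Tp h q * TB h q := by
  have fD : TB h q (DD a b q) = DD a b q :=
    MR_DD h (TB_mem h q le_rfl (Nat.lt_succ_self _)) (Or.inr le_rfl)
  have fc : TB h q (cp a b q) = cp a b q * b q := by rw [cp, map_mul, fD, TB_a, mul_assoc]
  have e0 := Tp_cp h (q := q)
  have e1 := Tp_b_self h (q := q)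
  apply aut_ext h
  · intro k
    rcases lt_trichotomy k q with h2 | h2 | h2
    · simp only [MulAut.mul_apply, TB_a_ne h h2.ne, Tp_a_le h h2.le, map_mul, map_inv, fc,
        e0, e1]
      group
    · subst h2
      simp only [MulAut.mul_apply, TB_a, TB_b, Tp_a_le h le_rfl, map_mul, map_inv, fc, e0, e1]
      group
    · simp only [MulAut.mul_apply, TB_a_ne h h2.ne', Tp_a_gt h h2]
  · intro k
    rcases lt_trichotomy k q with h2 | h2 | h2
    · simp only [MulAut.mul_apply, TB_b, Tp_b_lt h h2, map_mul, map_inv, fc, e0, e1]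
      group
    · subst h2
      simp only [MulAut.mul_apply, TB_b, map_mul, map_inv, fc, e0, e1]
      group
    · simp only [MulAut.mul_apply, TB_b, Tp_b_gt h h2]

theorem RR_mem {lo hi : ℕ} {i : Fin m} (h1 : lo ≤ (i : ℕ)) (h2 : (i : ℕ) < hi) :
    RR h i ∈ MR h lo hi :=
  mul_mem (mul_mem (inv_mem (TA_mem h i h1 h2)) (TB_mem h i h1 h2)) (inv_mem (TA_mem h i h1 h2))

theorem CC_mem {lo hi : ℕ} {i j : Fin m} (hij : (j : ℕ) = i + 1) (h1 : lo ≤ (i : ℕ))
    (h2 : (j : ℕ) < hi) : CC h i j hij ∈ MR h lo hi :=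
  mul_mem (mul_mem (inv_mem (RR_mem h h1 (by omega))) (TC_mem h i j hij h1 h2))
    (RR_mem h h1 (by omega))

theorem Tp_CC {i j : Fin m} (hij : (j : ℕ) = i + 1) : Commute (Tp h q) (CC h i j hij) := by
  rcases lt_trichotomy j q with h1 | h1 | h1
  · exact Tp_comm_lo h (CC_mem h hij (Nat.zero_le _) h1)
  · subst h1
    have hi : i < j := by rw [Fin.lt_def]; omega
    have hCi := CC_mem h hij (le_refl (i : ℕ)) (Nat.lt_succ_self _)
    have fD : CC h i j hij (DD a b i) = DD a b i := MR_DD h hCi (Or.inr le_rfl)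
    have hc : cp a b j = DD a b i * (a i * b i * (a i)⁻¹ * (b i)⁻¹) * a j := by
      rw [cp, hij, DD_succ, cm, ex_val, ex_val]
    have fc : CC h i j hij (cp a b j) = cp a b j := by
      rw [hc]
      simp only [map_mul, map_inv, fD, CC_ai, CC_bi, CC_aj, cv]
      group
    have fv : Tp h j (cv a b i j) = cp a b j * cv a b i j * (cp a b j)⁻¹ := by
      rw [cv]
      simp only [map_mul, map_inv, Tp_a_le h hi.le, Tp_b_lt h hi, Tp_a_le h (le_refl j)]
      group
    apply aut_ext h
    · intro k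
      rcases lt_trichotomy k j with h2 | h2 | h2
      · rcases eq_or_ne k i with h3 | h3
        · subst h3
          simp only [MulAut.mul_apply, CC_ai, Tp_a_le h h2.le, map_mul, map_inv, fc]
        · simp only [MulAut.mul_apply, CC_a_ne h hij h3 h2.ne, Tp_a_le h h2.le, map_mul, map_inv,
            fc]
      · subst h2
        simp only [MulAut.mul_apply, CC_aj, Tp_a_le h le_rfl, map_mul, map_inv, fc, fv]
        group
      · simp only [MulAut.mul_apply, CC_a_ne h hij (hi.trans h2).ne' h2.ne', Tp_a_gt h h2]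
    · intro k
      rcases lt_trichotomy k j with h2 | h2 | h2
      · rcases eq_or_ne k i with h3 | h3
        · subst h3
          simp only [MulAut.mul_apply, CC_bi, Tp_b_lt h h2, map_mul, map_inv, fc, fv]
          group
        · simp only [MulAut.mul_apply, CC_b_ne h hij h3 h2.ne, Tp_b_lt h h2, map_mul, map_inv,
            fc]
      · subst h2
        simp only [MulAut.mul_apply, CC_bj, Tp_b_self, map_mul, map_inv, fc, fv]
        group
      · simp only [MulAut.mul_apply, CC_b_ne h hij (hi.trans h2).ne' h2.ne', Tp_b_gt h h2]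
  · rcases eq_or_ne i q with h2 | h2
    · subst h2
      have hij' : i < j := h1
      have hCi := CC_mem h hij (le_refl (i : ℕ)) (Nat.lt_succ_self _)
      have fD : CC h i j hij (DD a b i) = DD a b i := MR_DD h hCi (Or.inr le_rfl)
      have fc : CC h i j hij (cp a b i) = cp a b i := by rw [cp, map_mul, fD, CC_ai]
      have fv : Tp h i (cv a b i j) = cv a b i j := by
        rw [cv]
        simp only [map_mul, map_inv, Tp_a_le h (le_refl i), Tp_b_self, Tp_a_gt h hij']
        group
      apply aut_ext h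
      · intro k
        rcases le_or_gt k i with h3 | h3
        · rcases eq_or_lt_of_le h3 with h4 | h4
          · subst h4
            simp only [MulAut.mul_apply, CC_ai, Tp_a_le h le_rfl, map_mul, map_inv, fc]
          · simp only [MulAut.mul_apply, CC_a_ne h hij h4.ne (h4.trans hij').ne, Tp_a_le h h3,
              map_mul, map_inv, fc]
        · rcases eq_or_ne k j with h4 | h4
          · subst h4
            simp only [MulAut.mul_apply, CC_aj, Tp_a_gt h h3, map_mul, map_inv, fv]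
          · simp only [MulAut.mul_apply, CC_a_ne h hij h3.ne' h4, Tp_a_gt h h3]
      · intro k
        rcases lt_trichotomy k i with h3 | h3 | h3
        · simp only [MulAut.mul_apply, CC_b_ne h hij h3.ne (h3.trans hij').ne, Tp_b_lt h h3,
            map_mul, map_inv, fc]
        · subst h3
          simp only [MulAut.mul_apply, CC_bi, Tp_b_self, map_mul, map_inv, fc, fv]
          group
        · rcases eq_or_ne k j with h4 | h4
          · subst h4
            simp only [MulAut.mul_apply, CC_bj, Tp_b_gt h h3, map_mul, map_inv, fv]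
          · simp only [MulAut.mul_apply, CC_b_ne h hij h3.ne' h4, Tp_b_gt h h3]
    · have h3 : (q : ℕ) < j := h1
      have h4 : (i : ℕ) ≠ q := fun he => h2 (Fin.ext he)
      exact Tp_comm_hi h (CC_mem h hij (by omega) j.2)

/-! ### The element moving the twist over a handle -/

/-- The element which shifts the handle `l = q + 1` over the handle `q`. -/
noncomputable def hp (h : IsSurf a b) (q l : Fin m) (hql : (l : ℕ) = q + 1) : MulAut G :=
  (TB h l)⁻¹ * (CC h q l hql)⁻¹ * (TB h q)⁻¹ * TA h q * (TA h l)⁻¹ * TB h l * CC h q l hql * TB h q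

variable {l : Fin m} (hql : (l : ℕ) = q + 1)

theorem hp_mem : hp h q l hql ∈ MR h q (q + 2) := by
  have a1 : TA h q ∈ MR h q (q + 2) := TA_mem h q le_rfl (by omega)
  have a2 : TB h q ∈ MR h q (q + 2) := TB_mem h q le_rfl (by omega)
  have a3 : TA h l ∈ MR h q (q + 2) := TA_mem h l (by omega) (by omega)
  have a4 : TB h l ∈ MR h q (q + 2) := TB_mem h l (by omega) (by omega)
  have a5 : CC h q l hql ∈ MR h q (q + 2) := CC_mem h hql le_rfl (by omega)
  exact mul_mem (mul_mem (mul_mem (mul_mem (mul_mem (mul_mem (mul_mem (inv_mem a4) (inv_mem a5))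
    (inv_mem a2)) a1) (inv_mem a3)) a4) a5) a2

theorem hp_aq : hp h q l hql (a q) = a q * b q * (a q)⁻¹ * (b q)⁻¹ * a l := by
  have n1 := ne_of_succ hql
  simp only [hp, MulAut.mul_apply, map_mul, map_inv, TB_a, TB_b, TA_a, TA_b, TAi_a, TAi_b, TBi_a,
    TBi_b, TB_a_ne h n1, TB_a_ne h n1.symm, TA_b_ne h n1, TA_b_ne h n1.symm, TAi_b_ne h n1,
    TAi_b_ne h n1.symm, TBi_a_ne h n1, TBi_a_ne h n1.symm, CC_ai, CC_bi, CC_aj, CC_bj, CC_cv,
    CCi_ai, CCi_bi, CCi_aj, CCi_bj, CCi_cv, cv]
  group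

theorem hp_bl : hp h q l hql (b l) = b l * (a l)⁻¹ * b q * a q * (b q)⁻¹ * (a q)⁻¹ * (b q)⁻¹ *
    a l * (b l)⁻¹ := by
  have n1 := ne_of_succ hql
  simp only [hp, MulAut.mul_apply, map_mul, map_inv, TB_a, TB_b, TA_a, TA_b, TAi_a, TAi_b, TBi_a,
    TBi_b, TB_a_ne h n1, TB_a_ne h n1.symm, TA_b_ne h n1, TA_b_ne h n1.symm, TAi_b_ne h n1,
    TAi_b_ne h n1.symm, TBi_a_ne h n1, TBi_a_ne h n1.symm, CC_ai, CC_bi, CC_aj, CC_bj, CC_cv,
    CCi_ai, CCi_bi, CCi_aj, CCi_bj, CCi_cv, cv]
  group

theorem hp_bq : hp h q l hql (b q) = b l * (a l)⁻¹ * b q * a q * b q * (a q)⁻¹ * (b q)⁻¹ *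
    a l := by
  have n1 := ne_of_succ hql
  simp only [hp, MulAut.mul_apply, map_mul, map_inv, TB_a, TB_b, TA_a, TA_b, TAi_a, TAi_b, TBi_a,
    TBi_b, TB_a_ne h n1, TB_a_ne h n1.symm, TA_b_ne h n1, TA_b_ne h n1.symm, TAi_b_ne h n1,
    TAi_b_ne h n1.symm, TBi_a_ne h n1, TBi_a_ne h n1.symm, CC_ai, CC_bi, CC_aj, CC_bj, CC_cv,
    CCi_ai, CCi_bi, CCi_aj, CCi_bj, CCi_cv, cv]
  group

theorem hp_al : hp h q l hql (a l) = b l * (a l)⁻¹ * b q * a q * b q * (a q)⁻¹ * (b q)⁻¹ *
    a l * (a q)⁻¹ * (b q)⁻¹ * a l * (b l)⁻¹ := by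
  have n1 := ne_of_succ hql
  simp only [hp, MulAut.mul_apply, map_mul, map_inv, TB_a, TB_b, TA_a, TA_b, TAi_a, TAi_b, TBi_a,
    TBi_b, TB_a_ne h n1, TB_a_ne h n1.symm, TA_b_ne h n1, TA_b_ne h n1.symm, TAi_b_ne h n1,
    TAi_b_ne h n1.symm, TBi_a_ne h n1, TBi_a_ne h n1.symm, CC_ai, CC_bi, CC_aj, CC_bj, CC_cv,
    CCi_ai, CCi_bi, CCi_aj, CCi_bj, CCi_cv, cv]
  group

include hql in
theorem cp_succ : cp a b l = DD a b q * (a q * b q * (a q)⁻¹ * (b q)⁻¹) * a l := by
  rw [cp, hql, DD_succ, cm, ex_val, ex_val]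

theorem hp_cp : hp h q l hql (cp a b q) = cp a b l := by
  rw [cp_succ hql, cp, map_mul, MR_DD h (hp_mem h hql) (Or.inr le_rfl), hp_aq]
  group

/-- The element moves the twist of `q` handles to the twist of `q + 1` handles. -/
theorem hp_Tp : hp h q l hql * Tp h q = Tp h l * hp h q l hql := by
  have hlt : q < l := by rw [Fin.lt_def]; omega
  have fc := hp_cp h hql
  have fix : ∀ k : Fin m, k ≠ q → k ≠ l → hp h q l hql (a k) = a k ∧ hp h q l hql (b k) = b k := by
    intro k h1 h2
    have h3 : (k : ℕ) ≠ q := fun he => h1 (Fin.ext he)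
    have h4 : (k : ℕ) ≠ l := fun he => h2 (Fin.ext he)
    have h5 := MR_fix h (hp_mem h hql) k (by omega)
    rwa [ex_val, ex_val] at h5
  have aq := Tp_a_le h hlt.le
  have bq := Tp_b_lt h hlt
  have al := Tp_a_le h (le_refl l)
  have bl := Tp_b_self h (q := l)
  apply aut_ext h
  · intro k
    rcases lt_trichotomy k q with h2 | h2 | h2
    · have f := fix k h2.ne (h2.trans hlt).ne
      simp only [MulAut.mul_apply, Tp_a_le h h2.le, Tp_a_le h (h2.trans hlt).le, map_mul, map_inv,
        f.1, fc]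
    · subst h2
      simp only [MulAut.mul_apply, Tp_a_le h le_rfl, map_mul, map_inv, hp_aq, fc, aq, bq, al]
      group
    · rcases eq_or_ne k l with h3 | h3
      · subst h3
        simp only [MulAut.mul_apply, Tp_a_gt h h2, hp_al, map_mul, map_inv, aq, bq, al, bl]
        group
      · have h4 : l < k := by
          have h5 : (k : ℕ) ≠ l := fun he => h3 (Fin.ext he)
          rw [Fin.lt_def] at h2 ⊢
          omega
        have f := fix k h2.ne' h3
        simp only [MulAut.mul_apply, Tp_a_gt h h2, Tp_a_gt h h4, f.1]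
  · intro k
    rcases lt_trichotomy k q with h2 | h2 | h2
    · have f := fix k h2.ne (h2.trans hlt).ne
      simp only [MulAut.mul_apply, Tp_b_lt h h2, Tp_b_lt h (h2.trans hlt), map_mul, map_inv,
        f.2, fc]
    · subst h2
      simp only [MulAut.mul_apply, Tp_b_self, map_mul, map_inv, hp_bq, fc, aq, bq, al, bl]
      group
    · rcases eq_or_ne k l with h3 | h3
      · subst h3
        simp only [MulAut.mul_apply, Tp_b_gt h h2, hp_bl, map_mul, map_inv, aq, bq, al, bl]
        group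
      · have h4 : l < k := by
          have h5 : (k : ℕ) ≠ l := fun he => h3 (Fin.ext he)
          rw [Fin.lt_def] at h2 ⊢
          omega
        have f := fix k h2.ne' h3
        simp only [MulAut.mul_apply, Tp_b_gt h h2, Tp_b_gt h h4, f.2]

theorem Tp_succ : Tp h l = hp h q l hql * Tp h q * (hp h q l hql)⁻¹ := by
  rw [hp_Tp, mul_inv_cancel_right]

theorem Tp_zero (hq : (q : ℕ) = 0) : Tp h q = (TA h q)⁻¹ := by
  have hc : cp a b q = a q := by rw [cp, hq, DD_zero, one_mul]
  have hge : ∀ k : Fin m, ¬ k < q := fun k hk => by rw [Fin.lt_def] at hk; omega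
  apply aut_ext h
  · intro k
    rcases lt_trichotomy k q with h2 | h2 | h2
    · exact absurd h2 (hge k)
    · subst h2
      rw [Tp_a_le h le_rfl, hc, TAi_a]
      group
    · rw [Tp_a_gt h h2, TAi_a]
  · intro k
    rcases lt_trichotomy k q with h2 | h2 | h2
    · exact absurd h2 (hge k)
    · subst h2
      rw [Tp_b_self, hc, TAi_b]
    · rw [Tp_b_gt h h2, TAi_b_ne h h2.ne']

/-- The twist belongs to the twist group of the first handles. -/
theorem Tp_mem (q : Fin m) : Tp h q ∈ MR h 0 (q + 1) := by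
  have key : ∀ k : ℕ, ∀ q : Fin m, (q : ℕ) = k → Tp h q ∈ MR h 0 (q + 1) := by
    intro k
    induction k with
    | zero =>
      intro q hq
      rw [Tp_zero h hq]
      exact inv_mem (TA_mem h q (Nat.zero_le _) (Nat.lt_succ_self _))
    | succ k ih =>
      intro q hq
      have hkm : k < m := by have := q.2; omega
      have hql : (q : ℕ) = ((⟨k, hkm⟩ : Fin m) : ℕ) + 1 := hq
      rw [Tp_succ h hql]
      have m1 : hp h ⟨k, hkm⟩ q hql ∈ MR h 0 (q + 1) :=
        MR_mono h (Nat.zero_le _) (by simp only; omega) (hp_mem h hql)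
      have m2 : Tp h ⟨k, hkm⟩ ∈ MR h 0 (q + 1) :=
        MR_mono h (le_refl 0) (by simp only; omega) (ih ⟨k, hkm⟩ rfl)
      exact mul_mem (mul_mem m1 m2) (inv_mem m1)
  exact key q q rfl

/-! ### The element exchanging the two twists -/

theorem braid_swap {S : Type*} [Group S] {A B T : S} (h1 : A * B * A = B * A * B)
    (h2 : T * B * T = B * T * B) (h3 : Commute A T) :
    (B * T * A * B) * A = T * (B * T * A * B) ∧ (B * T * A * B) * T = A * (B * T * A * B) := by
  constructor
  · calc (B * T * A * B) * A = B * T * (A * B * A) := by group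
      _ = (B * T * B) * A * B := by rw [h1]; group
      _ = T * (B * T * A * B) := by rw [← h2]; group
  · calc (B * T * A * B) * T = B * (T * A) * B * T := by group
      _ = B * A * (T * B * T) := by rw [← h3.eq]; group
      _ = (B * A * B) * T * B := by rw [h2]; group
      _ = A * B * (A * T) * B := by rw [← h1]; group
      _ = A * (B * T * A * B) := by rw [h3.eq]; group

/-- The element exchanging the two twists of the bounding pair. -/
noncomputable def HB (h : IsSurf a b) (q : Fin m) : MulAut G :=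
  TB h q * Tp h q * (TA h q)⁻¹ * TB h q

theorem HB_TA : HB h q * (TA h q)⁻¹ = Tp h q * HB h q :=
  (braid_swap (TAi_TB_braid h q) (Tp_TB_braid h) (Tp_TA h q).symm.inv_left).1

theorem HB_Tp : HB h q * Tp h q = (TA h q)⁻¹ * HB h q :=
  (braid_swap (TAi_TB_braid h q) (Tp_TB_braid h) (Tp_TA h q).symm.inv_left).2

end

end Pool.Agent.H.MP_59b15d_al.Deg
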