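import Pool.Agent.H.MP_59b15d_al.lin.Lantern
import Pool.Agent.H.MP_59b15d_al.lin.Tr

/-!
The half turns of the handles, the swaps and the twists of the tree.
-/

set_option autoImplicit false
set_option linter.unusedSimpArgs false

namespace Pool.Agent.H.MP_59b15d_al.Deg

open Pool.MP_59b15d_al.H24T Pool.MP_59b15d_al.H76R Pool.MP_59b15d_al.H73E
open Pool.MP_59b15d_al.H60G Pool.MP_59b15d_al.H40L

section

variable {m : ℕ} {G : Type*} [Group G] {a b : Fin m → G}

/-- The half turn of a handle. -/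
noncomputable def IO (h : IsSurf a b) (i : Fin m) : MulAut G := RR h i * RR h i

variable (h : IsSurf a b)

theorem IO_eq (i : Fin m) : IO h i = ((TA h i)⁻¹ * TB h i) ^ 3 := by
  have h1 := TAi_TB_braid h i
  have h2 : ((TA h i)⁻¹ * TB h i) ^ 3 = ((TA h i)⁻¹ * TB h i * (TA h i)⁻¹) *
      (TB h i * (TA h i)⁻¹ * TB h i) := by
    simp only [pow_succ, pow_zero, one_mul, mul_assoc]
  rw [h2, ← h1]
  rfl

theorem IO_a (i : Fin m) : IO h i (a i) = a i * b i * (a i)⁻¹ * (b i)⁻¹ * (a i)⁻¹ := by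
  rw [IO, MulAut.mul_apply, RR_a]
  simp only [map_mul, map_inv, RR_a, RR_b]
  group

theorem IO_b (i : Fin m) : IO h i (b i) = a i * (b i)⁻¹ * (a i)⁻¹ := by
  rw [IO, MulAut.mul_apply, RR_b]
  simp only [map_mul, map_inv, RR_a, RR_b]
  group

theorem IO_a_ne {i k : Fin m} (hk : k ≠ i) : IO h i (a k) = a k := by
  rw [IO, MulAut.mul_apply, RR_a_ne h hk, RR_a_ne h hk]

theorem IO_b_ne {i k : Fin m} (hk : k ≠ i) : IO h i (b k) = b k := by
  rw [IO, MulAut.mul_apply, RR_b_ne h hk, RR_b_ne h hk]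

theorem IOi_a (i : Fin m) : (IO h i)⁻¹ (a i) = b i * (a i)⁻¹ * (b i)⁻¹ := by
  have h1 : IO h i (b i * (a i)⁻¹ * (b i)⁻¹) = a i := by
    simp only [map_mul, map_inv, IO_a, IO_b]
    group
  conv_lhs => rw [← h1]
  rw [MulAut.inv_apply_self]

theorem IOi_b (i : Fin m) : (IO h i)⁻¹ (b i) =
    b i * a i * (b i)⁻¹ * (a i)⁻¹ * (b i)⁻¹ := by
  have h1 : IO h i (b i * a i * (b i)⁻¹ * (a i)⁻¹ * (b i)⁻¹) = b i := by
    simp only [map_mul, map_inv, IO_a, IO_b]
    group
  conv_lhs => rw [← h1]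
  rw [MulAut.inv_apply_self]

theorem IOi_a_ne {i k : Fin m} (hk : k ≠ i) : (IO h i)⁻¹ (a k) = a k := by
  conv_lhs => rw [← IO_a_ne h hk]
  rw [MulAut.inv_apply_self]

theorem IOi_b_ne {i k : Fin m} (hk : k ≠ i) : (IO h i)⁻¹ (b k) = b k := by
  conv_lhs => rw [← IO_b_ne h hk]
  rw [MulAut.inv_apply_self]

theorem IO_comm (i k : Fin m) : Commute (IO h i) (IO h k) := by
  by_cases hik : i = k
  · rw [hik]
  change IO h i * IO h k = IO h k * IO h i
  apply aut_ext h
  · intro l
    rw [MulAut.mul_apply, MulAut.mul_apply]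
    by_cases hi : l = i
    · subst hi
      simp only [IO_a_ne h hik, IO_a, map_mul, map_inv, IO_b_ne h hik]
    · by_cases hk : l = k
      · subst hk
        simp only [IO_a_ne h hi, IO_a, map_mul, map_inv, IO_b_ne h hi]
      · simp only [IO_a_ne h hi, IO_a_ne h hk]
  · intro l
    rw [MulAut.mul_apply, MulAut.mul_apply]
    by_cases hi : l = i
    · subst hi
      simp only [IO_a_ne h hik, IO_b, map_mul, map_inv, IO_b_ne h hik]
    · by_cases hk : l = k
      · subst hk
        simp only [IO_a_ne h hi, IO_b, map_mul, map_inv, IO_b_ne h hi]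
      · simp only [IO_b_ne h hi, IO_b_ne h hk]

variable {i j k : Fin m} (hij : (j : ℕ) = i + 1) (hjk : (k : ℕ) = j + 1)

/-- The swap exchanges the half turns. -/
theorem SW_IOj : SW h i j hij * IO h j = IO h i * SW h i j hij := by
  have n1 := ne_of_succ hij
  apply aut_ext h
  · intro l
    rw [MulAut.mul_apply, MulAut.mul_apply]
    by_cases hi : l = i
    · subst hi
      simp only [IO_a_ne h n1.symm, SW_ai, map_mul, map_inv, IO_a, IO_b, IO_a_ne h n1,
        IO_b_ne h n1]
      group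
    · by_cases hj : l = j
      · subst hj
        simp only [IO_a, map_mul, map_inv, SW_aj, SW_bj]
      · simp only [IO_a_ne h hi, IO_a_ne h hj, SW_a_ne h hij hi hj]
  · intro l
    rw [MulAut.mul_apply, MulAut.mul_apply]
    by_cases hi : l = i
    · subst hi
      simp only [IO_b_ne h n1.symm, SW_bi, map_mul, map_inv, IO_a, IO_b, IO_a_ne h n1,
        IO_b_ne h n1]
      group
    · by_cases hj : l = j
      · subst hj
        simp only [IO_b, map_mul, map_inv, SW_aj, SW_bj]
      · simp only [IO_b_ne h hi, IO_b_ne h hj, SW_b_ne h hij hi hj]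

/-- The swap exchanges the half turns. -/
theorem SW_IOi : SW h i j hij * IO h i = IO h j * SW h i j hij := by
  have n1 := ne_of_succ hij
  apply aut_ext h
  · intro l
    rw [MulAut.mul_apply, MulAut.mul_apply]
    by_cases hi : l = i
    · subst hi
      simp only [IO_a, SW_ai, SW_bi, map_mul, map_inv, IO_a, IO_b, IO_a_ne h n1.symm,
        IO_b_ne h n1.symm]
      group
    · by_cases hj : l = j
      · subst hj
        simp only [IO_a_ne h hi, map_mul, map_inv, SW_aj, IO_a_ne h n1.symm]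
      · simp only [IO_a_ne h hi, IO_a_ne h hj, SW_a_ne h hij hi hj]
  · intro l
    rw [MulAut.mul_apply, MulAut.mul_apply]
    by_cases hi : l = i
    · subst hi
      simp only [IO_b, SW_ai, SW_bi, map_mul, map_inv, IO_a, IO_b, IO_a_ne h n1.symm,
        IO_b_ne h n1.symm]
      group
    · by_cases hj : l = j
      · subst hj
        simp only [IO_b_ne h hi, map_mul, map_inv, SW_bj, IO_b_ne h n1.symm]
      · simp only [IO_b_ne h hi, IO_b_ne h hj, SW_b_ne h hij hi hj]

theorem R7_aux : CC h i j hij * (SW h i j hij * (IO h i * IO h j)) =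
    SW h i j hij * (IO h i * IO h j) * CC h i j hij := by
  have n1 := ne_of_succ hij
  have e1 := IO_a_ne h n1
  have e2 := IO_b_ne h n1
  have e3 := IO_a_ne h n1.symm
  have e4 := IO_b_ne h n1.symm
  apply aut_ext h
  · intro l
    by_cases hi : l = i
    · subst hi
      simp only [MulAut.mul_apply, IO_a, IO_b, e1, e2, e3, e4, SW_ai, SW_bi, SW_aj, SW_bj,
        map_mul, map_inv, CC_ai, CC_bi, CC_aj, CC_bj, cv]
      group
    · by_cases hj : l = j
      · subst hj
        simp only [MulAut.mul_apply, IO_a, IO_b, e1, e2, e3, e4, SW_ai, SW_bi, SW_aj, SW_bj,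
          map_mul, map_inv, CC_ai, CC_bi, CC_aj, CC_bj, cv]
        group
      · simp only [MulAut.mul_apply, IO_a_ne h hi, IO_a_ne h hj, SW_a_ne h hij hi hj,
          CC_a_ne h hij hi hj]
  · intro l
    by_cases hi : l = i
    · subst hi
      simp only [MulAut.mul_apply, IO_a, IO_b, e1, e2, e3, e4, SW_ai, SW_bi, SW_aj, SW_bj,
        map_mul, map_inv, CC_ai, CC_bi, CC_aj, CC_bj, cv]
      group
    · by_cases hj : l = j
      · subst hj
        simp only [MulAut.mul_apply, IO_a, IO_b, e1, e2, e3, e4, SW_ai, SW_bi, SW_aj, SW_bj,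
          map_mul, map_inv, CC_ai, CC_bi, CC_aj, CC_bj, cv]
        group
      · simp only [MulAut.mul_apply, IO_b_ne h hi, IO_b_ne h hj, SW_b_ne h hij hi hj,
          CC_b_ne h hij hi hj]

/-- **(R7)** -/
theorem R7 : (SW h i j hij)⁻¹ * CC h i j hij * SW h i j hij =
    (IO h i * IO h j) * CC h i j hij * (IO h i * IO h j)⁻¹ := by
  have h1 := R7_aux h hij
  rw [mul_assoc, inv_mul_eq_iff_eq_mul, ← mul_assoc, eq_mul_inv_iff_mul_eq, mul_assoc, h1]
  simp only [mul_assoc]

/-- **(R7)**, second form. -/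
theorem R7' : SW h i j hij * CC h i j hij * (SW h i j hij)⁻¹ =
    (IO h i * IO h j)⁻¹ * CC h i j hij * (IO h i * IO h j) := by
  have h1 := R7_aux h hij
  have h2 : SW h i j hij * (IO h i * IO h j) = (IO h i * IO h j) * SW h i j hij := by
    rw [← mul_assoc, SW_IOi, mul_assoc, SW_IOj, ← mul_assoc, (IO_comm h j i).eq]
  rw [h2] at h1
  rw [mul_inv_eq_iff_eq_mul]
  calc SW h i j hij * CC h i j hij = (IO h i * IO h j)⁻¹ *
      (IO h i * IO h j * SW h i j hij * CC h i j hij) := by group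
    _ = (IO h i * IO h j)⁻¹ * (CC h i j hij * (IO h i * IO h j * SW h i j hij)) := by rw [h1]
    _ = _ := by group

/-- Half of the square of the swap. -/
noncomputable def PP : MulAut G := (IO h j)⁻¹ * CC h i j hij * IO h j * CC h i j hij

theorem PP_ai : PP h hij (a i) = a i := by
  have n1 := ne_of_succ hij
  simp only [PP, MulAut.mul_apply, CC_ai, IO_a_ne h n1.symm, IOi_a_ne h n1.symm]

theorem PP_bi : PP h hij (b i) = b i * (a i)⁻¹ * (b i)⁻¹ * a j * b j * (a j)⁻¹ * (b j)⁻¹ *
    b i * (a i)⁻¹ := by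
  have n1 := ne_of_succ hij
  have e3 := IO_a_ne h n1.symm
  have e4 := IO_b_ne h n1.symm
  have e5 := IOi_a_ne h n1.symm
  have e6 := IOi_b_ne h n1.symm
  simp only [PP, MulAut.mul_apply, CC_ai, CC_bi, CC_aj, CC_bj, cv, map_mul, map_inv, IO_a, IO_b,
    IOi_a, IOi_b, e3, e4, e5, e6]
  group

theorem PP_aj : PP h hij (a j) = b i * (a i)⁻¹ * (b i)⁻¹ * a j * b i * a i * (b i)⁻¹ := by
  have n1 := ne_of_succ hij
  have e3 := IO_a_ne h n1.symm
  have e4 := IO_b_ne h n1.symm
  have e5 := IOi_a_ne h n1.symm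
  have e6 := IOi_b_ne h n1.symm
  simp only [PP, MulAut.mul_apply, CC_ai, CC_bi, CC_aj, CC_bj, cv, map_mul, map_inv, IO_a, IO_b,
    IOi_a, IOi_b, e3, e4, e5, e6]
  group

theorem PP_bj : PP h hij (b j) = b i * (a i)⁻¹ * (b i)⁻¹ * b j * (a j)⁻¹ * (a j)⁻¹ * b i *
    a i * (b i)⁻¹ := by
  have n1 := ne_of_succ hij
  have e3 := IO_a_ne h n1.symm
  have e4 := IO_b_ne h n1.symm
  have e5 := IOi_a_ne h n1.symm
  have e6 := IOi_b_ne h n1.symm
  simp only [PP, MulAut.mul_apply, CC_ai, CC_bi, CC_aj, CC_bj, cv, map_mul, map_inv, IO_a, IO_b,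
    IOi_a, IOi_b, e3, e4, e5, e6]
  group

theorem PP_a_ne {l : Fin m} (h1 : l ≠ i) (h2 : l ≠ j) : PP h hij (a l) = a l := by
  simp only [PP, MulAut.mul_apply, CC_a_ne h hij h1 h2, IO_a_ne h h2, IOi_a_ne h h2]

theorem PP_b_ne {l : Fin m} (h1 : l ≠ i) (h2 : l ≠ j) : PP h hij (b l) = b l := by
  simp only [PP, MulAut.mul_apply, CC_b_ne h hij h1 h2, IO_b_ne h h2, IOi_b_ne h h2]

theorem TA_pow_a (i k : Fin m) (n : ℕ) : (TA h i ^ n) (a k) = a k := by
  induction n with
  | zero => rfl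
  | succ n ih => rw [pow_succ, MulAut.mul_apply, TA_a, ih]

theorem TA_pow_b (i : Fin m) (n : ℕ) : (TA h i ^ n) (b i) = b i * a i ^ n := by
  induction n with
  | zero => rw [pow_zero, pow_zero, mul_one]; rfl
  | succ n ih =>
    rw [pow_succ, MulAut.mul_apply, TA_b, map_mul, ih, TA_pow_a, mul_assoc, ← pow_succ]

theorem TA_pow_b_ne {i k : Fin m} (hk : k ≠ i) (n : ℕ) : (TA h i ^ n) (b k) = b k := by
  induction n with
  | zero => rfl
  | succ n ih => rw [pow_succ, MulAut.mul_apply, TA_b_ne h hk, ih]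

theorem TA_four_b (i : Fin m) : (TA h i ^ 4) (b i) = b i * (a i * a i * a i * a i) := by
  rw [TA_pow_b]
  simp only [pow_succ, pow_zero, one_mul]

set_option maxRecDepth 20000 in
/-- **(R6)** -/
theorem R6 : SW h i j hij * SW h i j hij =
    ((IO h i)⁻¹ * PP h hij * IO h i) * PP h hij * (TA h i ^ 4 * TA h j ^ 4) := by
  have n1 := ne_of_succ hij
  have e1 := IO_a_ne h n1
  have e2 := IO_b_ne h n1
  have e3 := IO_a_ne h n1.symm
  have e4 := IO_b_ne h n1.symm
  have e5 := IOi_a_ne h n1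
  have e6 := IOi_b_ne h n1
  apply aut_ext h
  · intro l
    by_cases hi : l = i
    · subst hi
      simp only [MulAut.mul_apply, TA_pow_a, PP_ai, PP_bi, PP_aj, PP_bj, IO_a, IO_b,
        e1, e2, e3, e4, e5, e6, IOi_a, IOi_b, SW_ai, SW_bi, SW_aj, SW_bj, map_mul, map_inv]
      group
    · by_cases hj : l = j
      · subst hj
        simp only [MulAut.mul_apply, TA_pow_a, PP_ai, PP_bi, PP_aj, PP_bj, IO_a, IO_b,
          e1, e2, e3, e4, e5, e6, IOi_a, IOi_b, SW_ai, SW_bi, SW_aj, SW_bj, map_mul, map_inv]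
        group
      · simp only [MulAut.mul_apply, TA_pow_a, PP_a_ne h hij hi hj, IO_a_ne h hi, IOi_a_ne h hi,
          SW_a_ne h hij hi hj]
  · intro l
    by_cases hi : l = i
    · subst hi
      simp only [MulAut.mul_apply, TA_pow_a, TA_four_b, TA_pow_b_ne h n1.symm, PP_ai, PP_bi,
        PP_aj, PP_bj, IO_a, IO_b, e1, e2, e3, e4, e5, e6, IOi_a, IOi_b, SW_ai, SW_bi, SW_aj,
        SW_bj, map_mul, map_inv]
      group
    · by_cases hj : l = j
      · subst hj
        simp only [MulAut.mul_apply, TA_pow_a, TA_four_b, TA_pow_b_ne h n1, PP_ai, PP_bi,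
          PP_aj, PP_bj, IO_a, IO_b, e1, e2, e3, e4, e5, e6, IOi_a, IOi_b, SW_ai, SW_bi, SW_aj,
          SW_bj, map_mul, map_inv]
        group
      · simp only [MulAut.mul_apply, TA_pow_b_ne h hi, TA_pow_b_ne h hj, PP_b_ne h hij hi hj,
          IO_b_ne h hi, IOi_b_ne h hi, SW_b_ne h hij hi hj]

/-- The braid relation of the swaps. -/
theorem SW_braid : SW h i j hij * SW h j k hjk * SW h i j hij =
    SW h j k hjk * SW h i j hij * SW h j k hjk := by
  have n1 := ne_of_succ hij
  have n2 := ne_of_succ hjk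
  have n3 := ne_ik hij hjk
  have s1 := SW_a_ne h hjk n1.symm n3.symm
  have s2 := SW_b_ne h hjk n1.symm n3.symm
  have s3 := SW_a_ne h hij n3 n2
  have s4 := SW_b_ne h hij n3 n2
  apply aut_ext h
  · intro l
    by_cases hi : l = i
    · subst hi
      simp only [MulAut.mul_apply, map_mul, map_inv, SW_ai, SW_bi, SW_aj, SW_bj, s1, s2, s3, s4]
      group
    · by_cases hj : l = j
      · subst hj
        simp only [MulAut.mul_apply, map_mul, map_inv, SW_ai, SW_bi, SW_aj, SW_bj, s1, s2, s3,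
          s4]
      · by_cases hk : l = k
        · subst hk
          simp only [MulAut.mul_apply, map_mul, map_inv, SW_ai, SW_bi, SW_aj, SW_bj, s1, s2, s3,
            s4]
        · simp only [MulAut.mul_apply, SW_a_ne h hjk hj hk, SW_a_ne h hij hi hj]
  · intro l
    by_cases hi : l = i
    · subst hi
      simp only [MulAut.mul_apply, map_mul, map_inv, SW_ai, SW_bi, SW_aj, SW_bj, s1, s2, s3, s4]
      group
    · by_cases hj : l = j
      · subst hj
        simp only [MulAut.mul_apply, map_mul, map_inv, SW_ai, SW_bi, SW_aj, SW_bj, s1, s2, s3,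
          s4]
      · by_cases hk : l = k
        · subst hk
          simp only [MulAut.mul_apply, map_mul, map_inv, SW_ai, SW_bi, SW_aj, SW_bj, s1, s2, s3,
            s4]
        · simp only [MulAut.mul_apply, SW_b_ne h hjk hj hk, SW_b_ne h hij hi hj]

end

end Pool.Agent.H.MP_59b15d_al.Deg
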