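import Pool.Agent.H.MP_59b15d_al.deg.LiftB
import Pool.Agent.H.MP_59b15d_al.h46u.Inst
import Pool.Agent.H.MP_59b15d_al.h52e.DegY
import Pool.Agent.H.MP_59b15d_al.h60e.LkI
import Pool.Agent.H.MP_59b15d_al.h60p.HbZ

/-!
Central extensions of the mapping class group: the twists of different handles.
-/

set_option autoImplicit false

namespace Pool.Agent.H.MP_59b15d_al.Lft

open Pool.MP_59b15d_al.H93E Pool.MP_59b15d_al.H95E Pool.MP_59b15d_al.H47E
open Pool.MP_59b15d_al.H60E Pool.MP_59b15d_al.H60P Pool.MP_59b15d_al.H46U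
open Pool.MP_59b15d_al.H24T Pool.MP_59b15d_al.H76R Pool.MP_59b15d_al.H73E
open Pool.MP_59b15d_al.H60G Pool.MP_59b15d_al.H40L
open Pool.Agent.H.MP_59b15d_al.Lin (uA uB uC MR_le_MCG)

universe w

section

variable {m : ℕ} {G : Type w} [Group G] {a b : Fin m → G} (h : IsSurf a b)

theorem lk_mcg : Lk m (uA h) (uB h) (uC h) (uS h) :=
  ulk h (LkI.lk_of h (fun _ hk => TrS_lt h hk) (fun _ hk => TrS_ge h hk))

theorem hb_mcg : Hb m (uA h) (uB h) (uC h) (uS h) :=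
  uhb h (LkI.lk_of h (fun _ hk => TrS_lt h hk) (fun _ hk => TrS_ge h hk))

theorem uA_mem1 (hm : 4 ≤ m) :
    uA h 1 ∈ ⁅(MR h 1 4).subgroupOf (MCG a b), (MR h 1 4).subgroupOf (MCG a b)⁆ := by
  have h1 : TrA h 1 ∈ MR h 1 (1 + 3) :=
    Pool.Agent.H.MP_59b15d_al.Lin.TrA_mem h le_rfl (by omega)
  have h2 := Pool.Agent.H.MP_59b15d_al.H52E.MR3_comm h (lo := 1) (by omega) h1
  have h3 : ((MR h 1 4).subgroupOf (MCG a b)).map (MCG a b).subtype = MR h 1 4 := by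
    rw [Subgroup.subgroupOf_map_subtype, inf_eq_left]
    exact MR_le_MCG h 1 4
  have h4 : ⁅(MR h 1 4).subgroupOf (MCG a b), (MR h 1 4).subgroupOf (MCG a b)⁆.map
      (MCG a b).subtype = ⁅MR h 1 4, MR h 1 4⁆ := by
    rw [Subgroup.map_commutator, h3]
  have h5 : TrA h 1 ∈ ⁅(MR h 1 4).subgroupOf (MCG a b), (MR h 1 4).subgroupOf (MCG a b)⁆.map
      (MCG a b).subtype := by
    rw [h4]
    exact h2
  obtain ⟨x, hx, e⟩ := h5
  have e1 : x = uA h 1 := Subtype.ext e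
  rw [← e1]
  exact hx

variable {E : Type*} [Group E] {π : E →* MCG a b}

theorem LC01 (hC : CE π) (hm : 4 ≤ m) : LC π (uA h 0) (uA h 1) := by
  refine LC_commutator hC (P := (MR h 1 4).subgroupOf (MCG a b)) ?_ _ ?_
  · intro p hp
    have h1 : (p : MulAut G) ∈ MR h 1 4 := hp
    have h2 : TrA h 0 ∈ MR h 0 1 := Pool.Agent.H.MP_59b15d_al.Lin.TrA_mem h le_rfl (by omega)
    exact Subtype.ext (Pool.Agent.H.MP_59b15d_al.Lin.MR_comm h (le_refl 1) h2 h1)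
  · exact uA_mem1 h hm

end

end Pool.Agent.H.MP_59b15d_al.Lft
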