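import Pool.Agent.H.MP_59b15d_al.deg.Lan

/-!
The difference curve of three consecutive handles: the swap of the last two handles conjugates
`CC i j` into the group generated by the chain twists and the involutions.
-/

set_option autoImplicit false
set_option linter.unusedSimpArgs false

namespace Pool.Agent.H.MP_59b15d_al.Deg

open Pool.MP_59b15d_al.H24T Pool.MP_59b15d_al.H76R Pool.MP_59b15d_al.H73E
open Pool.MP_59b15d_al.H60G Pool.MP_59b15d_al.H40L

section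

variable {m : ℕ} {G : Type*} [Group G] {a b : Fin m → G}

/-- The word `B_j (A_j B_j C_j B_j⁻¹ A_j⁻¹)⁻¹` in the twists, with `A_j = (TA j)⁻¹`. -/
noncomputable def GE (h : IsSurf a b) (j k : Fin m) (hjk : (k : ℕ) = j + 1) : MulAut G :=
  TB h j * ((TA h j)⁻¹ * TB h j * (CC h j k hjk)⁻¹ * (TB h j)⁻¹ * TA h j)

section ge

variable (h : IsSurf a b) {j k : Fin m} (hjk : (k : ℕ) = j + 1)

theorem GE_aj : GE h j k hjk (a j) = a j * a k := by
  have n2 := ne_of_succ hjk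
  have t1 := TB_a_ne h n2
  have t2 := TAi_b_ne h n2
  simp only [GE, MulAut.mul_apply, TA_a, TBi_a, TBi_b, map_mul, map_inv, CCi_aj, CCi_bj, CCi_ai,
    CCi_bi, cv, TB_a, TB_b, TAi_a, TAi_b, t1, t2]
  group

theorem GE_bj : GE h j k hjk (b j) = (a k)⁻¹ * b j * a k := by
  have n2 := ne_of_succ hjk
  have t1 := TB_a_ne h n2
  have t2 := TAi_b_ne h n2
  simp only [GE, MulAut.mul_apply, TA_a, TA_b, TBi_a, TBi_b, map_mul, map_inv, CCi_aj, CCi_bj,
    CCi_ai, CCi_bi, cv, TB_a, TB_b, TAi_a, TAi_b, t1, t2]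
  group

theorem GE_ak : GE h j k hjk (a k) = (a k)⁻¹ * b j * a k * (b j)⁻¹ * a k := by
  have n2 := ne_of_succ hjk
  have t1 := TB_a_ne h n2
  have t2 := TAi_b_ne h n2
  have t3 := TBi_a_ne h n2
  simp only [GE, MulAut.mul_apply, TA_a, TA_b, TBi_a, TBi_b, map_mul, map_inv, CCi_aj, CCi_bj,
    CCi_ai, CCi_bi, cv, TB_a, TB_b, TAi_a, TAi_b, t1, t2, t3]
  group

theorem GE_bk : GE h j k hjk (b k) = b k * (b j)⁻¹ * a k := by
  have n2 := ne_of_succ hjk
  have t1 := TB_a_ne h n2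
  have t2 := TAi_b_ne h n2
  have t3 := TBi_a_ne h n2
  have t4 := TA_b_ne h n2
  simp only [GE, MulAut.mul_apply, TA_a, TA_b, TBi_a, TBi_b, map_mul, map_inv, CCi_aj, CCi_bj,
    CCi_ai, CCi_bi, cv, TB_a, TB_b, TAi_a, TAi_b, t1, t2, t3, t4]
  group

theorem GE_a_ne {l : Fin m} (h1 : l ≠ j) (h2 : l ≠ k) : GE h j k hjk (a l) = a l := by
  simp only [GE, MulAut.mul_apply, TA_a, TAi_a, TBi_a_ne h h1, TB_a_ne h h1, CCi_a_ne h hjk h1 h2]

theorem GE_b_ne {l : Fin m} (h1 : l ≠ j) (h2 : l ≠ k) : GE h j k hjk (b l) = b l := by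
  simp only [GE, MulAut.mul_apply, TA_b_ne h h1, TAi_b_ne h h1, TBi_b, TB_b,
    CCi_b_ne h hjk h1 h2]

end ge

section star

variable (h : IsSurf a b) {i j k : Fin m} (hij : (j : ℕ) = i + 1) (hjk : (k : ℕ) = j + 1)

theorem CE_GE : CE h i j k hij hjk * GE h j k hjk = GE h j k hjk * CC h i j hij := by
  have n1 := ne_of_succ hij
  have n2 := ne_of_succ hjk
  have n3 := ne_ik hij hjk
  have g1 := GE_a_ne h hjk n1.symm n3.symm
  have g2 := GE_b_ne h hjk n1.symm n3.symm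
  have c1 := CC_a_ne h hij n3 n2
  have c2 := CC_b_ne h hij n3 n2
  apply aut_ext h
  · intro l
    simp only [MulAut.mul_apply]
    by_cases h1 : l = i
    · subst h1
      simp only [g1, CE_ai, CC_ai]
    · by_cases h2 : l = j
      · subst h2
        simp only [GE_aj, GE_bj, GE_ak, GE_bk, g1, g2, CE_ai, CE_bi, CE_aj, CE_bj, CE_ak, CE_bk,
          CC_ai, CC_bi, CC_aj, CC_bj, cv, c1, c2, map_mul, map_inv]
        group
      · by_cases h3 : l = k
        · subst h3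
          simp only [GE_aj, GE_bj, GE_ak, GE_bk, g1, g2, CE_ai, CE_bi, CE_aj, CE_bj, CE_ak,
            CE_bk, CC_ai, CC_bi, CC_aj, CC_bj, cv, c1, c2, map_mul, map_inv]
          group
        · simp only [GE_a_ne h hjk h2 h3, CE_a_ne h hij hjk h1 h2 h3, CC_a_ne h hij h1 h2]
  · intro l
    simp only [MulAut.mul_apply]
    by_cases h1 : l = i
    · subst h1
      simp only [GE_aj, GE_bj, GE_ak, GE_bk, g1, g2, CE_ai, CE_bi, CE_aj, CE_bj, CE_ak, CE_bk,
        CC_ai, CC_bi, CC_aj, CC_bj, cv, c1, c2, map_mul, map_inv]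
      group
    · by_cases h2 : l = j
      · subst h2
        simp only [GE_aj, GE_bj, GE_ak, GE_bk, g1, g2, CE_ai, CE_bi, CE_aj, CE_bj, CE_ak, CE_bk,
          CC_ai, CC_bi, CC_aj, CC_bj, cv, c1, c2, map_mul, map_inv]
        group
      · by_cases h3 : l = k
        · subst h3
          simp only [GE_aj, GE_bj, GE_ak, GE_bk, g1, g2, CE_ai, CE_bi, CE_aj, CE_bj, CE_ak,
            CE_bk, CC_ai, CC_bi, CC_aj, CC_bj, cv, c1, c2, map_mul, map_inv]
          group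
        · simp only [GE_b_ne h hjk h2 h3, CE_b_ne h hij hjk h1 h2 h3, CC_b_ne h hij h1 h2]

theorem CE_eq : CE h i j k hij hjk = GE h j k hjk * CC h i j hij * (GE h j k hjk)⁻¹ :=
  eq_mul_inv_of_mul_eq (CE_GE h hij hjk)

/-- **(STAR)** -/
theorem STAR : (SW h j k hjk)⁻¹ * CC h i j hij * SW h j k hjk =
    (CC h i j hij * (IO h j * CC h j k hjk * (IO h j)⁻¹))⁻¹ *
      ((TA h i)⁻¹ * (TA h j)⁻¹ * (TA h k)⁻¹ *
        (GE h j k hjk * CC h i j hij * (GE h j k hjk)⁻¹)) := by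
  rw [← CE_eq h hij hjk, ← LAN h hij hjk]
  group

/-- **(STAR)**, closure form. -/
theorem STAR_mem (K : Subgroup (MulAut G)) (c1 : CC h i j hij ∈ K) (c2 : CC h j k hjk ∈ K)
    (a1 : TA h i ∈ K) (a2 : TA h j ∈ K) (a3 : TA h k ∈ K) (b2 : TB h j ∈ K) :
    (SW h j k hjk)⁻¹ * CC h i j hij * SW h j k hjk ∈ K := by
  have io : IO h j ∈ K := by
    rw [IO_eq]
    exact K.pow_mem (K.mul_mem (K.inv_mem a2) b2) 3
  have ge : GE h j k hjk ∈ K :=
    K.mul_mem b2 (K.mul_mem (K.mul_mem (K.mul_mem (K.mul_mem (K.inv_mem a2) b2) (K.inv_mem c2))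
      (K.inv_mem b2)) a2)
  rw [STAR h hij hjk]
  exact K.mul_mem (K.inv_mem (K.mul_mem c1 (K.mul_mem (K.mul_mem io c2) (K.inv_mem io))))
    (K.mul_mem (K.mul_mem (K.mul_mem (K.inv_mem a1) (K.inv_mem a2)) (K.inv_mem a3))
      (K.mul_mem (K.mul_mem ge c1) (K.inv_mem ge)))

end star

end

end Pool.Agent.H.MP_59b15d_al.Deg
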