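import Pool.Agent.H.MP_59b15d_al.deg.LiftB

/-!
Central extensions: the lifts of the exchanges.
-/

set_option autoImplicit false

namespace Pool.Agent.H.MP_59b15d_al.Lft

open Pool.MP_59b15d_al.H93E Pool.MP_59b15d_al.H95E Pool.MP_59b15d_al.H47E

variable {E G : Type*} [Group E] [Group G] {π : E →* G}

/-- The exchanges as words in the twists. -/
def Sl (g : ℕ) (A' B' C' : ℕ → E) (i : ℕ) : E :=
  if i + 1 < g then Wd (B' (i + 1)) (A' (i + 1)) (C' i) (B' i) (A' i) *
    ((A' i * B' i) ^ 3 * (A' (i + 1) * B' (i + 1)) ^ 3)⁻¹ else 1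

section

variable {g : ℕ} {A' B' C' : ℕ → E}

theorem Sl_lt {i : ℕ} (hi : i + 1 < g) : Sl g A' B' C' i =
    Wd (B' (i + 1)) (A' (i + 1)) (C' i) (B' i) (A' i) *
      ((A' i * B' i) ^ 3 * (A' (i + 1) * B' (i + 1)) ^ 3)⁻¹ := if_pos hi

theorem Sl_ge {i : ℕ} (hi : g ≤ i + 1) : Sl g A' B' C' i = 1 := if_neg (by omega)

/-- What commutes with the five twists commutes with the exchange. -/
theorem comm_Sl {x : E} {i : ℕ} (h1 : Commute x (A' i)) (h2 : Commute x (B' i))
    (h3 : Commute x (C' i)) (h4 : Commute x (A' (i + 1))) (h5 : Commute x (B' (i + 1))) :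
    Commute x (Sl g A' B' C' i) := by
  unfold Sl
  split_ifs
  · refine Commute.mul_right ?_ (Commute.inv_right ?_)
    · exact ((((h2.mul_right h1).mul_right (h3.mul_right h2)).mul_right
        (h5.mul_right h3)).mul_right (h4.mul_right h5)).mul_right
        (h4.mul_right (((((h3.mul_right h2).mul_right h1).mul_right h3).mul_right h2).mul_right h3))
    · exact ((h1.mul_right h2).pow_right 3).mul_right ((h4.mul_right h5).pow_right 3)
  · exact Commute.one_right x

end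

section lk

variable (h : CE π) {g : ℕ} {A B C S : ℕ → G} (L : Lk g A B C S)
  (hAA : ∀ i j, i < g → j < g → i ≠ j → LC π (A i) (A j)) {A' B' C' : ℕ → E}
  (D : LD π g A B C A' B' C')

include h L hAA D

theorem cAA (i j : ℕ) : Commute (A' i) (A' j) := by
  rcases Nat.lt_or_ge i g with hi | hi
  · rcases Nat.lt_or_ge j g with hj | hj
    · by_cases h1 : i = j
      · subst h1; exact Commute.refl _
      · exact hAA i j hi hj h1 _ _ (D.pA i) (D.pA j)
    · rw [D.oA j hj]; exact Commute.one_right _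
  · rw [D.oA i hi]; exact Commute.one_left _

theorem cAB (i j : ℕ) (hij : i ≠ j) : Commute (A' i) (B' j) := by
  rcases Nat.lt_or_ge i g with hi | hi
  · rcases Nat.lt_or_ge j g with hj | hj
    · exact LC_AB h L hAA hi hj hij _ _ (D.pA i) (D.pB j)
    · rw [D.oB j hj]; exact Commute.one_right _
  · rw [D.oA i hi]; exact Commute.one_left _

theorem cBB (i j : ℕ) : Commute (B' i) (B' j) := by
  rcases Nat.lt_or_ge i g with hi | hi
  · rcases Nat.lt_or_ge j g with hj | hj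
    · by_cases h1 : i = j
      · subst h1; exact Commute.refl _
      · exact LC_BB h L hAA hi hj h1 _ _ (D.pB i) (D.pB j)
    · rw [D.oB j hj]; exact Commute.one_right _
  · rw [D.oB i hi]; exact Commute.one_left _

theorem cAC (i j : ℕ) : Commute (A' i) (C' j) := by
  rcases Nat.lt_or_ge i g with hi | hi
  · rcases Nat.lt_or_ge (j + 1) g with hj | hj
    · exact LC_AC h L hAA hi hj _ _ (D.pA i) (D.pC j)
    · rw [D.oC j hj]; exact Commute.one_right _
  · rw [D.oA i hi]; exact Commute.one_left _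

theorem cBC (i j : ℕ) (h1 : i ≠ j) (h2 : i ≠ j + 1) : Commute (B' i) (C' j) := by
  rcases Nat.lt_or_ge i g with hi | hi
  · rcases Nat.lt_or_ge (j + 1) g with hj | hj
    · exact LC_BC h L hAA hi hj h1 h2 _ _ (D.pB i) (D.pC j)
    · rw [D.oC j hj]; exact Commute.one_right _
  · rw [D.oB i hi]; exact Commute.one_left _

theorem cCC (i j : ℕ) : Commute (C' i) (C' j) := by
  rcases Nat.lt_or_ge (i + 1) g with hi | hi
  · rcases Nat.lt_or_ge (j + 1) g with hj | hj
    · by_cases h1 : i = j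
      · subst h1; exact Commute.refl _
      · exact LC_CC h L hAA hi hj h1 _ _ (D.pC i) (D.pC j)
    · rw [D.oC j hj]; exact Commute.one_right _
  · rw [D.oC i hi]; exact Commute.one_left _

theorem ch {i : ℕ} (hi : i + 1 < g) : Ch5 (A' (i + 1)) (B' (i + 1)) (C' i) (B' i) (A' i) where
  b12 := D.brA _ hi
  b23 := D.brC' i hi
  b34 := Br.symm (D.brC i hi)
  b45 := Br.symm (D.brA i (by omega))
  c13 := cAC h L hAA D _ _
  c14 := cAB h L hAA D _ _ (by omega)
  c15 := cAA h L hAA D _ _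
  c24 := cBB h L hAA D _ _
  c25 := (cAB h L hAA D _ _ (by omega)).symm
  c35 := (cAC h L hAA D _ _).symm

omit hAA in
theorem pS (hS : ∀ i, g ≤ i + 1 → S i = 1) (i : ℕ) : π (Sl g A' B' C' i) = S i := by
  rcases Nat.lt_or_ge (i + 1) g with hi | hi
  · rw [Sl_lt hi, S_eq L hi]
    simp only [Wd, map_mul, map_inv, map_pow, D.pA, D.pB, D.pC]
  · rw [Sl_ge hi, map_one, hS i hi]

/-- The square of the two half turns commutes with the twists of the handles. -/
theorem K_A {i : ℕ} (hi : i + 1 < g) :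
    Commute (((A' i * B' i) ^ 3 * (A' (i + 1) * B' (i + 1)) ^ 3)⁻¹) (A' i) := by
  refine Commute.inv_left (Commute.mul_left (cube_x (D.brA i (by omega))) ?_)
  exact ((cAA h L hAA D _ _).mul_left (cAB h L hAA D _ _ (by omega)).symm).pow_left 3

theorem K_B {i : ℕ} (hi : i + 1 < g) :
    Commute (((A' i * B' i) ^ 3 * (A' (i + 1) * B' (i + 1)) ^ 3)⁻¹) (B' i) := by
  refine Commute.inv_left (Commute.mul_left (cube_y (D.brA i (by omega))) ?_)
  exact ((cAB h L hAA D _ _ (by omega)).mul_left (cBB h L hAA D _ _)).pow_left 3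

theorem K_A1 {i : ℕ} (hi : i + 1 < g) :
    Commute (((A' i * B' i) ^ 3 * (A' (i + 1) * B' (i + 1)) ^ 3)⁻¹) (A' (i + 1)) := by
  refine Commute.inv_left (Commute.mul_left ?_ (cube_x (D.brA (i + 1) hi)))
  exact ((cAA h L hAA D _ _).mul_left (cAB h L hAA D _ _ (by omega)).symm).pow_left 3

theorem K_B1 {i : ℕ} (hi : i + 1 < g) :
    Commute (((A' i * B' i) ^ 3 * (A' (i + 1) * B' (i + 1)) ^ 3)⁻¹) (B' (i + 1)) := by
  refine Commute.inv_left (Commute.mul_left ?_ (cube_y (D.brA (i + 1) hi)))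
  exact ((cAB h L hAA D _ _ (by omega)).mul_left (cBB h L hAA D _ _)).pow_left 3

theorem sA {i : ℕ} (hi : i + 1 < g) : SemiconjBy (Sl g A' B' C' i) (A' i) (A' (i + 1)) := by
  rw [Sl_lt hi]
  exact SemiconjBy.mul_left (W_a (ch h L hAA D hi)) (K_A h L hAA D hi)

theorem sA' {i : ℕ} (hi : i + 1 < g) : SemiconjBy (Sl g A' B' C' i) (A' (i + 1)) (A' i) := by
  rw [Sl_lt hi]
  exact SemiconjBy.mul_left (W_a1 (ch h L hAA D hi)) (K_A1 h L hAA D hi)

theorem sB {i : ℕ} (hi : i + 1 < g) : SemiconjBy (Sl g A' B' C' i) (B' i) (B' (i + 1)) := by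
  rw [Sl_lt hi]
  exact SemiconjBy.mul_left (W_b (ch h L hAA D hi)) (K_B h L hAA D hi)

theorem sB' (hS : ∀ i, g ≤ i + 1 → S i = 1) {i : ℕ} (hi : i + 1 < g) :
    SemiconjBy (Sl g A' B' C' i) (B' (i + 1)) (B' i) := by
  refine h.sc_of ?_ (sA' h L hAA D hi) (D.brA (i + 1) hi) (D.brA i (by omega))
  rw [map_mul, map_mul, pS h L D hS, D.pB, D.pB]
  exact L.SB' i hi

/-- The exchange and the twist joining the handles. -/
theorem sC {i : ℕ} (hi : i + 1 < g) : SemiconjBy (Sl g A' B' C' i)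
    ((A' i * B' i) ^ 3 * (A' (i + 1) * B' (i + 1)) ^ 3 * C' i *
      ((A' i * B' i) ^ 3 * (A' (i + 1) * B' (i + 1)) ^ 3)⁻¹) (C' i) := by
  rw [Sl_lt hi]
  refine SemiconjBy.mul_left (W_c (ch h L hAA D hi)) ?_
  change ((A' i * B' i) ^ 3 * (A' (i + 1) * B' (i + 1)) ^ 3)⁻¹ *
    ((A' i * B' i) ^ 3 * (A' (i + 1) * B' (i + 1)) ^ 3 * C' i *
      ((A' i * B' i) ^ 3 * (A' (i + 1) * B' (i + 1)) ^ 3)⁻¹) = C' i *
      ((A' i * B' i) ^ 3 * (A' (i + 1) * B' (i + 1)) ^ 3)⁻¹
  group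

theorem lk_lift (hS : ∀ i, g ≤ i + 1 → S i = 1) : Lk g A' B' C' (Sl g A' B' C') where
  AA := cAA h L hAA D
  AC := cAC h L hAA D
  CC := cCC h L hAA D
  AB := cAB h L hAA D
  BB := cBB h L hAA D
  BC := cBC h L hAA D
  brA := by
    intro i
    rcases Nat.lt_or_ge i g with hi | hi
    · exact D.brA i hi
    · rw [D.oA i hi, D.oB i hi]
  brC := D.brC
  brC' := D.brC'
  SA := fun i hi => (sA h L hAA D hi).eq
  SA' := fun i hi => (sA' h L hAA D hi).eq
  SB := fun i hi => (sB h L hAA D hi).eq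
  SB' := fun i hi => (sB' h L hAA D hS hi).eq
  SAo := fun i j h1 h2 => (comm_Sl (cAA h L hAA D _ _) (cAB h L hAA D _ _ h1)
    (cAC h L hAA D _ _) (cAA h L hAA D _ _) (cAB h L hAA D _ _ h2)).symm
  SBo := fun i j h1 h2 => (comm_Sl (cAB h L hAA D _ _ (Ne.symm h1)).symm (cBB h L hAA D _ _)
    (cBC h L hAA D _ _ h1 h2) (cAB h L hAA D _ _ (Ne.symm h2)).symm (cBB h L hAA D _ _)).symm
  SCo := fun i j h1 h2 h3 => (comm_Sl (cAC h L hAA D _ _).symm
    (cBC h L hAA D _ _ (Ne.symm h2) (Ne.symm h1)).symm (cCC h L hAA D _ _)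
    (cAC h L hAA D _ _).symm
    (cBC h L hAA D _ _ (Ne.symm h3) (by omega)).symm).symm
  SSC := by
    intro i hi
    have hB : SemiconjBy (Sl g A' B' C' i * Sl g A' B' C' (i + 1)) (B' i) (B' (i + 1)) := by
      refine SemiconjBy.mul_left (sB h L hAA D (by omega)) ?_
      exact (comm_Sl (cAB h L hAA D _ _ (by omega)).symm (cBB h L hAA D _ _)
        (cBC h L hAA D _ _ (by omega) (by omega)) (cAB h L hAA D _ _ (by omega)).symm
        (cBB h L hAA D _ _)).symm
    refine (h.sc_of ?_ hB (D.brC i (by omega)) (D.brC (i + 1) (by omega))).eq.trans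
      (mul_assoc _ _ _).symm
    simp only [map_mul, pS h L D hS, D.pC]
    rw [L.SSC i hi, mul_assoc]
  SSC' := by
    intro i hi
    have hB : SemiconjBy (Sl g A' B' C' (i + 1) * Sl g A' B' C' i) (B' (i + 2)) (B' (i + 1)) := by
      refine SemiconjBy.mul_left (sB' h L hAA D hS hi) ?_
      exact (comm_Sl (cAB h L hAA D _ _ (by omega)).symm (cBB h L hAA D _ _)
        (cBC h L hAA D _ _ (by omega) (by omega)) (cAB h L hAA D _ _ (by omega)).symm
        (cBB h L hAA D _ _)).symm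
    refine (h.sc_of ?_ hB (D.brC' (i + 1) (by omega)) (D.brC' i (by omega))).eq.trans
      (mul_assoc _ _ _).symm
    simp only [map_mul, pS h L D hS, D.pC]
    rw [L.SSC' i hi, mul_assoc]
  gar := by
    intro i hi
    rw [Sl_lt hi, inv_mul_cancel_right]
    rfl
  Cout := D.oC

end lk

end Pool.Agent.H.MP_59b15d_al.Lft
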