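import Pool.Agent.H.MP_59b15d_al.deg.LiftD
import Pool.Agent.H.MP_59b15d_al.deg.LiftE
import Pool.Agent.H.MP_59b15d_al.deg.Star
import Pool.Agent.H.MP_59b15d_al.h47p.ScL

/-!
Central extensions of the mapping class group: exact lifts of the generators.
-/

set_option autoImplicit false

namespace Pool.Agent.H.MP_59b15d_al.Lft

open Pool.MP_59b15d_al.H93E Pool.MP_59b15d_al.H95E Pool.MP_59b15d_al.H47E
open Pool.MP_59b15d_al.H47P
open Pool.MP_59b15d_al.H60E Pool.MP_59b15d_al.H60P Pool.MP_59b15d_al.H46U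
open Pool.MP_59b15d_al.H24T Pool.MP_59b15d_al.H76R Pool.MP_59b15d_al.H73E
open Pool.MP_59b15d_al.H60G Pool.MP_59b15d_al.H40L
open Pool.Agent.H.MP_59b15d_al.Deg (GE CE_eq LAN IO_eq)
open Pool.Agent.H.MP_59b15d_al.Lin (uA uB uC MR_le_MCG)

universe w

section lan

variable {m : ℕ} {G : Type w} [Group G] {a b : Fin m → G} (h : IsSurf a b)

theorem GE_Ge {j : ℕ} (hj : j + 1 < m) : GE h ⟨j, by omega⟩ ⟨j + 1, hj⟩ rfl =
    Ge (TrA h) (TrB h) (TrC h) j := by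
  rw [GE, Ge, TrA_lt h (by omega : j < m), TrB_lt h (by omega : j < m), TrC_lt h hj, inv_inv]

/-- The lantern relation, in the automorphism group. -/
theorem lnz_tr : LnZ m (TrA h) (TrB h) (TrC h) (TrS h) 1 := by
  intro i hi
  have e1 : fa (TrC h) (TrS h) i 0 = CC h ⟨i, by omega⟩ ⟨i + 1, by omega⟩ rfl := by
    rw [fa_zero, TrC_lt h (by omega : i + 1 < m)]
  have e2 : fa (TrC h) (TrS h) (i + 1) 0 = CC h ⟨i + 1, by omega⟩ ⟨i + 2, hi⟩ rfl := by
    rw [fa_zero]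
    exact TrC_lt h (by omega : i + 1 + 1 < m)
  have e3 : fa (TrC h) (TrS h) i 1 =
      (SW h ⟨i + 1, by omega⟩ ⟨i + 2, hi⟩ rfl)⁻¹ * CC h ⟨i, by omega⟩ ⟨i + 1, by omega⟩ rfl *
        SW h ⟨i + 1, by omega⟩ ⟨i + 2, hi⟩ rfl := by
    have e4 : fa (TrC h) (TrS h) i 1 =
      (TrS h (i + 1))⁻¹ * fa (TrC h) (TrS h) i 0 * TrS h (i + 1) := rfl
    rw [e4, e1, TrS_lt h (by omega : i + 1 + 1 < m)]
  have e5 : (TrA h (i + 1) * TrB h (i + 1)) ^ 3 = Deg.IO h ⟨i + 1, by omega⟩ := by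
    rw [IO_eq, TrA_lt h (by omega : i + 1 < m), TrB_lt h (by omega : i + 1 < m)]
  have e6 : Ew (TrA h) (TrB h) (TrC h) i =
      Pool.MP_59b15d_al.H40L.CE h ⟨i, by omega⟩ ⟨i + 1, by omega⟩ ⟨i + 2, hi⟩ rfl rfl := by
    rw [CE_eq h, Ew, GE_Ge h hi, TrC_lt h (by omega : i + 1 < m)]
  rw [e1, e2, e3, e5, e6, one_mul, TrA_lt h (by omega : i < m),
    TrA_lt h (by omega : i + 1 < m), TrA_lt h (by omega : i + 2 < m)]
  exact LAN h rfl rfl

/-- The lantern relation, in the mapping class group. -/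
theorem lnz_mcg : LnZ m (uA h) (uB h) (uC h) (uS h) 1 := by
  intro i hi
  exact Subtype.ext (lnz_tr h i hi)

theorem uB_out {i : ℕ} (hi : m ≤ i) : uB h i = 1 :=
  Subtype.ext (dif_neg (by omega) : TrB h i = 1)

theorem uS_out {i : ℕ} (hi : m ≤ i + 1) : uS h i = 1 := Subtype.ext (TrS_ge h hi)

end lan

section

variable {m : ℕ} {G : Type w} [Group G] {a b : Fin m → G} (h : IsSurf a b)
variable {E : Type*} [Group E]

/-- Exact lifts of the generators of the mapping class group. -/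
structure LM (π : E →* MCG a b) (A B C S : ℕ → E) : Prop where
  pA : ∀ i, π (A i) = uA h i
  pB : ∀ i, π (B i) = uB h i
  pC : ∀ i, π (C i) = uC h i
  pS : ∀ i, π (S i) = uS h i
  oA : ∀ i, m ≤ i → A i = 1
  oB : ∀ i, m ≤ i → B i = 1
  oC : ∀ i, m ≤ i + 1 → C i = 1
  oS : ∀ i, m ≤ i + 1 → S i = 1
  lk : Lk m A B C S
  lnz : LnZ m A B C S 1
  ln : Ln m A B C S
  hbz : HbZ m A B C S π.ker
  bp : ∀ q : Fin m, ∃ T, π T = uT h q ∧ Bp m A B C S q T

/-- **Exact lifts exist.** -/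
theorem exists_LM {π : E →* MCG a b} (hC : CE π) (hm : 4 ≤ m) :
    ∃ A B C S : ℕ → E, LM h π A B C S := by
  have L := lk_mcg h
  have hA : ∀ i, m ≤ i → uA h i = 1 := fun i hi => uA_out h hi
  have hB : ∀ i, m ≤ i → uB h i = 1 := fun i hi => uB_out h hi
  have hS : ∀ i, m ≤ i + 1 → uS h i = 1 := fun i hi => uS_out h hi
  have h01 := LC01 h hC hm
  obtain ⟨A, B, C, D, L', R⟩ := exact_lift hC L (by omega) hA hB hS h01 (lnz_mcg h)
  have hAA := LC_AA hC L h01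
  refine ⟨A, B, C, Sl m A B C, D.pA, D.pB, D.pC, pS hC L D hS, D.oA, D.oB, D.oC, ?_, L', R,
    R.ln L', hbz_lift hC L hAA D hS (hb_mcg h), fun q => ?_⟩
  · intro i hi
    exact Sl_ge hi
  · exact Lft.bp_lift hC L hAA D hm hS (R.ln L') q.2 (ubp h q)

end

end Pool.Agent.H.MP_59b15d_al.Lft
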