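import Pool.Agent.H.MP_59b15d_al.deg.LiftG
import Pool.Agent.H.MP_59b15d_al.h40d.PairsL
import Pool.Agent.H.MP_59b15d_al.h78e.Fin

/-!
Perfect central extensions of the mapping class group in characteristic zero: if a twist has finite
order up to scalars, then the representation is trivial.
-/

set_option autoImplicit false

namespace Pool.Agent.H.MP_59b15d_al.Lft

open Module
open Pool.MP_59b15d_al.H95E Pool.MP_59b15d_al.H93E
open Pool.MP_59b15d_al.H24T Pool.MP_59b15d_al.H76R Pool.MP_59b15d_al.H73E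
open Pool.MP_59b15d_al.H60G Pool.MP_59b15d_al.H40L Pool.MP_59b15d_al.H46U
open Pool.Agent.H.MP_59b15d_al.Lin (uA uB uC)
open Pool.Agent.H.MP_59b15d_al.H52E (Irr)

universe u v w x

section

variable {F : Type u} [Field F] {V : Type v} [AddCommGroup V] [Module F V]

/-- A unipotent operator in characteristic zero, a power of which is a scalar, is trivial. -/
theorem scal_unip [CharZero F] {x : Module.End F V} {n r : ℕ} (hn : n ≠ 0)
    (hu : (x - 1) ^ r = 0) {c : F} (hc : ∀ v, (x ^ n) v = c • v) : x = 1 := by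
  rcases subsingleton_or_nontrivial V with hV | hV
  · exact Subsingleton.elim _ _
  have h1 : (x ^ n - 1) ^ r = 0 := by
    have h2 : x ^ n - 1 = (x - 1) * ∑ i ∈ Finset.range n, x ^ i := (mul_geom_sum x n).symm
    have h3 : Commute (x - 1) (∑ i ∈ Finset.range n, x ^ i) := by
      refine Commute.sum_right _ _ _ fun i _ => ?_
      exact ((Commute.refl x).sub_left (Commute.one_left x)).pow_right i
    rw [h2, h3.mul_pow, hu, zero_mul]
  have h4 : ∀ v, (x ^ n - 1) v = (c - 1) • v := by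
    intro v
    rw [LinearMap.sub_apply, hc, sub_smul, one_smul]
    rfl
  have h5 : ∀ k : ℕ, ∀ v, ((x ^ n - 1) ^ k) v = (c - 1) ^ k • v := by
    intro k
    induction k with
    | zero => intro v; rw [pow_zero, pow_zero, one_smul]; rfl
    | succ k ih => intro v; rw [pow_succ, Module.End.mul_apply, h4, ih, smul_smul, pow_succ]
  obtain ⟨v, hv⟩ := exists_ne (0 : V)
  have h6 := h5 r v
  rw [h1, LinearMap.zero_apply] at h6
  have h7 : c - 1 = 0 := by
    rcases smul_eq_zero.1 h6.symm with h8 | h8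
    · exact eq_zero_of_pow_eq_zero h8
    · exact absurd h8 hv
  have h8 : x ^ n = 1 := by
    ext v
    rw [hc, sub_eq_zero.1 h7, one_smul]
    rfl
  rcases Nat.eq_zero_or_pos r with h9 | h9
  · rw [h9, pow_zero] at hu
    have h10 := LinearMap.congr_fun hu v
    exact absurd h10 hv
  · obtain ⟨s, rfl⟩ : ∃ s, r = s + 1 := ⟨r - 1, by omega⟩
    exact sub_eq_zero.1 (Pool.Agent.H.MP_59b15d_al.H78E.unip_finite hn h8 s hu)

end

/-- Powers of the twists of different handles. -/
theorem pow_SQ {F : Type u} [Field F] {V : Type v} [AddCommGroup V] [Module F V] {E : Type x}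
    [Group E] {ρ : E →* Module.End F V} {g : ℕ} {A B C S : ℕ → E} (L : Lk g A B C S) {n i : ℕ}
    (hi : i < g) (hAi : A i ^ n ∈ SQ ρ) : A 0 ^ n ∈ SQ ρ := by
  have cj : ∀ x y : E, x * y * x = y * x * y → x ^ n ∈ SQ ρ → y ^ n ∈ SQ ρ := by
    intro x y hxy hx
    have h1 : y = (x * y) * x * (x * y)⁻¹ := by
      rw [hxy, mul_inv_rev]
      group
    rw [h1, conj_pow]
    exact SQ_normal.conj_mem _ hx _
  have hBd : ∀ j, j < g → B j ^ n ∈ SQ ρ → B 0 ^ n ∈ SQ ρ := by
    intro j
    induction j with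
    | zero => exact fun _ hj => hj
    | succ j ih =>
      intro hj hj'
      exact ih (by omega) (cj _ _ (L.brC j hj).symm (cj _ _ (L.brC' j hj) hj'))
  exact cj _ _ (L.brA 0).symm (hBd i hi (cj _ _ (L.brA i) hAi))

variable {m : ℕ} {G : Type w} [Group G] {a b : Fin m → G} (h : IsSurf a b)
variable {F : Type u} [Field F] {E : Type x} [Group E] {π : E →* MCG a b}

/-- A representation in which the twist of the first handle is trivial is trivial. -/
theorem triv_of_A (hC : CE π) (hperf : ∀ x : E, x ∈ commutator E) (hm : 0 < m)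
    {A B C S : ℕ → E} (M : LM h π A B C S) {R : Type*} [Monoid R] (ρ : E →* R)
    (h0 : ρ (A 0) = 1) : ∀ x, ρ x = 1 := by
  have br : ∀ x y : E, x * y * x = y * x * y → ρ x = 1 → ρ y = 1 := by
    intro x y hxy hx
    have h1 : y = (x * y) * x * (x * y)⁻¹ := by
      rw [hxy, mul_inv_rev]
      group
    have h2 : ρ ((x * y) * (x * y)⁻¹) = 1 := by rw [mul_inv_cancel, map_one]
    rw [h1, map_mul, map_mul _ (x * y), hx, mul_one, ← map_mul, h2]
  have hB : ∀ i, i < m → ρ (B i) = 1 := by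
    intro i
    induction i with
    | zero => exact fun _ => br _ _ (M.lk.brA 0) h0
    | succ i ih =>
      intro hi
      exact br _ _ (M.lk.brC' i hi).symm (br _ _ (M.lk.brC i hi) (ih (by omega)))
  have h1 := Pool.MP_59b15d_al.H40D.gen_LM h hC hperf hm M ρ.ker
    (fun i hi => br _ _ (M.lk.brA i).symm (hB i hi)) hB
    (fun i hi => br _ _ (M.lk.brC i hi) (hB i (by omega)))
  intro x
  have h2 : x ∈ ρ.ker := by rw [h1]; exact Subgroup.mem_top x
  exact h2

/-- **A twist of finite order up to scalars.** -/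
theorem triv_of_twist [CharZero F] (hC : CE π) (hperf : ∀ x : E, x ∈ commutator E) (hm : 6 ≤ m)
    {V : Type v} [AddCommGroup V] [Module F V] [FiniteDimensional F V] (ρ : E →* Module.End F V)
    (hD : finrank F V < 2 ^ (m - 1)) (hz : Sz {z | π z = 1} ρ) {t : E} {i : ℕ} (hi : i < m)
    (ht : π t = uA h i) {n : ℕ} (hn : n ≠ 0) (hs : t ^ n ∈ SQ ρ) : ∀ x, ρ x = 1 := by
  obtain ⟨A, B, C, S, M⟩ := exists_LM h hC (by omega)
  have hAi : A i ^ n ∈ SQ ρ := by
    have h1 : π (A i * t⁻¹) = 1 := by rw [map_mul, map_inv, M.pA, ht, mul_inv_cancel]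
    have h2 : A i = (A i * t⁻¹) * t := by group
    have h3 : Commute (A i * t⁻¹) t := hC.cen _ h1 t
    rw [h2, h3.mul_pow]
    exact mul_mem (pow_mem (hz _ h1) n) hs
  have hA0 : A 0 ^ n ∈ SQ ρ := pow_SQ M.lk hi hAi
  -- the constituents
  have hT : ∀ (W : Type v) [AddCommGroup W] [Module F W] [FiniteDimensional F W]
      (τ : E →* Module.End F W), finrank F W ≤ finrank F V → Irr τ →
        Sz ({z | π z = 1} ∪ {A 0 ^ n}) τ → ∀ φ ∈ (⊤ : Subgroup E), τ φ = 1 := by
    intro W _ _ _ τ hW hirr hz' φ _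
    obtain ⟨⟨k, -, hk⟩, -⟩ := Pool.MP_59b15d_al.H40D.pairs_LM h hC hperf M hm
      (lt_of_le_of_lt hW hD) (fun z hz1 => hz' z (Or.inl hz1)) hirr
    obtain ⟨c, hc⟩ := hz' (A 0 ^ n) (Or.inr rfl)
    rw [map_pow] at hc
    exact triv_of_A h hC hperf (by omega) M τ (scal_unip hn hk hc) φ
  have hz2 : Sz ({z | π z = 1} ∪ {A 0 ^ n}) ρ := by
    rintro z (hz1 | hz1)
    · exact hz z hz1
    · rw [Set.mem_singleton_iff] at hz1
      rw [hz1]
      exact hA0
  have hu := unip_sc (T := (⊤ : Subgroup E)) hT (finrank F V) V ρ le_rfl le_rfl hz2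
    (List.replicate (finrank F V) (A 0)) (fun φ _ => Subgroup.mem_top φ)
    (by rw [List.length_replicate])
  rw [List.map_replicate, List.prod_replicate] at hu
  obtain ⟨c, hc⟩ := hA0
  rw [map_pow] at hc
  exact triv_of_A h hC hperf (by omega) M ρ (scal_unip hn hu hc)

end Pool.Agent.H.MP_59b15d_al.Lft
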