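import Pool.Agent.H.MP_59b15d_al.deg.FullC
import Pool.Agent.H.MP_59b15d_al.deg.LiftI
import Pool.Agent.H.MP_59b15d_al.h73p.Fin

/-!
The bound `2 ^ g` for `g ≥ 8` (60 for `g = 6`, 84 for `g = 7`): linear representations, central
extensions, projective representations.
-/

set_option autoImplicit false

namespace Pool.Agent.H.MP_59b15d_al.Lft

open Module
open Pool.MP_59b15d_al.H95E Pool.MP_59b15d_al.H93E Pool.MP_59b15d_al.H11D
open Pool.MP_59b15d_al.H60E Pool.MP_59b15d_al.H47E Pool.MP_59b15d_al.H95P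
open Pool.MP_59b15d_al.H24T Pool.MP_59b15d_al.H76R Pool.MP_59b15d_al.H73E
open Pool.MP_59b15d_al.H60G Pool.MP_59b15d_al.H40L Pool.MP_59b15d_al.H46U
open Pool.Agent.H.MP_59b15d_al.Lin (uA uB uC)
open Pool.Agent.H.MP_59b15d_al.H52E
open Pool.Agent.H.MP_59b15d_al.H73P
open Pool.Agent.H.MP_59b15d_al.SP (cls)

universe u v w x

/-! ### Numbers -/

/-- The bound. -/
def Bd (g : ℕ) : ℕ := if g < 8 then 2 * g * (g - 1) else 2 ^ g

lemma Bd_le {g : ℕ} (hg : 6 ≤ g) : Bd g ≤ 2 ^ g := by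
  rw [Bd]
  split_ifs with h
  · rcases (by omega : g = 6 ∨ g = 7) with rfl | rfl <;> decide
  · exact le_rfl

lemma choose_dbl (k j : ℕ) :
    2 * (2 * k + (j + 1)).choose k ≤ (2 * (k + 1) + (j + 1)).choose (k + 1) := by
  have h1 : (2 * (k + 1) + (j + 1)).choose (k + 1) =
      (2 * k + j + 2).choose k + (2 * k + j + 2).choose (k + 1) := by
    rw [show 2 * (k + 1) + (j + 1) = (2 * k + j + 2) + 1 by omega]
    exact Nat.choose_succ_succ _ _
  have h2 : (2 * k + j + 2).choose (k + 1) =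
      (2 * k + j + 1).choose k + (2 * k + j + 1).choose (k + 1) := Nat.choose_succ_succ _ _
  have h3 : (2 * k + j + 1).choose k ≤ (2 * k + j + 1).choose (k + 1) := by
    rcases Nat.eq_zero_or_pos j with rfl | hj
    · rw [Nat.add_zero, Nat.choose_symm_half]
    · exact Nat.choose_le_succ_of_lt_half_left (by omega)
  have h4 : 2 * k + (j + 1) = 2 * k + j + 1 := by omega
  rw [h4]
  omega

lemma choose_pow {j k₀ e : ℕ} (h0 : 2 ^ (k₀ + e) ≤ (2 * k₀ + (j + 1)).choose k₀) :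
    ∀ d, 2 ^ (k₀ + d + e) ≤ (2 * (k₀ + d) + (j + 1)).choose (k₀ + d) := by
  intro d
  induction d with
  | zero => simpa using h0
  | succ d ih =>
    have h1 := choose_dbl (k₀ + d) j
    have h2 : 2 ^ (k₀ + (d + 1) + e) = 2 * 2 ^ (k₀ + d + e) := by
      rw [show k₀ + (d + 1) + e = (k₀ + d + e) + 1 by omega, pow_succ, mul_comm]
    rw [h2]
    exact (Nat.mul_le_mul_left 2 ih).trans h1

lemma Bd_indep {g k : ℕ} (hg : 6 ≤ g) (h1 : g ≤ 2 * k + 3) (h2 : k + 1 ≤ (g + 1) / 2) :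
    Bd g ≤ 2 ^ k * g.choose k := by
  rw [Bd]
  split_ifs with h
  · rcases (by omega : (g = 6 ∧ k = 2) ∨ (g = 7 ∧ k = 2) ∨ (g = 7 ∧ k = 3)) with
      ⟨rfl, rfl⟩ | ⟨rfl, rfl⟩ | ⟨rfl, rfl⟩ <;> decide
  · have key : 2 ^ (g - k) ≤ g.choose k := by
      rcases (by omega : g = 2 * k + 1 ∨ g = 2 * k + 2 ∨ g = 2 * k + 3) with h3 | h3 | h3
      · obtain ⟨d, rfl⟩ : ∃ d, k = 4 + d := ⟨k - 4, by omega⟩
        have h4 := choose_pow (j := 0) (k₀ := 4) (e := 1) (by decide) d
        rw [show g - (4 + d) = 4 + d + 1 by omega, h3]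
        exact h4
      · obtain ⟨d, rfl⟩ : ∃ d, k = 3 + d := ⟨k - 3, by omega⟩
        have h4 := choose_pow (j := 1) (k₀ := 3) (e := 2) (by decide) d
        rw [show g - (3 + d) = 3 + d + 2 by omega, h3]
        exact h4
      · obtain ⟨d, rfl⟩ : ∃ d, k = 3 + d := ⟨k - 3, by omega⟩
        have h4 := choose_pow (j := 2) (k₀ := 3) (e := 3) (by decide) d
        rw [show g - (3 + d) = 3 + d + 3 by omega, h3]
        exact h4
    calc 2 ^ g = 2 ^ k * 2 ^ (g - k) := by rw [← pow_add]; congr 1; omega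
      _ ≤ _ := Nat.mul_le_mul_left _ key

/-! ### The abstract front end -/

section abs

variable {Γ : Type w} [Group Γ] {A B C S T : ℕ → Γ} {g : ℕ}
variable {F : Type u} [Field F] {V : Type v} [AddCommGroup V] [Module F V]
variable [FiniteDimensional F V]

theorem front_deg_full (L : Lk g A B C S) (R : Ln g A B C S) (ρ : Γ →* Module.End F V)
    (hg : 6 ≤ g) (hdim : finrank F V < Bd g) :
    ∃ k, k + 4 ≤ g ∧ np ρ ((List.range (k + 1)).map A) = 0 := by
  refine ⟨(g + 1) / 2 - 1, by omega, ?_⟩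
  rw [show (g + 1) / 2 - 1 + 1 = (g + 1) / 2 by omega]
  exact full_deg L R ρ (by omega) (hdim.trans_le (Bd_le hg))

theorem front_full (L : Lk g A B C S) (R : Ln g A B C S) (hout : ∀ i, g ≤ i → A i = 1)
    (ρ : Γ →* Module.End F V) (hU : LemU ρ A B C S g)
    (hEV : ∀ k ≤ g, np ρ ((List.range k).map A) ≠ 0 →
      ∀ m < k, ∀ W, Ex ρ A B C S g m W → W = ⊥)
    (hg : 6 ≤ g) (hdim : finrank F V < Bd g) :
    ∃ k, 2 * k + 4 ≤ g ∧ np ρ ((List.range (k + 1)).map A) = 0 := by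
  classical
  have h0 := full_deg L R ρ (by omega) (hdim.trans_le (Bd_le hg))
  have hex : ∃ k, np ρ ((List.range (k + 1)).map A) = 0 :=
    ⟨(g + 1) / 2 - 1, by rwa [show (g + 1) / 2 - 1 + 1 = (g + 1) / 2 by omega]⟩
  have h1 : Nat.find hex ≤ (g + 1) / 2 - 1 := Nat.find_min' hex (by
    rwa [show (g + 1) / 2 - 1 + 1 = (g + 1) / 2 by omega])
  have h2 := Nat.find_spec hex
  have h3 : 0 < Nat.find hex → np ρ ((List.range (Nat.find hex)).map A) ≠ 0 := by
    intro h4
    have h5 := Nat.find_min hex (m := Nat.find hex - 1) (by omega)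
    rwa [Nat.sub_add_cancel h4] at h5
  generalize Nat.find hex = k at h1 h2 h3
  by_cases hk : 2 * k + 4 ≤ g
  · exact ⟨k, hk, h2⟩
  · exfalso
    have h4 := h3 (by omega)
    have h5 := indep L R hout hU (k := k) (by omega)
      (fun m hm => hEV k (by omega) h4 m (by omega)) h2 h4
    have h6 := Bd_indep hg (k := k) (by omega) (by omega)
    omega

end abs

/-! ### The linear theorem -/

section lin

variable {m : ℕ} {G : Type w} [Group G] {a b : Fin m → G} (h : IsSurf a b)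
variable {F : Type u} [Field F] {D : ℕ}

/-- **The linear theorem.** -/
theorem good_full (hm : 6 ≤ m) (hD : D < Bd m) : Good.{u, v, w} h F D := by
  classical
  refine good_of_core h (core_all h) (by omega) fun V _ _ _ ρ hV hirr => ?_
  have h0 := full_deg (lk_mcg h) (uln h) ρ (by omega)
    ((lt_of_le_of_lt hV hD).trans_le (Bd_le hm))
  rw [← np_range] at h0
  have hex : ∃ k, ((List.range (k + 1)).map fun i => ρ (uA h i) - 1).prod = 0 :=
    ⟨(m + 1) / 2 - 1, by rwa [show (m + 1) / 2 - 1 + 1 = (m + 1) / 2 by omega]⟩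
  have h1 : Nat.find hex ≤ (m + 1) / 2 - 1 := Nat.find_min' hex (by
    rwa [show (m + 1) / 2 - 1 + 1 = (m + 1) / 2 by omega])
  have h2 := Nat.find_spec hex
  have h3 : 0 < Nat.find hex →
      ((List.range (Nat.find hex)).map fun i => ρ (uA h i) - 1).prod ≠ 0 := by
    intro h4
    have h5 := Nat.find_min hex (m := Nat.find hex - 1) (by omega)
    rwa [Nat.sub_add_cancel h4] at h5
  generalize Nat.find hex = k at h1 h2 h3
  by_cases hk : 2 * k + 4 ≤ m
  · exact ⟨k, hk, h2⟩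
  · exfalso
    have h5 := indep_all h V ρ hirr k (by omega) h2 (h3 (by omega))
    have h6 := Bd_indep hm (k := k) (by omega) (by omega)
    omega

/-- A product of the operators `ρ t - 1` vanishes. -/
theorem exists_prod_full (hm : 6 ≤ m) {V : Type v} [AddCommGroup V] [Module F V]
    [FiniteDimensional F V] (ρ : MCG a b →* Module.End F V) (hdim : finrank F V < Bd m) :
    ∃ r, 0 < r ∧ r + 2 ≤ m ∧ ((List.range r).map fun k => ρ (uA h k) - 1).prod = 0 := by
  refine ⟨(m + 1) / 2, by omega, by omega, ?_⟩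
  rw [np_range]
  exact full_deg (lk_mcg h) (uln h) ρ (by omega) (hdim.trans_le (Bd_le hm))

end lin

/-! ### Central extensions -/

section ext

variable {m : ℕ} {G : Type w} [Group G] {a b : Fin m → G} (h : IsSurf a b)
variable {F : Type u} {V : Type v} [Field F] [AddCommGroup V] [Module F V]
  [FiniteDimensional F V] {E : Type x} [Group E] {π : E →* MCG a b} {ρ : E →* Module.End F V}
  {A B C S : ℕ → E}

/-- **Two consecutive bounding pairs** act in the same way on an irreducible representation of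
small dimension, and the twists are unipotent. -/
theorem pairs_full (hC : CE π) (hperf : ∀ x : E, x ∈ commutator E) (M : LM h π A B C S)
    (hm : 6 ≤ m) (hdim : finrank F V < Bd m) (hz : Sz {z | π z = 1} ρ)
    (hirr : Irr ρ) :
    (∃ k, 2 * k + 4 ≤ m ∧ (ρ (A 0) - 1) ^ (k + 1) = 0) ∧
    ∃ (q q' : Fin m) (T T' : E), (q' : ℕ) = q + 1 ∧ π T = uT h q ∧ π T' = uT h q' ∧
      ρ (A q) = ρ T ∧ ρ (A q') = ρ T' := by
  choose T hT using M.bp
  let T' : ℕ → E := fun q => if hq : q < m then T ⟨q, hq⟩ else 1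
  have hT' : ∀ q (hq : q < m), T' q = T ⟨q, hq⟩ := fun q hq => dif_pos hq
  have P : ∀ q, 0 < q → q + 1 < m → Bp m A B C S q (T' q) := fun q h1 h2 => by
    rw [hT' q (by omega)]
    exact (hT ⟨q, by omega⟩).2
  have star : ∀ q, 0 < q → q + 1 < m → fa C S (q - 1) 1 ∈
      Subgroup.closure {C (q - 1), C q, A (q - 1), A q, A (q + 1), B q} := fun q h1 h2 => by
    obtain ⟨i, rfl⟩ : ∃ i, q = i + 1 := ⟨q - 1, by omega⟩
    exact M.lnz.star (by omega)
  obtain ⟨k, hk, h0⟩ := front_deg_full M.lk M.ln ρ hm hdim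
  have X := Pool.MP_59b15d_al.H40D.eu_mcg h hz M.pA M.pB M.pC M.pS M.lk M.oA M.oS hk h0
    (Pool.MP_59b15d_al.H40D.gen_LM h hC hperf (by omega) M) hirr
  obtain ⟨k', hk', h0'⟩ := front_full M.lk M.ln M.oA ρ X.hU X.hEV hm hdim
  obtain ⟨q, h1, h2, h3, h4⟩ := core_abs M.lk M.ln P M.oA star X.hU X.hU' X.hEV X.hEV' hk' h0'
  refine ⟨⟨k', hk', Pool.MP_59b15d_al.H98P.unipA M.lk M.ln (by omega) (by omega) ρ h0'⟩,
    ⟨q, by omega⟩, ⟨q + 1, by omega⟩, T' q, T' (q + 1), rfl, ?_, ?_, h3, h4⟩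
  · rw [hT' q (by omega)]
    exact (hT _).1
  · rw [hT' (q + 1) (by omega)]
    exact (hT _).1

/-- **The bound for perfect central extensions**, over any field. -/
theorem goodE_full (hC : CE π) (hperf : ∀ x : E, x ∈ commutator E) (hm : 6 ≤ m) {D : ℕ}
    (hD : D < Bd m) : GoodE.{u, v, w, x} h π F D := by
  intro V _ _ _ ρ hV hirr hz
  obtain ⟨A, B, C, S, M⟩ := exists_LM h hC (by omega)
  obtain ⟨-, q, q', T, T', hq, h1, h2, h3, h4⟩ := pairs_full h hC hperf M hm
    (lt_of_le_of_lt hV hD) hz hirr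
  exact tor_scalar h (by omega) hC.sur hz hq (M.pA q) h1 (M.pA q') h2 h3 h4

/-- **A twist of finite order up to scalars.** -/
theorem triv_of_twist_full [CharZero F] (hC : CE π) (hperf : ∀ x : E, x ∈ commutator E)
    (hm : 6 ≤ m) (hD : finrank F V < Bd m) (hz : Sz {z | π z = 1} ρ) {t : E} {i : ℕ}
    (hi : i < m) (ht : π t = uA h i) {n : ℕ} (hn : n ≠ 0) (hs : t ^ n ∈ SQ ρ) :
    ∀ x, ρ x = 1 := by
  obtain ⟨A, B, C, S, M⟩ := exists_LM h hC (by omega)
  have hAi : A i ^ n ∈ SQ ρ := by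
    have h1 : π (A i * t⁻¹) = 1 := by rw [map_mul, map_inv, M.pA, ht, mul_inv_cancel]
    have h2 : A i = (A i * t⁻¹) * t := by group
    have h3 : Commute (A i * t⁻¹) t := hC.cen _ h1 t
    rw [h2, h3.mul_pow]
    exact mul_mem (pow_mem (hz _ h1) n) hs
  have hA0 : A 0 ^ n ∈ SQ ρ := pow_SQ M.lk hi hAi
  have hT : ∀ (W : Type v) [AddCommGroup W] [Module F W] [FiniteDimensional F W]
      (τ : E →* Module.End F W), finrank F W ≤ finrank F V → Irr τ →
        Sz ({z | π z = 1} ∪ {A 0 ^ n}) τ → ∀ φ ∈ (⊤ : Subgroup E), τ φ = 1 := by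
    intro W _ _ _ τ hW hirr hz' φ _
    obtain ⟨⟨k, -, hk⟩, -⟩ := pairs_full h hC hperf M hm
      (lt_of_le_of_lt hW hD) (fun z hz1 => hz' z (Or.inl hz1)) hirr
    obtain ⟨c, hc⟩ := hz' (A 0 ^ n) (Or.inr rfl)
    rw [map_pow] at hc
    exact triv_of_A h hC hperf (by omega) M τ (scal_unip hn hk hc) φ
  have hz2 : Sz ({z | π z = 1} ∪ {A 0 ^ n}) ρ := by
    rintro z (hz1 | hz1)
    · exact hz z hz1
    · rw [Set.mem_singleton_iff] at hz1
      rw [hz1]
      exact hA0
  have hu := unip_sc (T := (⊤ : Subgroup E)) hT (finrank F V) V ρ le_rfl le_rfl hz2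
    (List.replicate (finrank F V) (A 0)) (fun φ _ => Subgroup.mem_top φ)
    (by rw [List.length_replicate])
  rw [List.map_replicate, List.prod_replicate] at hu
  obtain ⟨c, hc⟩ := hA0
  rw [map_pow] at hc
  exact triv_of_A h hC hperf (by omega) M ρ (scal_unip hn hu hc)

end ext

/-! ### Projective representations -/

section proj

variable {m : ℕ} {G : Type w} [Group G] {a b : Fin m → G} (h : IsSurf a b)
variable {F : Type u} [Field F] {V : Type v} [AddCommGroup V] [Module F V]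
  [FiniteDimensional F V] {ρ : MCG a b → (V ≃ₗ[F] V)} (hρ : IsProj ρ)

omit [FiniteDimensional F V] in
theorem goodP_full (hm : 6 ≤ m) {D : ℕ} (hD : D < Bd m) : GoodP h hρ D :=
  goodE_full h (ce_pe hρ (mcg_perfect h (by omega))) (perf_pe hρ (mcg_perfect h (by omega))) hm hD

include hρ in
/-- **A twist of finite order up to scalars.** -/
theorem proj_twist_full [CharZero F] (hm : 6 ≤ m) (hD : finrank F V < Bd m) {n i : ℕ}
    (hn : n ≠ 0) (hi : i < m) (hs : ∃ c : F, ∀ v, ρ (uA h i ^ n) v = c • v) (φ : MCG a b) :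
    ∃ c : Fˣ, ∀ v, ρ φ v = c • v := by
  have hp := mcg_perfect h (by omega : 3 ≤ m)
  have hC := ce_pe hρ hp
  obtain ⟨t, ht⟩ := hC.sur (uA h i)
  have h1 : t ^ n ∈ SQ (se hρ) := by
    obtain ⟨c, hc⟩ := hs
    obtain ⟨d, hd⟩ := se_eq hρ (t ^ n)
    refine ⟨d * c, fun v => ?_⟩
    rw [hd, map_pow, ht, hc, Units.smul_def, smul_smul]
  have h2 := triv_of_twist_full h hC (perf_pe hρ hp) hm hD (se_sz hρ) hi ht hn h1
  obtain ⟨x, rfl⟩ := hC.sur φ
  obtain ⟨c, hc⟩ := se_eq hρ x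
  refine ⟨c⁻¹, fun v => ?_⟩
  have h3 := hc v
  rw [h2, Module.End.one_apply] at h3
  conv_rhs => rw [h3]
  rw [inv_smul_smul]

end proj

end Pool.Agent.H.MP_59b15d_al.Lft
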