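import Pool.Agent.H.MP_59b15d_al.h47e.Fb

/-!
Central extensions: the lifts of elements with braid relations.
-/

set_option autoImplicit false

namespace Pool.Agent.H.MP_59b15d_al.Lft

open Pool.MP_59b15d_al.H93E Pool.MP_59b15d_al.H95E Pool.MP_59b15d_al.H47E

variable {E G : Type*} [Group E] [Group G] {π : E →* G}

/-- A surjective homomorphism with central kernel. -/
structure CE (π : E →* G) : Prop where
  sur : Function.Surjective π
  cen : ∀ z, π z = 1 → ∀ x, z * x = x * z

/-- All lifts of `x` and `y` commute. -/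
def LC (π : E →* G) (x y : G) : Prop := ∀ x' y', π x' = x → π y' = y → Commute x' y'

/-- The braid relation. -/
def Br (x y : E) : Prop := x * y * x = y * x * y

theorem Br.symm {x y : E} (h : Br x y) : Br y x := Eq.symm h

theorem Br.sc {x y : E} (h : Br x y) : SemiconjBy (x * y) x y := by
  change x * y * x = y * (x * y)
  rw [h]
  simp only [mul_assoc]

/-- A conjugate of a braid relation. -/
theorem Br.conj {x y u v s : E} (h : Br x y) (h1 : SemiconjBy s x u) (h2 : SemiconjBy s y v) :
    Br u v := by
  have e1 : s * (x * y * x) = u * v * u * s := ((h1.mul_right h2).mul_right h1).eq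
  have e2 : s * (y * x * y) = v * u * v * s := ((h2.mul_right h1).mul_right h2).eq
  rw [h, e2] at e1
  exact (mul_right_cancel e1).symm

theorem exists_z {x y : E} (e : π x = π y) : ∃ z, π z = 1 ∧ x = z * y :=
  ⟨x * y⁻¹, by rw [map_mul, map_inv, e, mul_inv_cancel], by group⟩

namespace CE

variable (h : CE π)
include h

theorem braid_lift {x' : E} {y : G} (hb : Br (π x') y) : ∃ y', π y' = y ∧ Br x' y' := by
  obtain ⟨y0, rfl⟩ := h.sur y
  have e : π (x' * y0 * x') = π (y0 * x' * y0) := by
    simp only [map_mul]; exact hb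
  obtain ⟨z, hz, e⟩ := exists_z e
  have c := h.cen z hz
  refine ⟨z * y0, by rw [map_mul, hz, one_mul], ?_⟩
  change x' * (z * y0) * x' = z * y0 * x' * (z * y0)
  calc x' * (z * y0) * x' = z * (x' * y0 * x') := by
        rw [← mul_assoc, ← c x']; simp only [mul_assoc]
    _ = z * (z * (y0 * x' * y0)) := by rw [e]
    _ = z * ((y0 * x') * (z * y0)) := by
        rw [c y0, c (y0 * x' * y0)]; simp only [mul_assoc]
    _ = _ := by simp only [mul_assoc]

theorem braid_unique {x y1 y2 : E} (e : π y1 = π y2) (h1 : Br x y1) (h2 : Br x y2) :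
    y1 = y2 := by
  obtain ⟨z, hz, rfl⟩ := exists_z e
  have c := h.cen z hz
  have e1 : z * (y2 * x * y2) = z * (z * (y2 * x * y2)) := by
    calc z * (y2 * x * y2) = z * (x * y2 * x) := by rw [h2]
      _ = x * (z * y2) * x := by rw [← mul_assoc x, ← c x]; simp only [mul_assoc]
      _ = z * y2 * x * (z * y2) := h1
      _ = z * y2 * (x * z) * y2 := by simp only [mul_assoc]
      _ = z * (y2 * z) * x * y2 := by rw [← c x]; simp only [mul_assoc]
      _ = _ := by rw [← c y2]; simp only [mul_assoc]
  have e2 : z = 1 := by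
    have := mul_left_cancel e1
    exact (mul_eq_right.1 this.symm)
  rw [e2, one_mul]

theorem LC_of {x' y' : E} (hc : Commute x' y') : LC π (π x') (π y') := by
  intro x y hx hy
  obtain ⟨z, hz, rfl⟩ := exists_z hx
  obtain ⟨w, hw, rfl⟩ := exists_z hy
  have c1 := h.cen z hz
  have c2 := h.cen w hw
  have k1 : Commute z (w * y') := c1 _
  have k2 : Commute x' w := (c2 x').symm
  exact k1.mul_left (k2.mul_right hc)

omit h in
theorem _root_.Pool.Agent.H.MP_59b15d_al.Lft.LC.symm {x y : G} (hc : LC π x y) : LC π y x :=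
  fun y' x' hy hx => (hc x' y' hx hy).symm

/-- What commutes with an element up to the centre and with a braid partner commutes with the
element. -/
theorem comm_of {x y z : E} (hc : Commute (π x) (π y)) (hz : Commute x z) (hb : Br z y) :
    Commute x y := by
  have h1 : SemiconjBy x z z := hz
  have e : π (x * y * x⁻¹) = π y := by
    rw [map_mul, map_mul, map_inv, hc.eq, mul_inv_cancel_right]
  have h2 : SemiconjBy x y (x * y * x⁻¹) := by
    change x * y = x * y * x⁻¹ * x
    group
  have h3 : Br z (x * y * x⁻¹) := hb.conj h1 h2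
  have h4 := h.braid_unique e h3 hb
  change x * y = y * x
  rw [mul_inv_eq_iff_eq_mul] at h4
  exact h4

/-- What conjugates `x` to `y` up to the centre and a braid partner to a braid partner conjugates
`x` to `y`. -/
theorem sc_of {s x y w u : E} (e : π (s * x) = π (y * s)) (hw : SemiconjBy s w u) (b1 : Br w x)
    (b2 : Br u y) : SemiconjBy s x y := by
  have e1 : π (s * x * s⁻¹) = π y := by
    rw [map_mul _ (s * x), e, map_mul, map_inv, mul_inv_cancel_right]
  have h2 : SemiconjBy s x (s * x * s⁻¹) := by
    change s * x = s * x * s⁻¹ * s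
    group
  have h3 : Br u (s * x * s⁻¹) := b1.conj hw h2
  have h4 := h.braid_unique e1 h3 b2
  rwa [h4] at h2

theorem LC_partner {x y z : G} (hxz : LC π x z) (hc : Commute x y) (hb : Br z y) :
    LC π x y := by
  obtain ⟨x', rfl⟩ := h.sur x
  obtain ⟨z', rfl⟩ := h.sur z
  obtain ⟨y', rfl, hb'⟩ := h.braid_lift hb
  exact h.LC_of (h.comm_of hc (hxz x' z' rfl rfl) hb')

end CE

/-! ### The Garside element of a chain of five elements -/

/-- The cube of the product of two elements with the braid relation. -/
theorem cube_eq {x y : E} (h : Br x y) : (x * y) ^ 3 = x * y * x * (x * y * x) := by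
  calc (x * y) ^ 3 = x * y * x * (y * x * y) := by simp only [pow_succ, pow_zero]; group
    _ = _ := by rw [← h]

theorem aba_x {x y : E} (h : Br x y) : SemiconjBy (x * y * x) x y := by
  change x * y * x * x = y * (x * y * x)
  calc x * y * x * x = y * x * y * x := by rw [h]
    _ = _ := by simp only [mul_assoc]

theorem aba_y {x y : E} (h : Br x y) : SemiconjBy (x * y * x) y x := by
  change x * y * x * y = x * (x * y * x)
  calc x * y * x * y = x * (y * x * y) := by simp only [mul_assoc]
    _ = _ := by rw [← h]

theorem cube_x {x y : E} (h : Br x y) : Commute ((x * y) ^ 3) x := by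
  rw [cube_eq h]
  exact (aba_y h).mul_left (aba_x h)

theorem cube_y {x y : E} (h : Br x y) : Commute ((x * y) ^ 3) y := by
  rw [cube_eq h]
  exact (aba_x h).mul_left (aba_y h)

/-- The first half of the word of the relation `gar`. -/
def Yd (b1 a1 c b a : E) : E := b * a * (c * b) * (b1 * c) * (a1 * b1)

/-- The word of the relation `gar`. -/
def Wd (b1 a1 c b a : E) : E :=
  b * a * (c * b) * (b1 * c) * (a1 * b1) * (a1 * (c * b * a * c * b * c))

theorem sh {x y z : E} (h1 : Br x y) (h2 : Br y z) (h3 : Commute x z) :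
    SemiconjBy (y * z * (x * y)) z x := by
  change y * z * (x * y) * z = x * (y * z * (x * y))
  calc y * z * (x * y) * z = y * (z * x) * y * z := by simp only [mul_assoc]
    _ = y * x * (z * y * z) := by rw [← h3.eq]; simp only [mul_assoc]
    _ = y * x * (y * z * y) := by rw [← h2]
    _ = x * y * (x * z) * y := by
        have e : y * x * (y * z * y) = (y * x * y) * z * y := by simp only [mul_assoc]
        rw [e, ← h1]; simp only [mul_assoc]
    _ = _ := by rw [h3.eq]; simp only [mul_assoc]

section gar

variable {a1 b1 c b a : E} (H : Ch5 a1 b1 c b a)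
include H

/-- The second half of the word. -/
theorem half_c : SemiconjBy (c * b * a * c * b * c) c a := by
  have hb : c * b * c = b * c * b := H.b34
  have ha : b * a * b = a * b * a := H.b45
  have hc : c * a = a * c := H.c35.eq
  change c * b * a * c * b * c * c = a * (c * b * a * c * b * c)
  symm
  calc a * (c * b * a * c * b * c) = (a * c) * b * a * c * b * c := by simp only [mul_assoc]
    _ = c * (a * b * a) * c * b * c := by rw [← hc]; simp only [mul_assoc]
    _ = c * b * a * (b * c * b) * c := by rw [← ha]; simp only [mul_assoc]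
    _ = _ := by rw [← hb]; simp only [mul_assoc]

theorem half_b : SemiconjBy (c * b * a * c * b * c) b b := by
  have hb : c * b * c = b * c * b := H.b34
  have hc : c * a = a * c := H.c35.eq
  change c * b * a * c * b * c * b = b * (c * b * a * c * b * c)
  symm
  calc b * (c * b * a * c * b * c) = (b * c * b) * a * c * b * c := by simp only [mul_assoc]
    _ = c * b * (c * a) * c * b * c := by rw [← hb]; simp only [mul_assoc]
    _ = c * b * a * c * (c * b * c) := by rw [hc]; simp only [mul_assoc]
    _ = _ := by rw [hb]; simp only [mul_assoc]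

theorem half_a : SemiconjBy (c * b * a * c * b * c) a c := by
  have hb : c * b * c = b * c * b := H.b34
  have ha : b * a * b = a * b * a := H.b45
  have hc : c * a = a * c := H.c35.eq
  -- `δ c b = b a δ`
  have e1 : c * b * a * c * b = b * a * (c * b * a) := by
    calc c * b * a * c * b = c * b * (a * c) * b := by simp only [mul_assoc]
      _ = (c * b * c) * a * b := by rw [← hc]; simp only [mul_assoc]
      _ = b * c * (b * a * b) := by rw [hb]; simp only [mul_assoc]
      _ = b * (c * a) * b * a := by rw [ha]; simp only [mul_assoc]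
      _ = _ := by rw [hc]; simp only [mul_assoc]
  change c * b * a * c * b * c * a = c * (c * b * a * c * b * c)
  calc c * b * a * c * b * c * a = c * b * a * c * b * (c * a) := by simp only [mul_assoc]
    _ = c * (b * a * (c * b * a)) * c := by rw [hc]; simp only [mul_assoc]
    _ = _ := by rw [← e1]; simp only [mul_assoc]

theorem Y_a1 : SemiconjBy (Yd b1 a1 c b a) a1 a := by
  have h1 : Br a1 b1 := H.b12
  have h2 : Br b1 c := H.b23
  have h3 : Br c b := H.b34
  have h4 : Br b a := H.b45
  exact ((h4.sc.mul_left h3.sc).mul_left h2.sc).mul_left h1.sc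

theorem Y_c : SemiconjBy (Yd b1 a1 c b a) c a1 := by
  have h1 : Br a1 b1 := H.b12
  have h2 : Br b1 c := H.b23
  have e : Yd b1 a1 c b a = b * a * (c * b) * (b1 * c * (a1 * b1)) := by
    simp only [Yd, mul_assoc]
  rw [e]
  have k1 : Commute (b * a * (c * b)) a1 :=
    (((H.c14.symm).mul_left H.c15.symm).mul_left (H.c13.symm.mul_left H.c14.symm))
  exact SemiconjBy.mul_left k1 (sh h1 h2 H.c13)

theorem Y_b : SemiconjBy (Yd b1 a1 c b a) b b1 := by
  have h2 : Br b1 c := H.b23
  have h3 : Br c b := H.b34
  have e : Yd b1 a1 c b a = b * a * (c * b * (b1 * c)) * (a1 * b1) := by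
    simp only [Yd, mul_assoc]
  rw [e]
  have k1 : Commute (b * a) b1 := H.c24.symm.mul_left H.c25.symm
  have k2 : Commute (a1 * b1) b := H.c14.mul_left H.c24
  exact (SemiconjBy.mul_left k1 (sh h2 h3 H.c24)).mul_left k2

theorem Y_a : SemiconjBy (Yd b1 a1 c b a) a c := by
  have h3 : Br c b := H.b34
  have h4 : Br b a := H.b45
  have e : Yd b1 a1 c b a = b * a * (c * b) * (b1 * c * (a1 * b1)) := by
    simp only [Yd, mul_assoc]
  rw [e]
  have k2 : Commute (b1 * c * (a1 * b1)) a :=
    (H.c25.mul_left H.c35).mul_left (H.c15.mul_left H.c25)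
  exact (sh h3 h4 H.c35).mul_left k2

theorem Wd_eq : Wd b1 a1 c b a = Yd b1 a1 c b a * (a1 * (c * b * a * c * b * c)) := rfl

theorem W_a1 : SemiconjBy (Wd b1 a1 c b a) a1 a := by
  rw [Wd_eq H]
  have k1 : Commute (c * b * a * c * b * c) a1 :=
    ((((H.c13.symm.mul_left H.c14.symm).mul_left H.c15.symm).mul_left H.c13.symm).mul_left
      H.c14.symm).mul_left H.c13.symm
  exact (Y_a1 H).mul_left ((Commute.refl a1).mul_left k1)

theorem W_a : SemiconjBy (Wd b1 a1 c b a) a a1 := by
  rw [Wd_eq H]
  exact (Y_c H).mul_left (SemiconjBy.mul_left H.c13 (half_a H))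

theorem W_b : SemiconjBy (Wd b1 a1 c b a) b b1 := by
  rw [Wd_eq H]
  exact (Y_b H).mul_left (SemiconjBy.mul_left H.c14 (half_b H))

theorem W_c : SemiconjBy (Wd b1 a1 c b a) c c := by
  rw [Wd_eq H]
  exact (Y_a H).mul_left (SemiconjBy.mul_left H.c15 (half_c H))

end gar

end Pool.Agent.H.MP_59b15d_al.Lft
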