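import Pool.Agent.H.MP_59b15d_al.deg.LiftA

/-!
Central extensions: lifts of the twists satisfying the braid relations and the commutations.
-/

set_option autoImplicit false

namespace Pool.Agent.H.MP_59b15d_al.Lft

open Pool.MP_59b15d_al.H93E Pool.MP_59b15d_al.H95E Pool.MP_59b15d_al.H47E
open scoped commutatorElement

variable {E G : Type*} [Group E] [Group G] {π : E →* G}

/-- Lifts of the twists, with exact braid relations. -/
structure LD (π : E →* G) (g : ℕ) (A B C : ℕ → G) (A' B' C' : ℕ → E) : Prop where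
  pA : ∀ i, π (A' i) = A i
  pB : ∀ i, π (B' i) = B i
  pC : ∀ i, π (C' i) = C i
  brA : ∀ i, i < g → Br (A' i) (B' i)
  brC : ∀ i, i + 1 < g → Br (B' i) (C' i)
  brC' : ∀ i, i + 1 < g → Br (B' (i + 1)) (C' i)
  oA : ∀ i, g ≤ i → A' i = 1
  oB : ∀ i, g ≤ i → B' i = 1
  oC : ∀ i, g ≤ i + 1 → C' i = 1

/-- A lift with a braid relation. -/
noncomputable def nx (h : CE π) (x' : E) (y : G) : E :=
  open Classical in
  if hb : Br (π x') y then Classical.choose (h.braid_lift hb) else Classical.choose (h.sur y)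

theorem nx_pi (h : CE π) (x' : E) (y : G) : π (nx h x' y) = y := by
  unfold nx
  split_ifs with hb
  · exact (Classical.choose_spec (h.braid_lift hb)).1
  · exact Classical.choose_spec (h.sur y)

theorem nx_br (h : CE π) {x' : E} {y : G} (hb : Br (π x') y) : Br x' (nx h x' y) := by
  unfold nx
  rw [dif_pos hb]
  exact (Classical.choose_spec (h.braid_lift hb)).2

theorem exists_LD (h : CE π) {g : ℕ} (hg : 0 < g) {A B C S : ℕ → G} (L : Lk g A B C S)
    (hA : ∀ i, g ≤ i → A i = 1) (hB : ∀ i, g ≤ i → B i = 1) {a0 : E} (h0 : π a0 = A 0) :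
    ∃ A' B' C' : ℕ → E, LD π g A B C A' B' C' ∧ A' 0 = a0 := by
  classical
  obtain ⟨β, hβ0, hβ⟩ : ∃ β : ℕ → E, β 0 = nx h a0 (B 0) ∧
      ∀ n, β (n + 1) = nx h (nx h (β n) (C n)) (B (n + 1)) :=
    ⟨fun n => Nat.rec (nx h a0 (B 0)) (fun n x => nx h (nx h x (C n)) (B (n + 1))) n, rfl,
      fun n => rfl⟩
  have pβ : ∀ n, π (β n) = B n := by
    intro n
    cases n with
    | zero => rw [hβ0, nx_pi]
    | succ n => rw [hβ, nx_pi]
  refine ⟨fun i => if i = 0 then a0 else if i < g then nx h (β i) (A i) else 1,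
    fun i => if i < g then β i else 1, fun i => if i + 1 < g then nx h (β i) (C i) else 1,
    ⟨?_, ?_, ?_, ?_, ?_, ?_, ?_, ?_, ?_⟩, if_pos rfl⟩
  · intro i
    split_ifs with h1 h2
    · rw [h0, h1]
    · rw [nx_pi]
    · rw [map_one, hA i (by omega)]
  · intro i
    split_ifs with h1
    · exact pβ i
    · rw [map_one, hB i (by omega)]
  · intro i
    split_ifs with h1
    · rw [nx_pi]
    · rw [map_one, L.Cout i (by omega)]
  · intro i hi
    rw [if_pos hi]
    split_ifs with h1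
    · subst h1
      rw [hβ0]
      apply nx_br
      rw [h0]
      exact L.brA 0
    · refine Br.symm (nx_br h ?_)
      rw [pβ]
      exact (L.brA i).symm
  · intro i hi
    rw [if_pos (show i < g by omega), if_pos hi]
    apply nx_br
    rw [pβ]
    exact L.brC i hi
  · intro i hi
    rw [if_pos hi, if_pos hi, hβ]
    refine Br.symm (nx_br h ?_)
    rw [nx_pi]
    exact (L.brC' i hi).symm
  · intro i hi
    rw [if_neg (by omega), if_neg (by omega)]
  · intro i hi
    rw [if_neg (by omega)]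
  · intro i hi
    rw [if_neg (by omega)]

/-- The commutator subgroup of a subgroup of the centraliser. -/
theorem LC_commutator (h : CE π) {x : G} {P : Subgroup G} (hx : ∀ p ∈ P, Commute x p) :
    ∀ p ∈ ⁅P, P⁆, LC π x p := by
  obtain ⟨x', rfl⟩ := h.sur x
  intro p hp
  have key : ⁅P, P⁆ ≤ (Subgroup.centralizer {x'}).map π := by
    rw [Subgroup.commutator_le]
    intro u hu v hv
    obtain ⟨u', rfl⟩ := h.sur u
    obtain ⟨v', rfl⟩ := h.sur v
    refine ⟨⁅u', v'⁆, ?_, map_commutatorElement π u' v'⟩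
    rw [SetLike.mem_coe, Subgroup.mem_centralizer_singleton_iff]
    have e1 : π (x' * u' * x'⁻¹) = π u' := by
      rw [map_mul, map_mul, map_inv, (hx _ hu).eq, mul_inv_cancel_right]
    have e2 : π (x' * v' * x'⁻¹) = π v' := by
      rw [map_mul, map_mul, map_inv, (hx _ hv).eq, mul_inv_cancel_right]
    obtain ⟨z, hz, e1⟩ := exists_z e1
    obtain ⟨w, hw, e2⟩ := exists_z e2
    have c1 := h.cen z hz
    have c2 := h.cen w hw
    have e3 : x' * ⁅u', v'⁆ * x'⁻¹ = ⁅u', v'⁆ := by
      have e4 : x' * ⁅u', v'⁆ * x'⁻¹ = ⁅x' * u' * x'⁻¹, x' * v' * x'⁻¹⁆ := by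
        simp only [commutatorElement_def]; group
      rw [e4, e1, e2, commutatorElement_def, commutatorElement_def]
      have k1 : Commute z (w * v') := c1 _
      have k2 : Commute w u' := c2 _
      calc z * u' * (w * v') * (z * u')⁻¹ * (w * v')⁻¹
          = z * (u' * (w * v') * u'⁻¹) * z⁻¹ * (w * v')⁻¹ := by group
        _ = u' * (w * v') * u'⁻¹ * (w * v')⁻¹ := by
            rw [c1 (u' * (w * v') * u'⁻¹), mul_inv_cancel_right]
        _ = (u' * w) * v' * u'⁻¹ * v'⁻¹ * w⁻¹ := by group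
        _ = w * (u' * v' * u'⁻¹ * v'⁻¹) * w⁻¹ := by rw [← k2.eq]; simp only [mul_assoc]
        _ = _ := by rw [c2 (u' * v' * u'⁻¹ * v'⁻¹), mul_inv_cancel_right]
    rw [mul_inv_eq_iff_eq_mul] at e3
    exact e3.symm
  obtain ⟨p', hp', rfl⟩ := key hp
  rw [SetLike.mem_coe, Subgroup.mem_centralizer_singleton_iff] at hp'
  refine h.LC_of ?_
  change x' * p' = p' * x'
  exact hp'.symm

/-- Conjugation of commuting lifts. -/
theorem LC.conj (h : CE π) {x y u v s : G} (hc : LC π x y) (h1 : SemiconjBy s x u)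
    (h2 : SemiconjBy s y v) : LC π u v := by
  obtain ⟨x', rfl⟩ := h.sur x
  obtain ⟨y', rfl⟩ := h.sur y
  obtain ⟨s', rfl⟩ := h.sur s
  have e1 : u = π (s' * x' * s'⁻¹) := by
    rw [map_mul, map_mul, map_inv, h1.eq, mul_inv_cancel_right]
  have e2 : v = π (s' * y' * s'⁻¹) := by
    rw [map_mul, map_mul, map_inv, h2.eq, mul_inv_cancel_right]
  rw [e1, e2]
  apply h.LC_of
  have h3 := hc x' y' rfl rfl
  change s' * x' * s'⁻¹ * (s' * y' * s'⁻¹) = s' * y' * s'⁻¹ * (s' * x' * s'⁻¹)
  calc s' * x' * s'⁻¹ * (s' * y' * s'⁻¹) = s' * (x' * y') * s'⁻¹ := by group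
    _ = s' * (y' * x') * s'⁻¹ := by rw [h3.eq]
    _ = _ := by group

section base

variable (h : CE π) {g : ℕ} {A B C S : ℕ → G} (L : Lk g A B C S)
include h L

theorem LC_AA (h01 : LC π (A 0) (A 1)) : ∀ i j, i < g → j < g → i ≠ j → LC π (A i) (A j) := by
  have key0 : ∀ j, j + 1 < g → LC π (A 0) (A (j + 1)) := by
    intro j
    induction j with
    | zero => exact fun _ => h01
    | succ j ih =>
      intro hj
      have h1 := ih (by omega)
      refine h1.conj h (s := S (j + 1)) (L.SAo (j + 1) 0 (by omega) (by omega)) ?_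
      exact L.SA (j + 1) hj
  have key : ∀ i j, i < j → j < g → LC π (A i) (A j) := by
    intro i
    induction i with
    | zero =>
      intro j h1 h2
      obtain ⟨k, rfl⟩ : ∃ k, j = k + 1 := ⟨j - 1, by omega⟩
      exact key0 k h2
    | succ i ih =>
      intro j h1 h2
      have h3 := ih j (by omega) h2
      refine h3.conj h (s := S i) (L.SA i (by omega)) ?_
      exact L.SAo i j (by omega) (by omega)
  intro i j h1 h2 h3
  rcases Nat.lt_or_ge i j with h4 | h4
  · exact key i j h4 h2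
  · exact (key j i (by omega) h1).symm

variable (hAA : ∀ i j, i < g → j < g → i ≠ j → LC π (A i) (A j))
include hAA

theorem LC_AB {i j : ℕ} (hi : i < g) (hj : j < g) (hij : i ≠ j) : LC π (A i) (B j) :=
  h.LC_partner (hAA i j hi hj hij) (L.AB i j hij) (L.brA j)

theorem LC_BB {i j : ℕ} (hi : i < g) (hj : j < g) (hij : i ≠ j) : LC π (B i) (B j) :=
  h.LC_partner (LC_AB h L hAA hj hi (Ne.symm hij)).symm (L.BB i j) (L.brA j)

theorem LC_AC {i j : ℕ} (hi : i < g) (hj : j + 1 < g) : LC π (A i) (C j) := by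
  by_cases h1 : i = j
  · subst h1
    exact h.LC_partner (LC_AB h L hAA hi hj (by omega)) (L.AC i i) (L.brC' i hj)
  · exact h.LC_partner (LC_AB h L hAA hi (by omega) h1) (L.AC i j) (L.brC j hj)

theorem LC_BC {i j : ℕ} (hi : i < g) (hj : j + 1 < g) (h1 : i ≠ j) (h2 : i ≠ j + 1) :
    LC π (B i) (C j) :=
  h.LC_partner (LC_BB h L hAA hi (by omega) h1) (L.BC i j h1 h2) (L.brC j hj)

theorem LC_CC {i j : ℕ} (hi : i + 1 < g) (hj : j + 1 < g) (hij : i ≠ j) : LC π (C i) (C j) := by
  rcases Nat.lt_or_ge i j with h1 | h1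
  · exact h.LC_partner (LC_BC h L hAA hj hi (by omega) (by omega)).symm (L.CC i j)
      (L.brC' j hj)
  · exact (h.LC_partner (LC_BC h L hAA hi hj (by omega) (by omega)).symm (L.CC j i)
      (L.brC' i hi)).symm

end base

end Pool.Agent.H.MP_59b15d_al.Lft
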