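import Pool.Agent.H.MP_59b15d_al.deg.LiftC
import Pool.Agent.H.MP_59b15d_al.h47e.Lan
import Pool.Agent.H.MP_59b15d_al.h60p.HbZ

/-!
Central extensions: the exchanges and the bounding pairs.
-/

set_option autoImplicit false

namespace Pool.Agent.H.MP_59b15d_al.Lft

open Pool.MP_59b15d_al.H93E Pool.MP_59b15d_al.H95E Pool.MP_59b15d_al.H47E
open Pool.MP_59b15d_al.H60E Pool.MP_59b15d_al.H60P

variable {E G : Type*} [Group E] [Group G] {π : E →* G}

section lk

variable (h : CE π) {g : ℕ} {A B C S : ℕ → G} (L : Lk g A B C S)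
  (hAA : ∀ i j, i < g → j < g → i ≠ j → LC π (A i) (A j)) {A' B' C' : ℕ → E}
  (D : LD π g A B C A' B' C')

include h L hAA D

/-- The exchange commutes with the product of the half turns. -/
theorem S_K (hS : ∀ i, g ≤ i + 1 → S i = 1) {i : ℕ} (hi : i + 1 < g) :
    Commute (Sl g A' B' C' i) (io A' B' i * io A' B' (i + 1)) := by
  have h1 : SemiconjBy (Sl g A' B' C' i) (io A' B' i) (io A' B' (i + 1)) :=
    ((sA h L hAA D hi).mul_right (sB h L hAA D hi)).pow_right 3
  have h2 : SemiconjBy (Sl g A' B' C' i) (io A' B' (i + 1)) (io A' B' i) :=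
    ((sA' h L hAA D hi).mul_right (sB' h L hAA D hS hi)).pow_right 3
  have h3 : Commute (io A' B' (i + 1)) (io A' B' i) := by
    refine Commute.pow_pow ?_ 3 3
    exact ((cAA h L hAA D _ _).mul_right (cAB h L hAA D _ _ (by omega))).mul_left
      ((cAB h L hAA D _ _ (by omega)).symm.mul_right (cBB h L hAA D _ _))
  have h4 := h1.mul_right h2
  rwa [h3.eq] at h4

theorem r7 (hS : ∀ i, g ≤ i + 1 → S i = 1) {i : ℕ} (hi : i + 1 < g) :
    Sl g A' B' C' i * C' i * (Sl g A' B' C' i)⁻¹ =
      (io A' B' i * io A' B' (i + 1))⁻¹ * C' i * (io A' B' i * io A' B' (i + 1)) := by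
  have h1 := sC h L hAA D hi
  have h2 := S_K h L hAA D hS hi
  obtain ⟨K, hK⟩ : ∃ K, K = io A' B' i * io A' B' (i + 1) := ⟨_, rfl⟩
  have h3 : SemiconjBy (Sl g A' B' C' i) (K * C' i * K⁻¹) (C' i) := by
    rw [hK]
    exact h1
  rw [← hK] at h2 ⊢
  obtain ⟨s, hs⟩ : ∃ s, s = Sl g A' B' C' i := ⟨_, rfl⟩
  rw [← hs] at h2 h3 ⊢
  have e1 : s * K = K * s := h2.eq
  have e2 : s * (K * C' i * K⁻¹) = C' i * s := h3.eq
  have e3 : K * (s * C' i * s⁻¹) * K⁻¹ = C' i := by
    have e4 : K * (s * C' i * s⁻¹) * K⁻¹ = (K * s) * C' i * (K * s)⁻¹ := by group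
    rw [e4, ← e1]
    have e5 : s * K * C' i * (s * K)⁻¹ = s * (K * C' i * K⁻¹) * s⁻¹ := by group
    rw [e5, e2, mul_inv_cancel_right]
  calc s * C' i * s⁻¹ = K⁻¹ * (K * (s * C' i * s⁻¹) * K⁻¹) * K := by group
    _ = _ := by rw [e3]

theorem hbz_lift (hS : ∀ i, g ≤ i + 1 → S i = 1) (H : Hb g A B C S) :
    HbZ g A' B' C' (Sl g A' B' C') π.ker := by
  have L' := lk_lift h L hAA D hS
  refine HbZ.of_map π (fun x hx => hx) ?_ ?_ ?_ ?_
  · intro i j hij
    rcases Nat.lt_or_ge (j + 1) g with hj | hj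
    · exact SS L' (by omega) hj (Or.inl hij)
    · rw [Sl_ge hj]
      exact Commute.one_right _
  · exact fun i hi => SSS L' hi
  · exact fun i hi => r7 h L hAA D hS hi
  · have e1 : (fun k => π (A' k)) = A := funext D.pA
    have e2 : (fun k => π (B' k)) = B := funext D.pB
    have e3 : (fun k => π (C' k)) = C := funext D.pC
    have e4 : (fun k => π (Sl g A' B' C' k)) = S := funext (pS h L D hS)
    rw [e1, e2, e3, e4]
    exact H

/-- The bounding pairs. -/
theorem bp_lift (hg : 4 ≤ g) (hS : ∀ i, g ≤ i + 1 → S i = 1)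
    (R' : Ln g A' B' C' (Sl g A' B' C')) {q : ℕ} (hq : q < g) {T : G} (P : Bp g A B C S q T) :
    ∃ T', π T' = T ∧ Bp g A' B' C' (Sl g A' B' C') q T' := by
  have L' := lk_lift h L hAA D hS
  obtain ⟨T', rfl, hT⟩ := h.braid_lift (x' := B' q) (y := T) (by rw [D.pB]; exact P.brT.symm)
  have tB : ∀ i, i ≠ q → Commute T' (B' i) := by
    intro i hi
    refine (h.comm_of (z := B' q) ?_ (L'.BB i q) hT).symm
    rw [D.pB]
    exact (P.TB i hi).symm
  have tA : ∀ i, i ≠ q → Commute T' (A' i) := by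
    intro i hi
    rcases Nat.lt_or_ge i g with h1 | h1
    · refine h.comm_of (z := B' i) ?_ (tB i hi) (D.brA i h1).symm
      rw [D.pA]
      exact P.TA i
    · rw [D.oA i h1]
      exact Commute.one_right _
  have tC : ∀ i, Commute T' (C' i) := by
    intro i
    rcases Nat.lt_or_ge (i + 1) g with h1 | h1
    · have hc : Commute (π T') (π (C' i)) := by
        rw [D.pC]
        exact P.TC i
      by_cases h2 : i = q
      · exact h.comm_of (z := B' (i + 1)) hc (tB _ (by omega)) (D.brC' i h1)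
      · exact h.comm_of (z := B' i) hc (tB _ h2) (D.brC i h1)
    · rw [D.oC i h1]
      exact Commute.one_right _
  have tS : ∀ i, i ≠ q → i + 1 ≠ q → Commute T' (Sl g A' B' C' i) := fun i h1 h2 =>
    comm_Sl (tA i h1) (tB i h1) (tC i) (tA _ h2) (tB _ h2)
  have tio : ∀ i, i ≠ q → Commute T' ((A' i * B' i) ^ 3) := fun i h1 =>
    ((tA i h1).mul_right (tB i h1)).pow_right 3
  have tAq : Commute T' (A' q) := by
    obtain ⟨l, hl, hlq⟩ : ∃ l, l + 2 < g ∧ (q = l ∨ q = l + 2) := by
      rcases Nat.lt_or_ge (q + 2) g with h1 | h1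
      · exact ⟨q, h1, Or.inl rfl⟩
      · exact ⟨q - 2, by omega, Or.inr (by omega)⟩
    obtain ⟨e, h0, h1, h2, h3⟩ := R'.lan l hl
    have cf0 : Commute T' (fa C' (Sl g A' B' C') l 0) := tC l
    have cf1 : Commute T' (fa C' (Sl g A' B' C') (l + 0 + 1) 0) := tC (l + 1)
    have cio : Commute T' ((A' (l + 0 + 1) * B' (l + 0 + 1)) ^ 3) := tio _ (by omega)
    have cf2 : Commute T' (fa C' (Sl g A' B' C') l (0 + 0 + 1)) := by
      rcases hlq with h4 | h4
      · have e1 : fa C' (Sl g A' B' C') l (0 + 0 + 1) =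
          (Sl g A' B' C' (l + 1))⁻¹ * C' l * Sl g A' B' C' (l + 1) := rfl
        rw [e1]
        have c1 := tS (l + 1) (by omega) (by omega)
        exact (c1.inv_right.mul_right (tC l)).mul_right c1
      · have e1 := (fa_left L' (l := l) 0 (by omega)).eq
        have e2 : fa C' (Sl g A' B' C') l (0 + 0 + 1) =
          Sl g A' B' C' l * C' (l + 1) * (Sl g A' B' C' l)⁻¹ := by
          rw [eq_mul_inv_iff_mul_eq]
          exact e1.symm
        rw [e2]
        have c1 := tS l (by omega) (by omega)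
        exact (c1.mul_right (tC (l + 1))).mul_right c1.inv_right
    have cL := (cf0.mul_right ((cio.mul_right cf1).mul_right cio.inv_right)).mul_right cf2
    rw [h0] at cL
    -- the outer curve
    have ce : Commute T' e := by
      have hAl : ∀ i, Commute (π T') (π (A' i)) := fun i => by rw [D.pA]; exact P.TA i
      have hc : Commute (π T') (π e) := by
        have c1 : Commute (π T') (π (A' l * A' (l + 0 + 1) * A' (l + 0 + 0 + 2) * e)) :=
          cL.map π
        have c2 : Commute (π T') (π (A' l * A' (l + 0 + 1) * A' (l + 0 + 0 + 2))) := by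
          rw [map_mul, map_mul]
          exact ((hAl _).mul_right (hAl _)).mul_right (hAl _)
        have e1 : π e = (π (A' l * A' (l + 0 + 1) * A' (l + 0 + 0 + 2)))⁻¹ *
            π (A' l * A' (l + 0 + 1) * A' (l + 0 + 0 + 2) * e) := by
          rw [map_mul _ (A' l * A' (l + 0 + 1) * A' (l + 0 + 0 + 2)) e]; group
        rw [e1]
        exact c2.inv_right.mul_right c1
      exact h.comm_of (z := B' (l + 0 + 1)) hc (tB _ (by omega)) (Br.symm h2)
    rcases hlq with h4 | h4
    · have e1 : A' q = A' l * A' (l + 0 + 1) * A' (l + 0 + 0 + 2) * e *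
          (A' (l + 0 + 1) * A' (l + 0 + 0 + 2) * e)⁻¹ := by
        rw [h4]; group
      rw [e1]
      exact cL.mul_right (((tA _ (by omega)).mul_right (tA _ (by omega))).mul_right
        ce).inv_right
    · have e1 : A' q = (A' l * A' (l + 0 + 1))⁻¹ *
          (A' l * A' (l + 0 + 1) * A' (l + 0 + 0 + 2) * e) * e⁻¹ := by
        rw [h4]; group
      rw [e1]
      exact (((tA _ (by omega)).mul_right (tA _ (by omega))).inv_right.mul_right cL).mul_right
        ce.inv_right
  refine ⟨T', rfl, ⟨?_, tB, tC, hT.symm⟩⟩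
  intro i
  by_cases hi : i = q
  · rw [hi]; exact tAq
  · exact tA i hi

end lk

end Pool.Agent.H.MP_59b15d_al.Lft
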