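import Pool.Agent.H.MP_59b15d_al.deg.LiftE
import Pool.Agent.H.MP_59b15d_al.h62d.Mcg
import Pool.Agent.H.MP_59b15d_al.h52e.Fin

/-!
Central extensions of the mapping class group: the Torelli group acts by scalars in the irreducible
representations, unipotently up to scalars in all of them.
-/

set_option autoImplicit false

namespace Pool.Agent.H.MP_59b15d_al.Lft

open Module
open Pool.MP_59b15d_al.H93E Pool.MP_59b15d_al.H95E Pool.MP_59b15d_al.H47E
open Pool.MP_59b15d_al.H60E Pool.MP_59b15d_al.H60P Pool.MP_59b15d_al.H46U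
open Pool.MP_59b15d_al.H24T Pool.MP_59b15d_al.H76R Pool.MP_59b15d_al.H73E
open Pool.MP_59b15d_al.H60G Pool.MP_59b15d_al.H40L
open Pool.Agent.H.MP_59b15d_al.Lin (uA uB uC MR_le_MCG CompRed resW quoW)
open Pool.Agent.H.MP_59b15d_al.H52E (Tor mem_Tor Irr exists_irr)
open Pool.Agent.H.MP_59b15d_al.SP (cls H1 lin_ext H1_e H1_f cls_a cls_b cls_mul cls_inv)
open Pool.Agent.H.MP_59b15d_al.Deg

universe u v w x

open scoped commutatorElement

/-! ### Scalars -/

section sc

variable {F : Type u} [Field F] {E : Type x} [Group E]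

/-- The elements of `Z` act by scalars. -/
def Sz {V : Type v} [AddCommGroup V] [Module F V] (Z : Set E) (ρ : E →* Module.End F V) : Prop :=
  ∀ z ∈ Z, ∃ c : F, ∀ v, ρ z v = c • v

/-- The elements which act by scalars. -/
def SQ {V : Type v} [AddCommGroup V] [Module F V] (ρ : E →* Module.End F V) : Subgroup E where
  carrier := {x | ∃ c : F, ∀ v, ρ x v = c • v}
  mul_mem' := by
    rintro x y ⟨c, hc⟩ ⟨d, hd⟩
    exact ⟨c * d, fun v => by rw [map_mul, Module.End.mul_apply, hd, map_smul, hc, smul_smul,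
      mul_comm]⟩
  one_mem' := ⟨1, fun v => by rw [map_one, one_smul]; rfl⟩
  inv_mem' := by
    rintro x ⟨c, hc⟩
    refine ⟨c⁻¹, fun v => ?_⟩
    have h1 : c • ρ x⁻¹ v = v := by
      rw [← map_smul, ← hc, ← Module.End.mul_apply, ← map_mul, inv_mul_cancel, map_one]
      rfl
    by_cases h0 : c = 0
    · subst h0
      rw [zero_smul] at h1
      rw [← h1, map_zero, smul_zero]
    · conv_rhs => rw [← h1]
      rw [smul_smul, inv_mul_cancel₀ h0, one_smul]

variable {V : Type v} [AddCommGroup V] [Module F V] {ρ : E →* Module.End F V} {Z : Set E}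

theorem mem_SQ {x : E} : x ∈ SQ ρ ↔ ∃ c : F, ∀ v, ρ x v = c • v := Iff.rfl

instance SQ_normal : (SQ ρ).Normal := by
  constructor
  rintro x ⟨c, hc⟩ g
  refine ⟨c, fun v => ?_⟩
  rw [map_mul, map_mul, Module.End.mul_apply, Module.End.mul_apply, hc, map_smul,
    ← Module.End.mul_apply (ρ g), ← map_mul, mul_inv_cancel, map_one]
  rfl

theorem Sz.res (hz : Sz Z ρ) {W : Submodule F V} (hW : ∀ g, ∀ v ∈ W, ρ g v ∈ W) :
    Sz Z (resW ρ W hW) := by
  intro z hzz
  obtain ⟨c, hc⟩ := hz z hzz
  exact ⟨c, fun v => Subtype.ext (hc v)⟩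

theorem Sz.quo (hz : Sz Z ρ) {W : Submodule F V} (hW : ∀ g, ∀ v ∈ W, ρ g v ∈ W) :
    Sz Z (quoW ρ W hW) := by
  intro z hzz
  obtain ⟨c, hc⟩ := hz z hzz
  refine ⟨c, fun v => ?_⟩
  obtain ⟨v, rfl⟩ := Submodule.mkQ_surjective W v
  change W.mapQ W (ρ z) (fun v hv => hW z v hv) (W.mkQ v) = c • W.mkQ v
  rw [Submodule.mkQ_apply, Submodule.mapQ_apply, hc]
  rfl

/-- Elements of a normal subgroup which act trivially in the irreducible representations act
trivially in the completely reducible ones. -/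
theorem kill_sc {T : Subgroup E} [hTn : T.Normal] {D : ℕ}
    (hT : ∀ (V : Type v) [AddCommGroup V] [Module F V] [FiniteDimensional F V]
      (ρ : E →* Module.End F V), finrank F V ≤ D → Irr ρ → Sz Z ρ → ∀ φ ∈ T, ρ φ = 1)
    (V : Type v) [AddCommGroup V] [Module F V] [FiniteDimensional F V]
    (ρ : E →* Module.End F V) (hD : finrank F V ≤ D) (hρ : CompRed ρ) (hz : Sz Z ρ) :
    ∀ φ ∈ T, ρ φ = 1 := by
  let U₀ : Submodule F V :=
    { carrier := {v | ∀ φ ∈ T, ρ φ v = v}
      add_mem' := by
        intro x y hx hy φ hφ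
        rw [map_add, hx φ hφ, hy φ hφ]
      zero_mem' := fun φ _ => map_zero _
      smul_mem' := by
        intro c x hx φ hφ
        rw [map_smul, hx φ hφ] }
  have hE : ∀ g, ∀ u ∈ U₀, ρ g u ∈ U₀ := by
    intro g u hu φ hφ
    have h1 : φ * g = g * (g⁻¹ * φ * g) := by group
    have h2 : g⁻¹ * φ * g ∈ T := by
      have := hTn.conj_mem φ hφ g⁻¹
      rwa [inv_inv] at this
    rw [← Module.End.mul_apply, ← map_mul, h1, map_mul, Module.End.mul_apply, hu _ h2]
  obtain ⟨W, hW, hc⟩ := hρ U₀ hE
  have hW0 : W = ⊥ := by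
    by_contra hne
    obtain ⟨U, hU, hUW, hU0, hirr⟩ := exists_irr ρ W hW hne
    apply hU0
    rw [eq_bot_iff, ← hc.inf_eq_bot]
    refine le_inf ?_ hUW
    intro u hu φ hφ
    have h1 := hT U (resW ρ U hU) ((Submodule.finrank_le U).trans hD) hirr (hz.res hU) φ hφ
    have h2 := congrArg Subtype.val (LinearMap.congr_fun h1 ⟨u, hu⟩)
    exact h2
  have hE1 : U₀ = ⊤ := by
    have h1 := hc.sup_eq_top
    rwa [hW0, sup_bot_eq] at h1
  intro φ hφ
  ext v
  have h1 : v ∈ U₀ := by rw [hE1]; exact Submodule.mem_top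
  exact h1 φ hφ

/-- They act unipotently in all representations. -/
theorem unip_sc {T : Subgroup E} [hTn : T.Normal] {D : ℕ}
    (hT : ∀ (V : Type v) [AddCommGroup V] [Module F V] [FiniteDimensional F V]
      (ρ : E →* Module.End F V), finrank F V ≤ D → Irr ρ → Sz Z ρ → ∀ φ ∈ T, ρ φ = 1) :
    ∀ (d : ℕ) (V : Type v) [AddCommGroup V] [Module F V] [FiniteDimensional F V]
      (ρ : E →* Module.End F V), finrank F V ≤ d → finrank F V ≤ D → Sz Z ρ →
      ∀ l : List E, (∀ φ ∈ l, φ ∈ T) → finrank F V ≤ l.length →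
        (l.map (fun φ => ρ φ - 1)).prod = 0 := by
  intro d
  induction d with
  | zero =>
    intro V _ _ _ ρ h0 _ _ l _ _
    have : Subsingleton V := finrank_zero_iff.1 (Nat.le_zero.1 h0)
    exact Subsingleton.elim _ _
  | succ d ih =>
    intro V _ _ _ ρ hd hD hz l hl hlen
    by_cases hc : ∃ W : Submodule F V, (∀ g, ∀ v ∈ W, ρ g v ∈ W) ∧ W ≠ ⊥ ∧ W ≠ ⊤
    · obtain ⟨W, hW, hb, ht⟩ := hc
      have e1 : finrank F (V ⧸ W) + finrank F W = finrank F V :=
        Submodule.finrank_quotient_add_finrank W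
      have e2 : finrank F W < finrank F V := Submodule.finrank_lt ht
      have e3 : 0 < finrank F W := by
        have : Nontrivial W := Submodule.nontrivial_iff_ne_bot.2 hb
        exact finrank_pos
      have hsplit : l.take (finrank F W) ++ l.drop (finrank F W) = l := List.take_append_drop _ l
      have hs1 : (l.take (finrank F W)).length = finrank F W := by
        rw [List.length_take]
        omega
      have hs2 : finrank F (V ⧸ W) ≤ (l.drop (finrank F W)).length := by
        rw [List.length_drop]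
        omega
      have r1 : ∀ (m : List E) (x : V), Submodule.Quotient.mk (p := W)
          ((m.map (fun φ => ρ φ - 1)).prod x) =
          (m.map (fun φ => quoW ρ W hW φ - 1)).prod (Submodule.Quotient.mk x) := by
        intro m
        induction m with
        | nil =>
          intro x
          rfl
        | cons φ m ihm =>
          intro x
          rw [List.map_cons, List.map_cons, List.prod_cons, List.prod_cons, Module.End.mul_apply,
            Module.End.mul_apply, ← ihm]
          rfl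
      have r2 : ∀ (m : List E) (x : W), ((m.map (fun φ => ρ φ - 1)).prod (x : V)) =
          ((m.map (fun φ => resW ρ W hW φ - 1)).prod x : W) := by
        intro m
        induction m with
        | nil =>
          intro x
          rfl
        | cons φ m ihm =>
          intro x
          rw [List.map_cons, List.map_cons, List.prod_cons, List.prod_cons, Module.End.mul_apply,
            Module.End.mul_apply, ihm]
          rfl
      have q1 := ih (V ⧸ W) (quoW ρ W hW) (by omega) (by omega) (hz.quo hW)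
        (l.drop (finrank F W)) (fun φ hφ => hl φ (List.mem_of_mem_drop hφ)) hs2
      have q2 := ih W (resW ρ W hW) (by omega) (by omega) (hz.res hW) (l.take (finrank F W))
        (fun φ hφ => hl φ (List.mem_of_mem_take hφ)) hs1.ge
      rw [← hsplit, List.map_append, List.prod_append]
      ext x
      rw [Module.End.mul_apply, LinearMap.zero_apply]
      have hx : ((l.drop (finrank F W)).map (fun φ => ρ φ - 1)).prod x ∈ W := by
        rw [← Submodule.Quotient.mk_eq_zero, r1, q1, LinearMap.zero_apply]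
      have h3 := r2 (l.take (finrank F W)) ⟨_, hx⟩
      rw [q2, LinearMap.zero_apply] at h3
      exact h3
    · push Not at hc
      rcases Nat.eq_zero_or_pos (finrank F V) with h0 | h0
      · have : Subsingleton V := finrank_zero_iff.1 h0
        exact Subsingleton.elim _ _
      · have hirr : Irr ρ := by
          intro U hU
          by_cases hUb : U = ⊥
          · exact Or.inl hUb
          · exact Or.inr (hc U hU hUb)
        obtain ⟨φ, m, rfl⟩ : ∃ φ m, l = φ :: m := by
          cases l with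
          | nil => simp only [List.length_nil] at hlen; omega
          | cons φ m => exact ⟨φ, m, rfl⟩
        rw [List.map_cons, List.prod_cons,
          hT V ρ hD hirr hz φ (hl φ List.mem_cons_self), sub_self, zero_mul]

/-- Commutators with elements which act by scalars act trivially. -/
theorem comm_SQ {T : Subgroup E} (hT : ∀ t ∈ T, t ∈ SQ ρ) :
    ∀ φ ∈ ⁅(⊤ : Subgroup E), T⁆, ρ φ = 1 := by
  have h1 : ⁅(⊤ : Subgroup E), T⁆ ≤ ρ.ker := by
    rw [Subgroup.commutator_le]
    intro g _ t ht
    obtain ⟨c, hc⟩ := hT t ht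
    have h2 : ρ g * ρ t = ρ t * ρ g := by
      ext v
      rw [Module.End.mul_apply, Module.End.mul_apply, hc, hc, map_smul]
    rw [MonoidHom.mem_ker, commutatorElement_def, map_mul, map_mul, map_mul, h2, ← map_mul,
      ← map_mul, ← map_mul, show t * g * g⁻¹ * t⁻¹ = 1 by group, map_one]
  exact fun φ hφ => h1 hφ

end sc

/-! ### The Torelli group -/

section tor

variable {m : ℕ} {G : Type w} [Group G] {a b : Fin m → G}

theorem cls_cp (h : IsSurf a b) (q : Fin m) : cls h (cp a b q) = cls h (a q) := by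
  have h1 : ∀ k, cls h (DD a b k) = 0 := by
    intro k
    induction k with
    | zero => rw [DD_zero, SP.cls_one]
    | succ k ih =>
      rw [DD_succ, cls_mul, ih, cm]
      simp only [cls_mul, cls_inv]
      abel
  rw [cp, cls_mul, h1, zero_add]

theorem Tp_tor (h : IsSurf a b) (q : Fin m) : H1 h (TA h q * Tp h q) = 1 := by
  have cj : ∀ x y : G, cls h (x * y * x⁻¹) = cls h y := by
    intro x y
    rw [cls_mul, cls_mul, cls_inv]
    abel
  have cA : ∀ x, cls h (TA h q (cp a b q * x * (cp a b q)⁻¹)) = cls h (TA h q x) := by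
    intro x
    rw [map_mul, map_mul, map_inv, cj]
  refine lin_ext (fun k => ?_) (fun k => ?_)
  · rw [H1_e, MulAut.mul_apply]
    rcases le_or_gt k q with hk | hk
    · rw [Tp_a_le h hk, cA, TA_a, cls_a]; rfl
    · rw [Tp_a_gt h hk, TA_a, cls_a]; rfl
  · rw [H1_f, MulAut.mul_apply]
    rcases lt_trichotomy k q with hk | rfl | hk
    · rw [Tp_b_lt h hk, cA, TA_b_ne h hk.ne, cls_b]; rfl
    · have e1 : cls h (TA h k (cp a b k)) = cls h (a k) := by
        rw [← SP.H1_cls, cls_cp, SP.H1_cls, TA_a]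
      rw [Tp_b_self h, map_mul, map_inv, cls_mul, cls_inv, e1, TA_b, cls_mul, cls_b]
      change _ = SP.f k
      abel
    · rw [Tp_b_gt h hk, TA_b_ne h hk.ne', cls_b]; rfl

theorem uT_tor (h : IsSurf a b) (q : Fin m) : (uA h q)⁻¹ * uT h q ∈ Tor h := by
  intro x
  have e : (((uA h q)⁻¹ * uT h q : MCG a b) : MulAut G) = TA h q * Tp h q := by
    change (TrA h q)⁻¹ * Tp h q = _
    rw [TrA_lt h q.2, inv_inv]
  rw [e, ← SP.H1_cls, Tp_tor]
  rfl

theorem braid_central {M : Type*} [Group M] {x y z : M} (hA : x * y * x = y * x * y)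
    (hz : ∀ g, g * z = z * g) (hT : x * z * y * (x * z) = y * (x * z) * y) : z = 1 := by
  have e1 : x * z * y * (x * z) = z * (z * (x * y * x)) := by
    rw [hz x]
    have h1 : z * x * y * (z * x) = z * (x * y * z) * x := by group
    rw [h1, hz (x * y)]
    group
  have e2 : y * (x * z) * y = z * (x * y * x) := by
    rw [hA, hz x]
    have h1 : y * (z * x) * y = y * z * (x * y) := by group
    rw [h1, hz y]
    group
  rw [e1, e2] at hT
  have h3 := mul_left_cancel hT
  exact mul_eq_right.1 h3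

/-- The Torelli group has no coinvariants. -/
theorem Tor_comm (h : IsSurf a b) (hm : 3 ≤ m) : Tor h ≤ ⁅(⊤ : Subgroup (MCG a b)), Tor h⁆ := by
  have hn : (⁅(⊤ : Subgroup (MCG a b)), Tor h⁆).Normal := Subgroup.commutator_normal _ _
  obtain ⟨N, hN⟩ : ∃ N : Subgroup (MCG a b), N = ⁅(⊤ : Subgroup (MCG a b)), Tor h⁆ := ⟨_, rfl⟩
  rw [← hN] at hn ⊢
  have key : ∀ q : Fin m, QuotientGroup.mk' N (uA h q) = QuotientGroup.mk' N (uT h q) := by
    intro q
    have hz : ∀ g : MCG a b ⧸ N, g * QuotientGroup.mk' N ((uA h q)⁻¹ * uT h q) =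
        QuotientGroup.mk' N ((uA h q)⁻¹ * uT h q) * g := by
      intro g
      obtain ⟨g, rfl⟩ := QuotientGroup.mk'_surjective N g
      have h1 : ⁅g, (uA h q)⁻¹ * uT h q⁆ ∈ N := by
        rw [hN]
        exact Subgroup.commutator_mem_commutator (Subgroup.mem_top g) (uT_tor h q)
      have h2 : QuotientGroup.mk' N ⁅g, (uA h q)⁻¹ * uT h q⁆ = 1 :=
        (QuotientGroup.eq_one_iff _).2 h1
      rw [commutatorElement_def, map_mul, map_mul, map_inv, map_mul] at h2
      rwa [map_inv, mul_inv_eq_one, mul_inv_eq_iff_eq_mul] at h2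
    have hA := congrArg (QuotientGroup.mk' N) ((lk_mcg h).brA q)
    have hT := congrArg (QuotientGroup.mk' N) (ubp h q).brT
    have e : uT h q = uA h q * ((uA h q)⁻¹ * uT h q) := by group
    have e' : QuotientGroup.mk' N (uT h q) = QuotientGroup.mk' N (uA h q) *
        QuotientGroup.mk' N ((uA h q)⁻¹ * uT h q) := by
      rw [← map_mul, ← e]
    rw [map_mul, map_mul, map_mul, map_mul] at hA hT
    rw [e'] at hT
    rw [e', braid_central hA hz hT, mul_one]
  intro φ hφ
  exact (QuotientGroup.eq_one_iff φ).1 (H62D.torelli_mcg h hm (QuotientGroup.mk' N)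
    (q := ⟨0, by omega⟩) (q' := ⟨1, by omega⟩) rfl (key _) (key _) φ hφ)

end tor

/-! ### Central extensions -/

section ext

variable {m : ℕ} {G : Type w} [Group G] {a b : Fin m → G} (h : IsSurf a b)
variable {F : Type u} [Field F] {E : Type x} [Group E] {π : E →* MCG a b}

/-- If the twists of two bounding pairs coincide, then the Torelli group acts by scalars. -/
theorem tor_scalar (hm : 3 ≤ m) (hs : Function.Surjective π) {V : Type v} [AddCommGroup V]
    [Module F V] {ρ : E →* Module.End F V} (hz : Sz {z | π z = 1} ρ) {q q' : Fin m}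
    (hq : (q' : ℕ) = q + 1) {x x' y y' : E} (hx : π x = uA h q) (hx' : π x' = uT h q)
    (hy : π y = uA h q') (hy' : π y' = uT h q') (e1 : ρ x = ρ x') (e2 : ρ y = ρ y') :
    ∀ t : E, π t ∈ Tor h → t ∈ SQ ρ := by
  have hn : ((SQ ρ).map π).Normal := (SQ_normal (ρ := ρ)).map π hs
  have key : ∀ s t : E, ρ s = ρ t → QuotientGroup.mk' ((SQ ρ).map π) (π s) =
      QuotientGroup.mk' ((SQ ρ).map π) (π t) := by
    intro s t e
    apply QuotientGroup.eq.2
    refine ⟨s⁻¹ * t, ⟨1, fun v => ?_⟩, by rw [map_mul, map_inv]⟩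
    rw [map_mul, ← e, ← map_mul, inv_mul_cancel, map_one, one_smul]
    rfl
  have h1 := key _ _ e1
  have h2 := key _ _ e2
  rw [hx, hx'] at h1
  rw [hy, hy'] at h2
  intro t ht
  obtain ⟨s, hs', e⟩ := (QuotientGroup.eq_one_iff (π t)).1
    (H62D.torelli_mcg h hm (QuotientGroup.mk' ((SQ ρ).map π)) hq h1 h2 (π t) ht)
  have h3 : s⁻¹ * t ∈ SQ ρ := hz _ (by rw [Set.mem_setOf_eq, map_mul, map_inv, e,
    inv_mul_cancel])
  have h4 := mul_mem hs' h3
  rwa [mul_inv_cancel_left] at h4

/-- The normalised lift of the Torelli group. -/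
def TorL (π : E →* MCG a b) : Subgroup E := ⁅(⊤ : Subgroup E), (Tor h).comap π⁆

instance TorL_normal : (TorL h π).Normal := Subgroup.commutator_normal _ _

theorem map_TorL (hm : 3 ≤ m) (hs : Function.Surjective π) : (TorL h π).map π = Tor h := by
  rw [TorL, Subgroup.map_commutator, Subgroup.map_top_of_surjective _ hs,
    Subgroup.map_comap_eq_self_of_surjective hs]
  exact le_antisymm (Subgroup.commutator_le_right _ _) (Tor_comm h hm)

/-- In the irreducible representations of `E` of dimension at most `D` in which the kernel acts by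
scalars, the Torelli group acts by scalars. -/
def GoodE (π : E →* MCG a b) (F : Type u) [Field F] (D : ℕ) : Prop :=
  ∀ (V : Type v) [AddCommGroup V] [Module F V] [FiniteDimensional F V]
    (ρ : E →* Module.End F V), finrank F V ≤ D → Irr ρ → Sz {z | π z = 1} ρ →
      ∀ t : E, π t ∈ Tor h → t ∈ SQ ρ

variable {D : ℕ}

theorem GoodE.triv (hG : GoodE.{u, v, w, x} h π F D) (V : Type v) [AddCommGroup V] [Module F V]
    [FiniteDimensional F V] (ρ : E →* Module.End F V) (hD : finrank F V ≤ D) (hirr : Irr ρ)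
    (hz : Sz {z | π z = 1} ρ) : ∀ t ∈ TorL h π, ρ t = 1 :=
  comm_SQ fun t ht => hG V ρ hD hirr hz t ht

/-- Completely reducible representations. -/
theorem GoodE.cr (hG : GoodE.{u, v, w, x} h π F D) (V : Type v) [AddCommGroup V] [Module F V]
    [FiniteDimensional F V] (ρ : E →* Module.End F V) (hD : finrank F V ≤ D) (hρ : CompRed ρ)
    (hz : Sz {z | π z = 1} ρ) : ∀ t ∈ TorL h π, ρ t = 1 :=
  kill_sc (Z := {z | π z = 1}) (T := TorL h π) hG.triv V ρ hD hρ hz

/-- **Completely reducible representations.** -/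
theorem GoodE.cr_scalar (hm : 3 ≤ m) (hs : Function.Surjective π)
    (hG : GoodE.{u, v, w, x} h π F D) (V : Type v) [AddCommGroup V] [Module F V]
    [FiniteDimensional F V] (ρ : E →* Module.End F V) (hD : finrank F V ≤ D) (hρ : CompRed ρ)
    (hz : Sz {z | π z = 1} ρ) (t : E) (ht : π t ∈ Tor h) : t ∈ SQ ρ := by
  rw [← map_TorL h hm hs] at ht
  obtain ⟨s, hs', e⟩ := ht
  have h1 : s ∈ SQ ρ := ⟨1, fun v => by rw [hG.cr h V ρ hD hρ hz s hs', one_smul]; rfl⟩
  have h3 : s⁻¹ * t ∈ SQ ρ := hz _ (by rw [Set.mem_setOf_eq, map_mul, map_inv, e,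
    inv_mul_cancel])
  have h4 := mul_mem h1 h3
  rwa [mul_inv_cancel_left] at h4

/-- **Arbitrary representations.** -/
theorem GoodE.unip (hG : GoodE.{u, v, w, x} h π F D) (V : Type v) [AddCommGroup V] [Module F V]
    [FiniteDimensional F V] (ρ : E →* Module.End F V) (hD : finrank F V ≤ D)
    (hz : Sz {z | π z = 1} ρ) (l : List E) (hl : ∀ t ∈ l, t ∈ TorL h π)
    (hlen : finrank F V ≤ l.length) : (l.map (fun t => ρ t - 1)).prod = 0 :=
  unip_sc (Z := {z | π z = 1}) (T := TorL h π) hG.triv (finrank F V) V ρ le_rfl hD hz l hl hlen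

end ext

end Pool.Agent.H.MP_59b15d_al.Lft
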