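import Pool.Agent.H.MP_59b15d_al.deg.LiftG
import Pool.Agent.H.MP_59b15d_al.h40d.PairsL

/-!
Perfect central extensions of the mapping class group: in the irreducible representations of
dimension less than `2 ^ (m - 1)` in which the kernel acts by scalars, the Torelli group acts by
scalars.
-/

set_option autoImplicit false

namespace Pool.Agent.H.MP_59b15d_al.Lft

open Module
open Pool.MP_59b15d_al.H24T Pool.MP_59b15d_al.H76R Pool.MP_59b15d_al.H73E
open Pool.MP_59b15d_al.H60G Pool.MP_59b15d_al.H40L Pool.MP_59b15d_al.H46U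
open Pool.Agent.H.MP_59b15d_al.H52E (Irr)

universe u v w x

variable {m : ℕ} {G : Type w} [Group G] {a b : Fin m → G} (h : IsSurf a b)
variable {F : Type u} [Field F] {E : Type x} [Group E] {π : E →* MCG a b}

/-- **The bound `2 ^ (m - 1)` for perfect central extensions**, over any field. -/
theorem goodE (hC : CE π) (hperf : ∀ x : E, x ∈ commutator E) (hm : 6 ≤ m) {D : ℕ}
    (hD : D < 2 ^ (m - 1)) : GoodE.{u, v, w, x} h π F D := by
  intro V _ _ _ ρ hV hirr hz
  obtain ⟨A, B, C, S, M⟩ := exists_LM h hC (by omega)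
  obtain ⟨-, q, q', hq, -, -, h1, h2⟩ := Pool.MP_59b15d_al.H40D.pairs_LM h hC hperf M hm
    (lt_of_le_of_lt hV hD) hz hirr
  obtain ⟨T, hT, bT⟩ := M.bp q
  obtain ⟨T', hT', bT'⟩ := M.bp q'
  exact tor_scalar h (by omega) hC.sur hz hq (M.pA q) hT (M.pA q') hT' (h1 T hT bT)
    (h2 T' hT' bT')

end Pool.Agent.H.MP_59b15d_al.Lft
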