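import Pool.Agent.H.MP_59b15d_al.deg.LiftI
import Pool.Agent.H.MP_59b15d_al.h73p.Fin

/-!
Characteristic zero: if a twist has finite order (up to scalars), then the representation of the
mapping class group is trivial (up to scalars).
-/

set_option autoImplicit false

namespace Pool.Agent.H.MP_59b15d_al.Lft

open Module
open Pool.MP_59b15d_al.H95E Pool.MP_59b15d_al.H93E
open Pool.MP_59b15d_al.H24T Pool.MP_59b15d_al.H76R Pool.MP_59b15d_al.H73E
open Pool.MP_59b15d_al.H60G Pool.MP_59b15d_al.H40L Pool.MP_59b15d_al.H46U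
open Pool.Agent.H.MP_59b15d_al.Lin (uA uB uC)
open Pool.Agent.H.MP_59b15d_al.H73P

universe u v w

variable {m : ℕ} {G : Type w} [Group G] {a b : Fin m → G} (h : IsSurf a b)
variable {F : Type u} [Field F] [CharZero F] {V : Type v} [AddCommGroup V] [Module F V]

/-- **Projective representations.** -/
theorem proj_twist [FiniteDimensional F V] {ρ : MCG a b → (V ≃ₗ[F] V)} (hρ : IsProj ρ)
    (hm : 6 ≤ m) (hD : finrank F V < 2 ^ (m - 1)) {n i : ℕ} (hn : n ≠ 0) (hi : i < m)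
    (hs : ∃ c : F, ∀ v, ρ (uA h i ^ n) v = c • v) (φ : MCG a b) :
    ∃ c : Fˣ, ∀ v, ρ φ v = c • v := by
  have hp := mcg_perfect h (by omega : 3 ≤ m)
  have hC := ce_pe hρ hp
  obtain ⟨t, ht⟩ := hC.sur (uA h i)
  have h1 : t ^ n ∈ SQ (se hρ) := by
    obtain ⟨c, hc⟩ := hs
    obtain ⟨d, hd⟩ := se_eq hρ (t ^ n)
    refine ⟨d * c, fun v => ?_⟩
    rw [hd, map_pow, ht, hc, Units.smul_def, smul_smul]
  have h2 := triv_of_twist h hC (perf_pe hρ hp) hm (se hρ) hD (se_sz hρ) hi ht hn h1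
  obtain ⟨x, rfl⟩ := hC.sur φ
  obtain ⟨c, hc⟩ := se_eq hρ x
  refine ⟨c⁻¹, fun v => ?_⟩
  have h3 := hc v
  rw [h2, Module.End.one_apply] at h3
  conv_rhs => rw [h3]
  rw [inv_smul_smul]

/-- **Representations** in which the product of the first `r` operators vanishes. -/
theorem lin_twist (ρ : MCG a b →* Module.End F V) {r : ℕ} (hr : 0 < r) (hrm : r + 2 ≤ m)
    (hd : ((List.range r).map fun k => ρ (uA h k) - 1).prod = 0) {n i : ℕ} (hn : n ≠ 0)
    (hi : i < m) {c : F} (hc : ∀ v, ρ (uA h i ^ n) v = c • v) (φ : MCG a b) : ρ φ = 1 := by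
  have h1 : uA h i ^ n ∈ SQ ρ := ⟨c, hc⟩
  obtain ⟨d, hd'⟩ := pow_SQ (lk_mcg h) hi h1
  rw [map_pow] at hd'
  exact H78E.triv_of_uA h (by omega) ρ
    (scal_unip hn (H78E.twist_unip_of h hr hrm ρ hd) hd') φ

end Pool.Agent.H.MP_59b15d_al.Lft
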