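import Pool.Agent.H.MP_59b15d_al.deg.LiftI
import Pool.Agent.H.MP_59b15d_al.h52e.Mix
import Pool.Agent.H.MP_59b15d_al.h73p.Fin

/-!
The bound `9 * 2 ^ (m - 4)`.
-/

set_option autoImplicit false

namespace Pool.Agent.H.MP_59b15d_al.Lft

open Module
open Pool.MP_59b15d_al.H95E Pool.MP_59b15d_al.H93E Pool.MP_59b15d_al.H11D
open Pool.MP_59b15d_al.H60E Pool.MP_59b15d_al.H47E Pool.MP_59b15d_al.H95P
open Pool.MP_59b15d_al.H24T Pool.MP_59b15d_al.H76R Pool.MP_59b15d_al.H73E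
open Pool.MP_59b15d_al.H60G Pool.MP_59b15d_al.H40L Pool.MP_59b15d_al.H46U
open Pool.Agent.H.MP_59b15d_al.Lin (uA uB uC)
open Pool.Agent.H.MP_59b15d_al.H52E
open Pool.Agent.H.MP_59b15d_al.H73P
open Pool.Agent.H.MP_59b15d_al.SP (cls)

universe u v w x

/-! ### Numbers -/

lemma choose_nine (v : ℕ) : 9 * 2 ^ (v + 1) ≤ (2 * (v + 3) + 1).choose (v + 2) := by
  induction v with
  | zero => decide
  | succ v ih =>
    have h1 : (2 * (v + 1 + 3) + 1).choose (v + 1 + 2) =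
        (2 * v + 8).choose (v + 2) + (2 * v + 8).choose (v + 3) := Nat.choose_succ_succ _ _
    have h2 : (2 * v + 8).choose (v + 3) = (2 * v + 7).choose (v + 2) + (2 * v + 7).choose (v + 3) :=
      Nat.choose_succ_succ _ _
    have h3 : (2 * v + 7).choose (v + 2) ≤ (2 * v + 7).choose (v + 3) :=
      Nat.choose_le_succ_of_lt_half_left (by omega)
    have h4 : (2 * (v + 3) + 1).choose (v + 2) = (2 * v + 7).choose (v + 2) := by
      congr 1
    rw [h4] at ih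
    have h5 : 2 ^ (v + 1 + 1) = 2 * 2 ^ (v + 1) := by rw [pow_succ, mul_comm]
    omega

lemma nine_even {u : ℕ} (hu : 3 ≤ u) : 9 * 2 ^ (2 * u - 4) = 4 ^ (u - 3) * 6 ^ 2 := by
  obtain ⟨v, rfl⟩ : ∃ v, u = v + 3 := ⟨u - 3, by omega⟩
  rw [show 2 * (v + 3) - 4 = 2 * v + 2 by omega, pow_add, pow_mul, Nat.add_sub_cancel]
  norm_num
  ring

lemma nine_odd {u : ℕ} (hu : 2 ≤ u) : 9 * 2 ^ (2 * u + 1 - 4) ≤ 4 ^ (u - 1) * 6 ^ 1 := by
  obtain ⟨v, rfl⟩ : ∃ v, u = v + 2 := ⟨u - 2, by omega⟩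
  rw [show 2 * (v + 2) + 1 - 4 = 2 * v + 1 by omega, pow_add, pow_mul,
    show v + 2 - 1 = v + 1 by omega]
  have h1 : (4 : ℕ) ^ (v + 1) = 4 * 4 ^ v := by rw [pow_succ, mul_comm]
  rw [h1, show (2 : ℕ) ^ 2 = 4 by norm_num]
  omega

lemma two_le_nine {m : ℕ} (hm : 6 ≤ m) : 2 ^ (m - 1) ≤ 9 * 2 ^ (m - 4) := by
  obtain ⟨v, rfl⟩ : ∃ v, m = v + 4 := ⟨m - 4, by omega⟩
  rw [show v + 4 - 1 = v + 3 by omega, Nat.add_sub_cancel, pow_add]
  have h1 : 0 < 2 ^ v := by positivity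
  omega

lemma nine_indep {m v : ℕ} (hm : m = 2 * (v + 3) + 1) :
    9 * 2 ^ (m - 4) ≤ 2 ^ (v + 3 - 1) * m.choose (v + 3 - 1) := by
  have h4 := choose_nine v
  rw [hm, show v + 3 - 1 = v + 2 by omega, show 2 * (v + 3) + 1 - 4 = (v + 1) + (v + 2) by omega,
    pow_add, ← mul_assoc, mul_comm (2 ^ (v + 2))]
  exact Nat.mul_le_mul_right _ h4

/-! ### The linear theorem -/

section lin

variable {m : ℕ} {G : Type w} [Group G] {a b : Fin m → G} (h : IsSurf a b)
variable {F : Type u} [Field F] {D : ℕ}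

/-- **The bound `9 * 2 ^ (m - 4)`.** -/
theorem good_nine (hm : 6 ≤ m) (hD : D < 9 * 2 ^ (m - 4)) : Good.{u, v, w} h F D := by
  refine good_of_core h (core_all h) (by omega) fun V _ _ _ ρ hV hirr => ?_
  rcases Nat.even_or_odd' m with ⟨u, hu | hu⟩
  · refine ⟨u - 2, by omega, ?_⟩
    have h1 := mixed_all h V ρ (u - 3) 2 (by omega) (by omega)
      ((lt_of_le_of_lt hV hD).trans_eq (by rw [hu]; exact nine_even (by omega)))
    rwa [show u - 3 + 2 = u - 2 + 1 by omega] at h1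
  · by_cases h2 : ((List.range (u - 1)).map fun i => ρ (uA h i) - 1).prod = 0
    · refine ⟨u - 2, by omega, ?_⟩
      rwa [show u - 2 + 1 = u - 1 by omega]
    · exfalso
      have h1 := mixed_all h V ρ (u - 1) 1 le_rfl (by omega)
        ((lt_of_le_of_lt hV hD).trans_le (by rw [hu]; exact nine_odd (by omega)))
      have h3 := indep_all h V ρ hirr (u - 1) (by omega) h1 h2
      obtain ⟨v, rfl⟩ : ∃ v, u = v + 3 := ⟨u - 3, by omega⟩
      have h4 := nine_indep hu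
      omega

/-- A product of the operators `ρ t - 1` vanishes. -/
theorem exists_prod_nine (hm : 6 ≤ m) {V : Type v} [AddCommGroup V] [Module F V]
    [FiniteDimensional F V] (ρ : MCG a b →* Module.End F V)
    (hdim : finrank F V < 9 * 2 ^ (m - 4)) :
    ∃ r, 0 < r ∧ r + 2 ≤ m ∧ ((List.range r).map fun k => ρ (uA h k) - 1).prod = 0 := by
  rcases Nat.even_or_odd' m with ⟨u, hu | hu⟩
  · exact ⟨u - 3 + 2, by omega, by omega, mixed_all h V ρ (u - 3) 2 (by omega) (by omega)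
      (hdim.trans_eq (by rw [hu]; exact nine_even (by omega)))⟩
  · exact ⟨u - 1 + 1, by omega, by omega, mixed_all h V ρ (u - 1) 1 le_rfl (by omega)
      (hdim.trans_le (by rw [hu]; exact nine_odd (by omega)))⟩

end lin

/-! ### Central extensions -/

section abs

variable {Γ : Type w} [Group Γ] {A B C S T : ℕ → Γ} {g : ℕ}
variable {F : Type u} [Field F] {V : Type v} [AddCommGroup V] [Module F V]
variable [FiniteDimensional F V]

theorem front_nine (L : Lk g A B C S) (R : Ln g A B C S) (hout : ∀ i, g ≤ i → A i = 1)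
    (ρ : Γ →* Module.End F V) (hU : LemU ρ A B C S g)
    (hEV : ∀ k ≤ g, np ρ ((List.range k).map A) ≠ 0 →
      ∀ m < k, ∀ W, Ex ρ A B C S g m W → W = ⊥)
    (hg : 6 ≤ g) (hdim : finrank F V < 9 * 2 ^ (g - 4)) :
    ∃ k, 2 * k + 4 ≤ g ∧ np ρ ((List.range (k + 1)).map A) = 0 := by
  rcases Nat.even_or_odd' g with ⟨u, hu | hu⟩
  · refine ⟨u - 2, by omega, ?_⟩
    have h1 := Pool.MP_59b15d_al.H98P.mixedA L R ρ (t := u - 3) (s := 2) (by omega) (by omega)
      (hdim.trans_eq (by rw [hu]; exact nine_even (by omega)))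
    rwa [show u - 3 + 2 = u - 2 + 1 by omega] at h1
  · by_cases h2 : np ρ ((List.range (u - 1)).map A) = 0
    · refine ⟨u - 2, by omega, ?_⟩
      rwa [show u - 2 + 1 = u - 1 by omega]
    · exfalso
      have h1 := Pool.MP_59b15d_al.H98P.mixedA L R ρ (t := u - 1) (s := 1) le_rfl (by omega)
        (hdim.trans_le (by rw [hu]; exact nine_odd (by omega)))
      have h3 := indep L R hout hU (k := u - 1) (by omega)
        (fun m hm => hEV (u - 1) (by omega) h2 m (by omega)) h1 h2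
      obtain ⟨v, rfl⟩ : ∃ v, u = v + 3 := ⟨u - 3, by omega⟩
      have h4 := nine_indep hu
      omega

theorem front_deg_nine (L : Lk g A B C S) (R : Ln g A B C S) (ρ : Γ →* Module.End F V)
    (hg : 6 ≤ g) (hdim : finrank F V < 9 * 2 ^ (g - 4)) :
    ∃ k, k + 4 ≤ g ∧ np ρ ((List.range (k + 1)).map A) = 0 := by
  rcases Nat.even_or_odd' g with ⟨u, hu | hu⟩
  · refine ⟨u - 2, by omega, ?_⟩
    have h1 := Pool.MP_59b15d_al.H98P.mixedA L R ρ (t := u - 3) (s := 2) (by omega) (by omega)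
      (hdim.trans_eq (by rw [hu]; exact nine_even (by omega)))
    rwa [show u - 3 + 2 = u - 2 + 1 by omega] at h1
  · refine ⟨u - 1, by omega, ?_⟩
    exact Pool.MP_59b15d_al.H98P.mixedA L R ρ (t := u - 1) (s := 1) le_rfl (by omega)
      (hdim.trans_le (by rw [hu]; exact nine_odd (by omega)))

end abs

section ext

variable {m : ℕ} {G : Type w} [Group G] {a b : Fin m → G} (h : IsSurf a b)
variable {F : Type u} {V : Type v} [Field F] [AddCommGroup V] [Module F V]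
  [FiniteDimensional F V] {E : Type x} [Group E] {π : E →* MCG a b} {ρ : E →* Module.End F V}
  {A B C S : ℕ → E}

/-- **Two consecutive bounding pairs** act in the same way on an irreducible representation of
dimension less than `9 * 2 ^ (m - 4)`, and the twists are unipotent. -/
theorem pairs_nine (hC : CE π) (hperf : ∀ x : E, x ∈ commutator E) (M : LM h π A B C S)
    (hm : 6 ≤ m) (hdim : finrank F V < 9 * 2 ^ (m - 4)) (hz : Sz {z | π z = 1} ρ)
    (hirr : Irr ρ) :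
    (∃ k, 2 * k + 4 ≤ m ∧ (ρ (A 0) - 1) ^ (k + 1) = 0) ∧
    ∃ (q q' : Fin m) (T T' : E), (q' : ℕ) = q + 1 ∧ π T = uT h q ∧ π T' = uT h q' ∧
      ρ (A q) = ρ T ∧ ρ (A q') = ρ T' := by
  choose T hT using M.bp
  let T' : ℕ → E := fun q => if hq : q < m then T ⟨q, hq⟩ else 1
  have hT' : ∀ q (hq : q < m), T' q = T ⟨q, hq⟩ := fun q hq => dif_pos hq
  have P : ∀ q, 0 < q → q + 1 < m → Bp m A B C S q (T' q) := fun q h1 h2 => by
    rw [hT' q (by omega)]
    exact (hT ⟨q, by omega⟩).2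
  have star : ∀ q, 0 < q → q + 1 < m → fa C S (q - 1) 1 ∈
      Subgroup.closure {C (q - 1), C q, A (q - 1), A q, A (q + 1), B q} := fun q h1 h2 => by
    obtain ⟨i, rfl⟩ : ∃ i, q = i + 1 := ⟨q - 1, by omega⟩
    exact M.lnz.star (by omega)
  obtain ⟨k, hk, h0⟩ := front_deg_nine M.lk M.ln ρ hm hdim
  have X := Pool.MP_59b15d_al.H40D.eu_mcg h hz M.pA M.pB M.pC M.pS M.lk M.oA M.oS hk h0
    (Pool.MP_59b15d_al.H40D.gen_LM h hC hperf (by omega) M) hirr
  obtain ⟨k', hk', h0'⟩ := front_nine M.lk M.ln M.oA ρ X.hU X.hEV hm hdim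
  obtain ⟨q, h1, h2, h3, h4⟩ := core_abs M.lk M.ln P M.oA star X.hU X.hU' X.hEV X.hEV' hk' h0'
  refine ⟨⟨k', hk', Pool.MP_59b15d_al.H98P.unipA M.lk M.ln (by omega) (by omega) ρ h0'⟩,
    ⟨q, by omega⟩, ⟨q + 1, by omega⟩, T' q, T' (q + 1), rfl, ?_, ?_, h3, h4⟩
  · rw [hT' q (by omega)]
    exact (hT _).1
  · rw [hT' (q + 1) (by omega)]
    exact (hT _).1

/-- **The bound `9 * 2 ^ (m - 4)` for perfect central extensions**, over any field. -/
theorem goodE_nine (hC : CE π) (hperf : ∀ x : E, x ∈ commutator E) (hm : 6 ≤ m) {D : ℕ}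
    (hD : D < 9 * 2 ^ (m - 4)) : GoodE.{u, v, w, x} h π F D := by
  intro V _ _ _ ρ hV hirr hz
  obtain ⟨A, B, C, S, M⟩ := exists_LM h hC (by omega)
  obtain ⟨-, q, q', T, T', hq, h1, h2, h3, h4⟩ := pairs_nine h hC hperf M hm
    (lt_of_le_of_lt hV hD) hz hirr
  exact tor_scalar h (by omega) hC.sur hz hq (M.pA q) h1 (M.pA q') h2 h3 h4

/-- **A twist of finite order up to scalars.** -/
theorem triv_of_twist_nine [CharZero F] (hC : CE π) (hperf : ∀ x : E, x ∈ commutator E)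
    (hm : 6 ≤ m) (hD : finrank F V < 9 * 2 ^ (m - 4)) (hz : Sz {z | π z = 1} ρ) {t : E} {i : ℕ}
    (hi : i < m) (ht : π t = uA h i) {n : ℕ} (hn : n ≠ 0) (hs : t ^ n ∈ SQ ρ) :
    ∀ x, ρ x = 1 := by
  obtain ⟨A, B, C, S, M⟩ := exists_LM h hC (by omega)
  have hAi : A i ^ n ∈ SQ ρ := by
    have h1 : π (A i * t⁻¹) = 1 := by rw [map_mul, map_inv, M.pA, ht, mul_inv_cancel]
    have h2 : A i = (A i * t⁻¹) * t := by group
    have h3 : Commute (A i * t⁻¹) t := hC.cen _ h1 t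
    rw [h2, h3.mul_pow]
    exact mul_mem (pow_mem (hz _ h1) n) hs
  have hA0 : A 0 ^ n ∈ SQ ρ := pow_SQ M.lk hi hAi
  have hT : ∀ (W : Type v) [AddCommGroup W] [Module F W] [FiniteDimensional F W]
      (τ : E →* Module.End F W), finrank F W ≤ finrank F V → Irr τ →
        Sz ({z | π z = 1} ∪ {A 0 ^ n}) τ → ∀ φ ∈ (⊤ : Subgroup E), τ φ = 1 := by
    intro W _ _ _ τ hW hirr hz' φ _
    obtain ⟨⟨k, -, hk⟩, -⟩ := pairs_nine h hC hperf M hm
      (lt_of_le_of_lt hW hD) (fun z hz1 => hz' z (Or.inl hz1)) hirr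
    obtain ⟨c, hc⟩ := hz' (A 0 ^ n) (Or.inr rfl)
    rw [map_pow] at hc
    exact triv_of_A h hC hperf (by omega) M τ (scal_unip hn hk hc) φ
  have hz2 : Sz ({z | π z = 1} ∪ {A 0 ^ n}) ρ := by
    rintro z (hz1 | hz1)
    · exact hz z hz1
    · rw [Set.mem_singleton_iff] at hz1
      rw [hz1]
      exact hA0
  have hu := unip_sc (T := (⊤ : Subgroup E)) hT (finrank F V) V ρ le_rfl le_rfl hz2
    (List.replicate (finrank F V) (A 0)) (fun φ _ => Subgroup.mem_top φ)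
    (by rw [List.length_replicate])
  rw [List.map_replicate, List.prod_replicate] at hu
  obtain ⟨c, hc⟩ := hA0
  rw [map_pow] at hc
  exact triv_of_A h hC hperf (by omega) M ρ (scal_unip hn hu hc)

end ext

/-! ### Projective representations -/

section proj

variable {m : ℕ} {G : Type w} [Group G] {a b : Fin m → G} (h : IsSurf a b)
variable {F : Type u} [Field F] {V : Type v} [AddCommGroup V] [Module F V]
  [FiniteDimensional F V] {ρ : MCG a b → (V ≃ₗ[F] V)} (hρ : IsProj ρ)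

omit [FiniteDimensional F V] in
theorem goodP_nine (hm : 6 ≤ m) {D : ℕ} (hD : D < 9 * 2 ^ (m - 4)) : GoodP h hρ D :=
  goodE_nine h (ce_pe hρ (mcg_perfect h (by omega))) (perf_pe hρ (mcg_perfect h (by omega))) hm hD

include hρ in
/-- **A twist of finite order up to scalars.** -/
theorem proj_twist_nine [CharZero F] (hm : 6 ≤ m) (hD : finrank F V < 9 * 2 ^ (m - 4)) {n i : ℕ}
    (hn : n ≠ 0) (hi : i < m) (hs : ∃ c : F, ∀ v, ρ (uA h i ^ n) v = c • v) (φ : MCG a b) :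
    ∃ c : Fˣ, ∀ v, ρ φ v = c • v := by
  have hp := mcg_perfect h (by omega : 3 ≤ m)
  have hC := ce_pe hρ hp
  obtain ⟨t, ht⟩ := hC.sur (uA h i)
  have h1 : t ^ n ∈ SQ (se hρ) := by
    obtain ⟨c, hc⟩ := hs
    obtain ⟨d, hd⟩ := se_eq hρ (t ^ n)
    refine ⟨d * c, fun v => ?_⟩
    rw [hd, map_pow, ht, hc, Units.smul_def, smul_smul]
  have h2 := triv_of_twist_nine h hC (perf_pe hρ hp) hm hD (se_sz hρ) hi ht hn h1
  obtain ⟨x, rfl⟩ := hC.sur φ
  obtain ⟨c, hc⟩ := se_eq hρ x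
  refine ⟨c⁻¹, fun v => ?_⟩
  have h3 := hc v
  rw [h2, Module.End.one_apply] at h3
  conv_rhs => rw [h3]
  rw [inv_smul_smul]

end proj

end Pool.Agent.H.MP_59b15d_al.Lft
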